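import Pool.Agent.Lib.MP_ff3ed7_lc.Prg2.Spec

/-!
`Bad` and `FoolsAt`.
-/

namespace Pool.Agent.Lib.MP_ff3ed7_lc.Prg2

open Finset
open Pool.Agent.Lib.MP_ff3ed7_lc.Prg (frac qf path gr cut)

theorem tBdF : S_BdF := by
  intro g A N hN
  have h1 : ¬ Bad g A N (1 / N) → FoolsAt g A N := by
    intro h C Q
    by_contra hc
    rw [not_le, Prg.prob_eq_frac] at hc
    apply h
    refine ⟨(C, Q), ?_⟩
    have e : frac (fun i : Fin (16 * N ^ 6) => evalQ A C Q (gen A N i) = true) =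
        (Nat.card {i : Fin (16 * N ^ 6) // evalQ A C Q (gen A N i) = true} : ℝ) /
          (16 * N ^ 6 : ℕ) := by
      unfold frac
      rw [Fintype.card_fin]
    dsimp only
    rw [e]
    exact hc
  refine ⟨h1, fun h => h1 fun hb => h ?_⟩
  obtain ⟨C, hC⟩ := hb
  refine ⟨C, lt_of_le_of_lt ?_ hC⟩
  have hN' : (1 : ℝ) ≤ N := by exact_mod_cast hN
  apply one_div_le_one_div_of_le (by linarith)
  linarith

end Pool.Agent.Lib.MP_ff3ed7_lc.Prg2
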