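import Pool.Agent.Lib.MP_ff3ed7_lc.Prg2.Spec

/-!
`Bad` is local.
-/

namespace Pool.Agent.Lib.MP_ff3ed7_lc.Prg2

open Finset
open Pool.Agent.Lib.MP_ff3ed7_lc.Prg (frac qf path gr cut)

theorem tBdL (hStr : S_Str) : S_BdL := by
  intro ct g A A' N l hN hA hgen hb
  obtain ⟨C, hC⟩ := hb
  refine ⟨C, ?_⟩
  have key : ∀ ρ, evalQ A' C.1 C.2 ρ = evalQ A C.1 C.2 ρ := by
    intro ρ
    rw [← ct.eval, ← ct.eval]
    refine Prg.eval_congr A A' _ fun u hu => hA u ?_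
    have h1 : u.length ≤ N := Prg.path_allQ A _ (fun s : List Bool => s.length ≤ N)
      (ct.allQ _ _ _ _ _) u hu
    exact hStr.2.2.2.2 u N hN h1
  simp only [key, ← hgen]
  exact hC

end Pool.Agent.Lib.MP_ff3ed7_lc.Prg2
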