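import Pool.Agent.Lib.MP_ff3ed7_lc.Prg2.Spec

/-!
MP_ff3ed7_lc, project `T**`, module `Cer`: certificates exist.
-/

namespace Pool.Agent.Lib.MP_ff3ed7_lc.Prg2

open Finset
open Pool.Agent.Lib.MP_ff3ed7_lc.Prg (frac qf path gr cut)

namespace Cer

/-- extension of a message by zeros -/
private def ext {p : ℕ} (b : ℕ) (y : Fin p → Bool) : Fin b → Bool := fun i =>
  if h : (i : ℕ) < p then y ⟨i, h⟩ else false

private theorem cut_ext {p b : ℕ} (h : p ≤ b) (y : Fin p → Bool) : cut (ext b y) p = y := by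
  funext i
  have h1 : (i : ℕ) < b := lt_of_lt_of_le i.2 h
  simp [cut, ext, h1]

private theorem card_le {p b : ℕ} (h : p ≤ b) : Fintype.card (Fin p → Bool) ≤ 2 ^ b := by
  rw [Fintype.card_fun, Fintype.card_fin, Fintype.card_bool]
  exact Nat.pow_le_pow_right (by norm_num) h

private theorem pr_mem (V : S2) (A : Orc) (y : Fin V.p → Bool) (z : Fin V.q → Bool) :
    0 ≤ V.pr A y z ∧ V.pr A y z ≤ 1 := by
  unfold S2.pr
  rw [Prg.prob_eq_frac]
  exact ⟨Prg.frac_nonneg _, Prg.frac_le_one _⟩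

end Cer

theorem tCer (hMmx : S_Mmx) : S_Cer := by
  intro V A b hb
  obtain ⟨hp, hq, -⟩ := hb
  rcases hMmx (Fin V.p → Bool) (Fin V.q → Bool) (fun y z => V.pr A y z) b
      (fun y z => Cer.pr_mem V A y z) (Cer.card_le hp) (Cer.card_le hq) with ⟨ys, h⟩ | ⟨zs, h⟩
  · refine ⟨(true, fun i => Cer.ext b (ys i)), fun _ z => ?_, fun h0 => ?_⟩
    · have h1 : ∀ i, cut (Cer.ext b (ys i)) V.p = ys i := fun i => Cer.cut_ext hp (ys i)
      simp only [h1]
      exact h z
    · exact absurd h0 (by simp)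
  · refine ⟨(false, fun i => Cer.ext b (zs i)), fun h0 => ?_, fun _ y => ?_⟩
    · exact absurd h0 (by simp)
    · have h1 : ∀ i, cut (Cer.ext b (zs i)) V.q = zs i := fun i => Cer.cut_ext hq (zs i)
      simp only [h1]
      exact h y

end Pool.Agent.Lib.MP_ff3ed7_lc.Prg2
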