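import Pool.Agent.Lib.MP_ff3ed7_lc.Prg2.Spec

/-!
Alternating oracle circuits are decision trees: proof of `S_CirT`.
-/

set_option autoImplicit false

namespace Pool.Agent.Lib.MP_ff3ed7_lc.Prg2

open Finset
open Pool.Agent.Lib.MP_ff3ed7_lc.Prg (frac qf path gr cut)

namespace CirT

theorem depthLE_mono {ι σ : Type} (T : DTree ι σ) : ∀ d d' : ℕ, d ≤ d' → T.DepthLE d →
    T.DepthLE d' := by
  induction T with
  | leaf b => intro d d' _ _; trivial
  | node i next ih =>
    intro d d' hdd h
    obtain ⟨h0, h1⟩ := h
    refine ⟨by omega, fun s => ?_⟩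
    exact ih s (d - 1) (d' - 1) (by omega) (h1 s)

/-- The new wire values after gate `t` got the value `s`. -/
def upd {N G : ℕ} (t : ℕ) (v : Fin (2 * N + 2 + G) → Bool) (s : Bool) :
    Fin (2 * N + 2 + G) → Bool :=
  fun w => if (w : ℕ) = N + 2 + t then s else v w

/-- The decision tree with `r` remaining gates, the next gate is `t`, the wires have values `v`. -/
def aux {N G : ℕ} (C : Circ N G) : ℕ → ℕ → (Fin (2 * N + 2 + G) → Bool) →
    DTree (List Bool) Bool
  | 0, _, v => .leaf (v C.2)
  | r + 1, t, v =>
      if h : t < N then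
        match C.1 ⟨t, h⟩ with
        | .inl p => aux C r (t + 1) (upd t v (!(v p.1 && v p.2)))
        | .inr q => .node (List.ofFn fun i => v (q.2 i)) fun s => aux C r (t + 1) (upd t v s)
      else .leaf (v C.2)

theorem aux_depth {N G : ℕ} (C : Circ N G) (r : ℕ) : ∀ t v, (aux C r t v).DepthLE r := by
  induction r with
  | zero => intro t v; trivial
  | succ r ih =>
    intro t v
    unfold aux
    split_ifs with h
    · rcases hC : C.1 ⟨t, h⟩ with p | q
      · exact depthLE_mono _ r (r + 1) (by omega) (ih _ _)
      · exact ⟨by omega, fun s => ih _ _⟩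
    · trivial

theorem aux_allQ {N G : ℕ} (C : Circ N G) (r : ℕ) : ∀ t v,
    (aux C r t v).AllQ fun s => s.length ≤ N := by
  induction r with
  | zero => intro t v; trivial
  | succ r ih =>
    intro t v
    unfold aux
    split_ifs with h
    · rcases hC : C.1 ⟨t, h⟩ with p | q
      · exact ih _ _
      · refine ⟨?_, fun s => ih _ _⟩
        have := q.1.2
        simp only [List.length_ofFn]
        omega
    · trivial

theorem wires_succ (A : List Bool → Bool) {N G : ℕ} (C : Circ N G) (ρ : Fin N → Bool)
    (w : Fin G → Bool) (t : ℕ) (h : t < N) : wires A C ρ w (t + 1) =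
      upd t (wires A C ρ w t) (gateVal A (wires A C ρ w t) (C.1 ⟨t, h⟩)) := by
  funext j
  simp only [wires, upd, h, dif_pos]

theorem aux_eval (A : List Bool → Bool) {N G : ℕ} (C : Circ N G) (ρ : Fin N → Bool)
    (w : Fin G → Bool) (r : ℕ) :
    ∀ t v, t + r = N → v = wires A C ρ w t → (aux C r t v).eval A = evalC A C ρ w := by
  induction r with
  | zero =>
    intro t v ht hv
    have ht' : t = N := by omega
    subst ht'
    simp only [aux, DTree.eval, evalC, hv]
  | succ r ih =>
    intro t v ht hv
    have h : t < N := by omega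
    have hw := wires_succ A C ρ w t h
    unfold aux
    rw [dif_pos h]
    rcases hC : C.1 ⟨t, h⟩ with p | q
    · simp only
      apply ih (t + 1) _ (by omega)
      rw [hw, hC, hv]
      rfl
    · simp only [DTree.eval]
      apply ih (t + 1) _ (by omega)
      rw [hw, hC, hv]
      rfl

/-! ### Composition -/

/-- Run the first tree, at its leaves continue with the second one. -/
def bind {ι σ : Type} : DTree ι σ → (Bool → DTree ι σ) → DTree ι σ
  | .leaf b, f => f b
  | .node i next, f => .node i fun s => bind (next s) f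

theorem bind_depth {ι σ : Type} (T : DTree ι σ) (f : Bool → DTree ι σ) (e : ℕ)
    (hf : ∀ b, (f b).DepthLE e) : ∀ d : ℕ, T.DepthLE d → (bind T f).DepthLE (d + e) := by
  induction T with
  | leaf b =>
    intro d _
    exact depthLE_mono _ e (d + e) (by omega) (hf b)
  | node i next ih =>
    intro d h
    obtain ⟨h0, h1⟩ := h
    refine ⟨by omega, fun s => ?_⟩
    have h2 := ih s (d - 1) (h1 s)
    exact depthLE_mono _ _ _ (by omega) h2

theorem bind_allQ {ι σ : Type} (P : ι → Prop) (T : DTree ι σ) (f : Bool → DTree ι σ)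
    (hf : ∀ b, (f b).AllQ P) : T.AllQ P → (bind T f).AllQ P := by
  induction T with
  | leaf b =>
    intro _
    exact hf b
  | node i next ih =>
    intro h
    obtain ⟨h0, h1⟩ := h
    exact ⟨h0, fun s => ih s (h1 s)⟩

theorem bind_eval {ι σ : Type} (A : ι → σ) (T : DTree ι σ) (f : Bool → DTree ι σ) :
    (bind T f).eval A = (f (T.eval A)).eval A := by
  induction T with
  | leaf b => rfl
  | node i next ih => exact ih (A i)

/-! ### Quantifiers -/

/-- The tree for the quantified guess bits. -/
def qtree {ι σ : Type} : (G : ℕ) → (Fin G → Bool) → ((Fin G → Bool) → DTree ι σ) → DTree ι σ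
  | 0, _, p => p Fin.elim0
  | G + 1, Q, p =>
      bind (qtree G (fun j => Q j.succ) (fun w => p (Fin.cons false w))) fun b =>
        if b = Q 0 then .leaf b
        else qtree G (fun j => Q j.succ) (fun w => p (Fin.cons true w))

theorem qtree_depth {ι σ : Type} (d : ℕ) (G : ℕ) : ∀ (Q : Fin G → Bool)
    (p : (Fin G → Bool) → DTree ι σ), (∀ w, (p w).DepthLE d) →
    (qtree G Q p).DepthLE (d * 2 ^ G) := by
  induction G with
  | zero =>
    intro Q p hp
    rw [pow_zero, mul_one]
    exact hp _
  | succ G ih =>
    intro Q p hp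
    have e : d * 2 ^ (G + 1) = d * 2 ^ G + d * 2 ^ G := by ring
    rw [e]
    refine bind_depth _ _ _ (fun b => ?_) _ (ih _ _ fun w => hp _)
    split_ifs
    · trivial
    · exact ih _ _ fun w => hp _

theorem qtree_allQ {ι σ : Type} (P : ι → Prop) (G : ℕ) : ∀ (Q : Fin G → Bool)
    (p : (Fin G → Bool) → DTree ι σ), (∀ w, (p w).AllQ P) → (qtree G Q p).AllQ P := by
  induction G with
  | zero =>
    intro Q p hp
    exact hp _
  | succ G ih =>
    intro Q p hp
    refine bind_allQ _ _ _ (fun b => ?_) (ih _ _ fun w => hp _)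
    split_ifs
    · trivial
    · exact ih _ _ fun w => hp _

theorem qtree_eval {ι σ : Type} (A : ι → σ) (G : ℕ) : ∀ (Q : Fin G → Bool)
    (p : (Fin G → Bool) → DTree ι σ),
    (qtree G Q p).eval A = qval G Q fun w => (p w).eval A := by
  induction G with
  | zero =>
    intro Q p
    rfl
  | succ G ih =>
    intro Q p
    show (bind (qtree G (fun j => Q j.succ) (fun w => p (Fin.cons false w))) fun b =>
        if b = Q 0 then .leaf b
        else qtree G (fun j => Q j.succ) (fun w => p (Fin.cons true w))).eval A = _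
    rw [bind_eval, ih]
    show _ = (if Q 0 then
        (qval G (fun j => Q j.succ) (fun w => (p (Fin.cons false w)).eval A) ||
          qval G (fun j => Q j.succ) (fun w => (p (Fin.cons true w)).eval A))
      else
        (qval G (fun j => Q j.succ) (fun w => (p (Fin.cons false w)).eval A) &&
          qval G (fun j => Q j.succ) (fun w => (p (Fin.cons true w)).eval A)))
    rw [← ih (fun j => Q j.succ) (fun w => p (Fin.cons true w))]
    rcases h0 : Q 0 with _ | _ <;>
      rcases h1 : qval G (fun j => Q j.succ) (fun w => (p (Fin.cons false w)).eval A) with _ | _ <;>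
      simp [DTree.eval]

end CirT

theorem tCirT : S_CirT := by
  refine ⟨⟨fun N G C Q ρ => CirT.qtree G Q fun w =>
    CirT.aux C N 0 (wires (fun _ => false) C ρ w 0), ?_, ?_, ?_⟩⟩
  · intro N G C Q ρ
    exact CirT.qtree_depth N G Q _ fun w => CirT.aux_depth C N 0 _
  · intro N G C Q ρ
    exact CirT.qtree_allQ _ G Q _ fun w => CirT.aux_allQ C N 0 _
  · intro N G C Q ρ A
    rw [CirT.qtree_eval, evalQ]
    congr 1
    funext w
    exact CirT.aux_eval A C ρ w N 0 _ (by omega) rfl

end Pool.Agent.Lib.MP_ff3ed7_lc.Prg2
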