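import Pool.Agent.Lib.MP_ff3ed7_lc.Prg2.Spec

/-!
MP_ff3ed7_lc, project T**, module ClU (helper4): unfolding of `Cl`.
-/

namespace Pool.Agent.Lib.MP_ff3ed7_lc.Prg2

open Finset
open Pool.Agent.Lib.MP_ff3ed7_lc.Prg (frac qf path gr cut)

theorem tClU (_hRun : S_Run) : S_ClU := by
  intro Y P ω z w ε K r₀ j
  induction j generalizing r₀ with
  | zero =>
    intro A _ r h1 h2
    omega
  | succ j ih =>
    intro A h r h1 h2
    obtain ⟨hc, hs, hC⟩ := h
    rcases Nat.eq_or_lt_of_le h1 with he | hlt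
    · subst he
      refine ⟨hc, ?_⟩
      rw [Nat.sub_self]
      exact hs
    · have := ih (r₀ + 1) (step Y P r₀ A (ω r₀) (z r₀) (K r₀)) hC r hlt (by omega)
      refine ⟨this.1, ?_⟩
      have e : r - r₀ = (r - (r₀ + 1)) + 1 := by omega
      rw [e]
      exact this.2

end Pool.Agent.Lib.MP_ff3ed7_lc.Prg2
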