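import Pool.Agent.Lib.MP_ff3ed7_lc.Prg2.Spec

/-!
MP_ff3ed7_lc, Prg2, module CtI: the number of patterns and certificates
-/

namespace Pool.Agent.Lib.MP_ff3ed7_lc.Prg2

open Finset
open Pool.Agent.Lib.MP_ff3ed7_lc.Prg (frac qf path gr cut)

private theorem card_ct (b : ℕ) : Fintype.card (Ct b) = 2 ^ (1 + 1152 * (b + 1) * b) := by
  have h1 : Fintype.card (Ct b) = 2 * (2 ^ b) ^ (1152 * (b + 1)) := by
    simp only [Fintype.card_prod, Fintype.card_fun, Fintype.card_bool, Fintype.card_fin]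
  rw [h1, ← pow_mul, pow_add, pow_one, mul_comm b]

theorem tCtI : S_CtI := by
  intro X
  have h1 : Fintype.card (((Fin X.n → Bool) → Bool) × X.Cer) =
      2 ^ (2 ^ X.n) * ((Fintype.card (Ct (X.W.t X.n))) ^ (2 ^ X.n)) ^ X.Adv.card := by
    simp only [Fintype.card_prod, Fintype.card_fun, Fintype.card_bool, Fintype.card_fin,
      Fintype.card_coe]
  have h2 : Fintype.card (((Fin X.n → Bool) → Bool) × X.Cer) =
      2 ^ (2 ^ X.n + X.Adv.card * (2 ^ X.n * (1 + 1152 * (X.W.t X.n + 1) * X.W.t X.n))) := by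
    rw [h1, card_ct, ← pow_mul, ← pow_mul, ← pow_add]
    congr 1
    ring
  rw [h2]
  push_cast
  exact le_rfl

end Pool.Agent.Lib.MP_ff3ed7_lc.Prg2
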