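import Pool.Agent.Lib.MP_ff3ed7_lc.Prg2.Spec

/-!
The number of the families of exception sets (`S_CtK`).
-/

namespace Pool.Agent.Lib.MP_ff3ed7_lc.Prg2

open Finset
open Pool.Agent.Lib.MP_ff3ed7_lc.Prg (frac qf path gr cut)

namespace CtK

private theorem sum_eq (c M : ℕ) : ∀ n, M ≤ n →
    ∑ j ∈ range n, (if j < M then 0 else 6 * c * 4 ^ j) + 2 * c * 4 ^ M = 2 * c * 4 ^ n := by
  intro n hn
  induction n, hn using Nat.le_induction with
  | base =>
    rw [sum_eq_zero, zero_add]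
    intro j hj
    rw [if_pos (mem_range.1 hj)]
  | succ n hn ih =>
    rw [sum_range_succ, if_neg (not_lt.2 hn), add_right_comm, ih, pow_succ]
    ring

end CtK

theorem tCtK (hRow : S_Row) (hSma : Prg.S_Sma) : S_CtK := by
  classical
  intro M r hM hMr
  rw [Nat.card_pi]
  have h1 : ∀ j : Fin r,
      Nat.card {K : Finset (Row j) // K.card ≤ if (j : ℕ) < M then 0 else 4 ^ (j : ℕ)} ≤
        2 ^ (if (j : ℕ) < M then 0 else 6 * r * 4 ^ (j : ℕ)) := by
    intro j
    have h2 : Nat.card {K : Finset (Row j) // K.card ≤ if (j : ℕ) < M then 0 else 4 ^ (j : ℕ)} ≤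
        (Fintype.card (Row j) + 1) ^ (if (j : ℕ) < M then 0 else 4 ^ (j : ℕ)) := by
      rw [Nat.card_eq_fintype_card, Fintype.card_subtype]
      exact hSma (Row j) _
    refine h2.trans ?_
    split_ifs with h
    · rfl
    · have h3 : Fintype.card (Row j) + 1 ≤ 2 ^ (6 * (j : ℕ)) := hRow j (by omega)
      calc (Fintype.card (Row j) + 1) ^ 4 ^ (j : ℕ) ≤ (2 ^ (6 * (j : ℕ))) ^ 4 ^ (j : ℕ) :=
            Nat.pow_le_pow_left h3 _
        _ = 2 ^ (6 * (j : ℕ) * 4 ^ (j : ℕ)) := (pow_mul 2 (6 * (j : ℕ)) (4 ^ (j : ℕ))).symm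
        _ ≤ 2 ^ (6 * r * 4 ^ (j : ℕ)) := by
            refine Nat.pow_le_pow_right (by norm_num) (Nat.mul_le_mul_right _ ?_)
            have := j.2
            omega
  refine (prod_le_prod' fun j _ => h1 j).trans ?_
  rw [prod_pow_eq_pow_sum]
  refine Nat.pow_le_pow_right (by norm_num) ?_
  rw [Fin.sum_univ_eq_sum_range (fun j => if j < M then 0 else 6 * r * 4 ^ j) r]
  have h4 := CtK.sum_eq r M r hMr
  rw [Nat.mul_sub]
  omega

end Pool.Agent.Lib.MP_ff3ed7_lc.Prg2
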