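import Pool.Agent.Lib.MP_ff3ed7_lc.Prg2.Spec

/-!
Module Dep: `run` and `Cl` for the levels `r, …, r + j - 1` use only the samples, the replies and the
exceptional rows at these levels.
-/

namespace Pool.Agent.Lib.MP_ff3ed7_lc.Prg2

open Finset
open Pool.Agent.Lib.MP_ff3ed7_lc.Prg (frac qf path gr cut)

theorem tDep : S_Dep := by
  intro Y P ω ω' z z' K K' w ε r j
  induction j generalizing r with
  | zero =>
    intro A _
    exact ⟨rfl, Iff.rfl⟩
  | succ j ih =>
    intro A h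
    obtain ⟨hω, hz, hK⟩ := h r le_rfl (by omega)
    obtain ⟨h1, h2⟩ := ih (r + 1) (step Y P r A (ω r) (z r) (K r))
      fun i hi hi' => h i (by omega) (by omega)
    have hrun : run Y P ω z K r (j + 1) A = run Y P ω' z' K' r (j + 1) A := by
      show run Y P ω z K (r + 1) j (step Y P r A (ω r) (z r) (K r)) =
        run Y P ω' z' K' (r + 1) j (step Y P r A (ω' r) (z' r) (K' r))
      rw [h1, hω, hz, hK]
    refine ⟨hrun, ?_⟩
    show ((K r).card ≤ 4 ^ r ∧
        ∑ c ∈ univ \ K r, w (run Y P ω z K r (j + 1) A) (wstr Y P A (z r) c) ≤ ε ∧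
        Cl Y P ω z w ε K (r + 1) j (step Y P r A (ω r) (z r) (K r))) ↔
      ((K' r).card ≤ 4 ^ r ∧
        ∑ c ∈ univ \ K' r, w (run Y P ω' z' K' r (j + 1) A) (wstr Y P A (z' r) c) ≤ ε ∧
        Cl Y P ω' z' w ε K' (r + 1) j (step Y P r A (ω' r) (z' r) (K' r)))
    rw [h2, hrun, hω, hz, hK]

end Pool.Agent.Lib.MP_ff3ed7_lc.Prg2
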