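import Pool.Agent.Lib.MP_ff3ed7_lc.Prg2.Spec

/-!
The difference between `run` and `full`.
-/

namespace Pool.Agent.Lib.MP_ff3ed7_lc.Prg2

open Finset
open Pool.Agent.Lib.MP_ff3ed7_lc.Prg (frac qf path gr cut)

theorem tDif (hPut : S_Put) (hRun : S_Run) : S_Dif := by
  intro Y P ω z K M M' A u hM hMM' hne
  obtain ⟨r1, _, r3⟩ := hRun Y P ω z K
  obtain ⟨_, _, _, _, _, _, p7⟩ := hPut
  obtain ⟨r, hr⟩ : ∃ r, lev u = r := ⟨_, rfl⟩
  by_cases h : M ≤ r ∧ r < M'
  · obtain ⟨ha, hb⟩ := h
    refine ⟨r, ha, hb, ?_⟩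
    have e1 := r3 M (M' - M) A u (by omega) (by omega)
    rw [hr] at e1
    have e2 : full A M M' ω z u = put r A (ω r) (fun s c y => decide (z r s c = y)) u := by
      unfold full
      rw [hr, if_pos ⟨ha, hb⟩]
    rw [e1, e2] at hne
    unfold step at hne
    obtain ⟨s, c, y, hu, hB⟩ := p7 r _ _ _ _ _ u (by omega) hr hne
    have h1 : z r s c = y := by
      by_contra h1
      apply hB
      simp [h1]
    have h2 : ¬ s = truth Y P (run Y P ω z K M (r - M) A) c.1.1 := by
      intro h2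
      apply hB
      simp [← h2]
    have h3 : c ∉ K r := by
      intro h3
      apply hB
      simp [h3]
    refine ⟨c, h3, ?_⟩
    have h4 : s = !truth Y P (run Y P ω z K M (r - M) A) c.1.1 :=
      (Bool.eq_or_eq_not _ _).resolve_left h2
    unfold wstr
    rw [← h4, h1]
    exact hu
  · exfalso
    apply hne
    rw [r1 M (M' - M) A u (by omega)]
    unfold full
    rw [hr, if_neg h]

end Pool.Agent.Lib.MP_ff3ed7_lc.Prg2
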