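import Pool.Agent.Lib.MP_ff3ed7_lc.Prg2.Spec

/-!
MP_ff3ed7_lc, project T**, module FCh (helper4): choice of the pattern.
-/

namespace Pool.Agent.Lib.MP_ff3ed7_lc.Prg2

open Finset
open Pool.Agent.Lib.MP_ff3ed7_lc.Prg (frac qf path gr cut)

namespace FCh

/-- a numbering of the words -/
noncomputable def e (n : ℕ) : Fin (2 ^ n) ≃ (Fin n → Bool) :=
  (Fintype.equivFinOfCardEq (by simp)).symm

/-- the pattern which agrees with `o` where `ω` is true -/
noncomputable def phi (n : ℕ) (o : (Fin n → Bool) → Bool) :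
    (Fin (2 ^ n) → Bool) ≃ ((Fin n → Bool) → Bool) where
  toFun ω := fun x => (ω ((e n).symm x) == o x)
  invFun f := fun i => (f (e n i) == o (e n i))
  left_inv ω := by
    funext i
    simp only [Equiv.symm_apply_apply]
    cases ω i <;> cases o (e n i) <;> rfl
  right_inv f := by
    funext x
    simp only [Equiv.apply_symm_apply]
    cases f x <;> cases o x <;> rfl

theorem card_phi (n : ℕ) (o : (Fin n → Bool) → Bool) (ω : Fin (2 ^ n) → Bool) :
    Nat.card {x // phi n o ω x = o x} = Nat.card {i // ω i = true} := by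
  refine Nat.card_congr ((Equiv.subtypeEquiv (e n) ?_).symm)
  intro i
  simp only [phi, Equiv.coe_fn_mk, Equiv.symm_apply_apply]
  cases ω i <;> cases o (e n i) <;> simp

theorem frac_bool : frac (fun b : Bool => b = true) = 1 / 2 := by
  rw [Prg.frac_eq_sum]
  simp

theorem frac_fin (n : ℕ) (ω : Fin (2 ^ n) → Bool) :
    frac (fun i : Fin (2 ^ n) => ω i = true) = (Nat.card {i // ω i = true} : ℝ) / 2 ^ n := by
  unfold frac
  simp

theorem one (hHoe : Prg.S_Hoe) (n : ℕ) (o : (Fin n → Bool) → Bool) (l : ℝ) (h0 : 0 ≤ l)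
    (h1 : l ≤ 1) :
    frac (fun f : (Fin n → Bool) → Bool => (1 / 2 + l) * 2 ^ n < (Nat.card {x // f x = o x} : ℝ)) ≤
      2 * Real.exp (-(l ^ 2 * 2 ^ n / 4)) := by
  have h2 := hHoe Bool (fun b => b = true) (2 ^ n) l (by positivity) h0 h1
  rw [← Prg.frac_equiv (phi n o)]
  have hp : (0 : ℝ) < 2 ^ n := by positivity
  refine le_trans (Prg.frac_mono ?_) (by
    have : ((2 ^ n : ℕ) : ℝ) = 2 ^ n := by push_cast; rfl
    rw [this] at h2
    exact h2)
  intro ω hω
  rw [card_phi] at hω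
  rw [frac_bool, frac_fin]
  refine lt_of_lt_of_le ?_ (le_abs_self _)
  rw [lt_sub_iff_add_lt, lt_div_iff₀ hp]
  calc (l + 1 / 2) * 2 ^ n = (1 / 2 + l) * 2 ^ n := by ring
    _ < _ := hω

end FCh

theorem tFCh (hHoe : Prg.S_Hoe) : S_FCh := by
  intro n Adv o h
  have hl0 : (0 : ℝ) ≤ (2 : ℝ) ^ (-(n : ℝ) / 4) := by positivity
  have hl1 : (2 : ℝ) ^ (-(n : ℝ) / 4) ≤ 1 := by
    apply Real.rpow_le_one_of_one_le_of_nonpos (by norm_num)
    have : (0 : ℝ) ≤ n := Nat.cast_nonneg n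
    linarith
  have h3 : frac (fun f : (Fin n → Bool) → Bool => ∃ a : ↥Adv,
      (1 / 2 + (2 : ℝ) ^ (-(n : ℝ) / 4)) * 2 ^ n < (Nat.card {x // f x = o a x} : ℝ)) < 1 := by
    refine lt_of_le_of_lt (Prg.frac_exists_le _) (lt_of_le_of_lt ?_ h)
    refine le_trans (sum_le_sum fun a _ => FCh.one hHoe n (o a) _ hl0 hl1) ?_
    rw [sum_const, nsmul_eq_mul, card_univ, Fintype.card_coe]
  obtain ⟨f, hf⟩ := Prg.exists_not_of_frac_lt_one h3
  refine ⟨f, fun a => ?_⟩
  by_contra hc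
  exact hf ⟨a, not_le.mp hc⟩

end Pool.Agent.Lib.MP_ff3ed7_lc.Prg2
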