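import Pool.Agent.Lib.MP_ff3ed7_lc.Prg2.Spec

/-!
# Project T**: filling the levels (helper98)
-/

set_option autoImplicit false

namespace Pool.Agent.Lib.MP_ff3ed7_lc.Prg2

open Finset
open Pool.Agent.Lib.MP_ff3ed7_lc.Prg (frac qf path gr cut)

theorem tFil (hFlA : S_FlA) : S_Fil := by
  intro ct Y A M M' hM hMM hV
  induction M', hMM using Nat.le_induction with
  | base => exact ⟨A, fun u hu => rfl, hV⟩
  | succ N hN ih =>
    obtain ⟨A1, h1, h2⟩ := ih
    obtain ⟨A2, h3, h4⟩ := hFlA ct Y A1 N (hM.trans hN) h2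
    refine ⟨A2, fun u hu => ?_, h4⟩
    exact (h1 u hu).trans (h3 u (lt_of_lt_of_le hu hN))

end Pool.Agent.Lib.MP_ff3ed7_lc.Prg2
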