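import Pool.Agent.Lib.MP_ff3ed7_lc.Prg2.Spec

/-!
Filling one level (`S_FlA`).
-/

namespace Pool.Agent.Lib.MP_ff3ed7_lc.Prg2

open Finset
open Pool.Agent.Lib.MP_ff3ed7_lc.Prg (frac qf path gr cut)

theorem tFlA (hLoc : S_Loc) (hVld : S_Vld) (hBdL : S_BdL) (hBdF : S_BdF) (hGen : S_Gen)
    (hLoP : S_LoP) (_hRun : S_Run) : S_FlA := by
  intro ct Y A M hM hV
  let P : ℕ → List Bool → Bool := fun _ _ => false
  let z : Rep := fun _ _ _ _ => false
  let K : Exc := fun _ => ∅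
  obtain ⟨ω, hω⟩ : ∃ ω : (N : Fin (M + 1)) → Fin (16 * (N : ℕ) ^ 6) → Fin N → Bool, 6 ≤ M →
      ¬ ∃ N, M ≤ N ∧ N < M + 1 ∧ Bad Y.g (full A M (M + 1) (exS ω) z) N (1 / (2 * N)) := by
    by_cases h6 : 6 ≤ M
    · have h1 := hLoc ct Y.g M (M + 1) A z Y.hg h6
      obtain ⟨ω, hω⟩ := Prg.exists_not_of_frac_lt_one (lt_of_le_of_lt h1 (by norm_num))
      exact ⟨ω, fun _ => hω⟩
    · exact ⟨fun _ _ _ => false, fun h => absurd h h6⟩
  obtain ⟨hAgr, hT⟩ := hVld ct Y P (exS ω) z K M (M + 1) A hM (Nat.le_succ M)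
    (fun r _ _ => by simp [K])
  obtain ⟨A', hA'⟩ : ∃ A', A' = run Y P (exS ω) z K M (M + 1 - M) A := ⟨_, rfl⟩
  rw [← hA'] at hAgr hT
  obtain ⟨hF, hI⟩ := (hLoP ct Y M A A' hM hAgr).2.2.2.2 hV
  refine ⟨A', hAgr, ?_, ?_⟩
  · intro N h6 hN
    rcases Nat.lt_succ_iff_lt_or_eq.1 hN with h | h
    · exact hF N h6 h
    · subst h
      refine (hBdF Y.g A' N hM).2 fun hbad => ?_
      refine hω h6 ⟨N, le_rfl, Nat.lt_succ_self N, ?_⟩
      refine hBdL ct Y.g A' (full A N (N + 1) (exS ω) z) N _ hM ?_ ?_ hbad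
      · intro u hu
        rw [← hAgr u hu]
        unfold full
        rw [if_neg (by omega)]
      · intro i
        have h2 := hGen Y P (exS ω) z K N (N + 1) N A le_rfl (Nat.lt_succ_self N) i
        rw [← hA'] at h2
        rw [h2.1, h2.2]
  · intro k x hkx
    rcases Nat.lt_succ_iff_lt_or_eq.1 hkx with h | h
    · exact hI k x h
    · refine ⟨?_, ⟨_, hT false k x (le_of_eq h.symm) hkx⟩⟩
      have h3 := hT true k x (le_of_eq h.symm) hkx
      have h4 : truth Y P A' (true, k, x) = Y.F k x A' := by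
        unfold truth
        rw [if_pos rfl]
      rw [h4] at h3
      exact h3

end Pool.Agent.Lib.MP_ff3ed7_lc.Prg2
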