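import Pool.Agent.Lib.MP_ff3ed7_lc.Prg2.Spec

/-!
The samples of the new levels, for the oracle of a run and for the full oracle.
-/

namespace Pool.Agent.Lib.MP_ff3ed7_lc.Prg2

open Finset
open Pool.Agent.Lib.MP_ff3ed7_lc.Prg (frac qf path gr cut)

theorem tGen (hPut : S_Put) (hRun : S_Run) : S_Gen := by
  intro Y P ω z K M M' N A h1 h2 i
  obtain ⟨hl, -, -, -, hp, -, -⟩ := hPut
  obtain ⟨-, -, hr⟩ := hRun Y P ω z K
  refine ⟨funext fun b => ?_, funext fun b => ?_⟩
  · have h3 := hr M (M' - M) A (samp N i b) (by rw [hl]; exact h1) (by rw [hl]; omega)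
    rw [hl] at h3
    exact h3.trans (hp N _ _ _ i b)
  · have h3 : full A M M' ω z (samp N i b) =
        if M ≤ lev (samp N i b) ∧ lev (samp N i b) < M' then
          put (lev (samp N i b)) A (ω (lev (samp N i b)))
            (fun s c y => decide (z (lev (samp N i b)) s c = y)) (samp N i b)
        else A (samp N i b) := rfl
    rw [hl, if_pos ⟨h1, h2⟩] at h3
    exact h3.trans (hp N _ _ _ i b)

end Pool.Agent.Lib.MP_ff3ed7_lc.Prg2
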