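import Pool.Agent.Lib.MP_ff3ed7_lc.Prg2.Spec

/-!
An instance has one answer.
-/

namespace Pool.Agent.Lib.MP_ff3ed7_lc.Prg2

open Finset
open Pool.Agent.Lib.MP_ff3ed7_lc.Prg (frac qf path gr cut)

theorem tInU : S_InU := by
  intro A e k x b b' h1 h2
  by_contra hne
  have hb : (!b') = b := by
    revert hne
    cases b <;> cases b' <;> simp
  have h3 := h2.2
  rw [hb] at h3
  have h4 : Nat.card {v // ∃ y, Acc A e b k x v y} = 2 ^ (4 * rk k x.length) := by
    have e1 : Nat.card {v // ∃ y, Acc A e b k x v y} =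
        Nat.card (Fin (4 * rk k x.length) → Bool) := by
      refine Nat.card_congr (Equiv.subtypeUnivEquiv fun v => ?_)
      obtain ⟨y, hy, _⟩ := h1.1 v
      exact ⟨y, hy⟩
    rw [e1, Nat.card_eq_fintype_card, Fintype.card_fun, Fintype.card_bool, Fintype.card_fin]
  rw [h4] at h3
  have h5 : 1 ≤ rk k x.length := by
    unfold rk
    rcases Nat.eq_zero_or_pos k with hk | hk
    · rw [hk, pow_zero]
      omega
    · omega
  have h6 : (4 : ℕ) ^ rk k x.length = 2 ^ (2 * rk k x.length) := by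
    rw [pow_mul]
    norm_num
  rw [h6] at h3
  have h7 := (Nat.pow_le_pow_iff_right (by norm_num : 1 < 2)).1 h3
  omega

end Pool.Agent.Lib.MP_ff3ed7_lc.Prg2
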