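import Pool.Agent.Lib.MP_ff3ed7_lc.Prg2.Spec

/-!
Downward induction over the levels (`S_Ind`).
-/

namespace Pool.Agent.Lib.MP_ff3ed7_lc.Prg2

open Finset
open Pool.Agent.Lib.MP_ff3ed7_lc.Prg (frac qf path gr cut)

theorem tInd (hRun : S_Run) (hDep : S_Dep) : S_Ind := by
  intro Y P ω z w ε M M' A hMM hLv
  have main : ∀ j r, M ≤ r → r + j = M' → ∀ K : Exc,
      (∀ i, M ≤ i → i < r → (K i).card ≤ 4 ^ i) →
      ∃ K', Cl Y P ω z w ε K' r j (run Y P ω z K M (r - M) A) := by
    intro j
    induction j with
    | zero =>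
      intro r hr hj K hK
      exact ⟨K, trivial⟩
    | succ j ih =>
      intro r hr hj K hK
      have hj' : M' - (r + 1) = j := by omega
      obtain ⟨Kr, h1, h2⟩ := hLv r hr (by omega) K hK
      rw [hj'] at h2
      set B := run Y P ω z K M (r - M) A with hB
      set A₁ := step Y P r B (ω r) (z r) Kr with hA₁
      -- the claim for the next level
      let K₁ : Exc := Function.update K r Kr
      have hK₁ : run Y P ω z K₁ M (r + 1 - M) A = A₁ := by
        have h3 : r + 1 - M = (r - M) + 1 := by omega
        rw [h3, (hRun Y P ω z K₁).2.1 M (r - M) 1 A]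
        have h4 : run Y P ω z K₁ M (r - M) A = B :=
          (hDep Y P ω ω z z K₁ K w ε M (r - M) A fun i hi hi' =>
            ⟨rfl, rfl, by
              have : i ≠ r := by omega
              simp [K₁, this]⟩).1
        rw [h4]
        have h5 : M + (r - M) = r := by omega
        rw [h5]
        simp only [run, K₁, Function.update_self]
        rfl
      have hcl : ∃ K', Cl Y P ω z w ε K' (r + 1) j A₁ := by
        have h6 := ih (r + 1) (by omega) (by omega) K₁ (fun i hi hi' => by
          by_cases h : i = r
          · subst h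
            simpa [K₁] using h1
          · have := hK i hi (by omega)
            simpa [K₁, h] using this)
        rw [hK₁] at h6
        exact h6
      let K₂ : Exc := pick fun K => Cl Y P ω z w ε K (r + 1) j A₁
      have hK₂ : Cl Y P ω z w ε K₂ (r + 1) j A₁ := by
        have h7 : K₂ = hcl.choose := by
          simp only [K₂, pick]
          rw [dif_pos hcl]
        rw [h7]
        exact hcl.choose_spec
      let K₃ : Exc := Function.update K₂ r Kr
      have h8 : ∀ i, r + 1 ≤ i → K₃ i = K₂ i := by
        intro i hi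
        have : i ≠ r := by omega
        simp [K₃, this]
      have h9 : K₃ r = Kr := by simp [K₃]
      have h10 := hDep Y P ω ω z z K₃ K₂ w ε (r + 1) j A₁ fun i hi _ => ⟨rfl, rfl, h8 i hi⟩
      refine ⟨K₃, ?_⟩
      simp only [Cl, run]
      rw [h9]
      refine ⟨h1, ?_, h10.2.2 hK₂⟩
      rw [← hA₁, h10.1]
      exact h2
  obtain ⟨K', hK'⟩ := main (M' - M) M le_rfl (by omega) (fun _ => ∅) (fun i hi hi' => by omega)
  refine ⟨K', ?_⟩
  rw [Nat.sub_self] at hK'
  exact hK'

end Pool.Agent.Lib.MP_ff3ed7_lc.Prg2
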