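import Pool.Agent.Lib.MP_ff3ed7_lc.Prg2.Spec

/-!
The limit of the stages (`S_Lim`).
-/

set_option autoImplicit false

namespace Pool.Agent.Lib.MP_ff3ed7_lc.Prg2

open Finset
open Pool.Agent.Lib.MP_ff3ed7_lc.Prg (frac qf path gr cut)

namespace Lim

theorem rk_pos (k n : ℕ) : 1 ≤ rk k n := by
  unfold rk
  rcases Nat.eq_zero_or_pos k with h | h
  · subst h
    simp
  · omega

/-- The data of a stage. -/
structure St (Y : World) where
  /-- the oracle -/
  A : Orc
  /-- the bound -/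
  M : ℕ
  hM : 1 ≤ M
  hV : Valid Y A M

/-- The condition on the machine. -/
def Cond (Y : World) (W : Machine) : Prop := ∀ c n₀, ∃ n ≥ n₀, W.t n ^ 16 ≤ 2 ^ n ∧
  ∀ N ≤ W.t n + n ^ c, 16 * Y.g N ≤ n

theorem exists_step (hSta : S_Sta) (Y : World) (X : St Y) (W : Machine) (hW : Cond Y W)
    (k B : ℕ) : ∃ X' : St Y, X.M < X'.M ∧ Agr X.M X.A X'.A ∧
      ∀ A'', Agr X'.M X'.A A'' → Refuted W k B A'' := by
  obtain ⟨M', A', h1, h2, h3, h4⟩ := hSta Y W hW X.A X.M X.hM X.hV k B
  exact ⟨⟨A', M', X.hM.trans h1.le, h3⟩, h1, h2, h4⟩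

/-- The stages. -/
noncomputable def stage (hSta : S_Sta) (Y : World) (W : ℕ → Machine)
    (hW : ∀ i, Cond Y (W i)) : ℕ → St Y
  | 0 => ⟨fun _ => false, 1, le_refl 1, fun _ h6 h => absurd h (by omega),
      fun k x h => absurd h (by have := rk_pos k x.length; omega)⟩
  | n + 1 => (exists_step hSta Y (stage hSta Y W hW n) (W (Nat.unpair n).1)
      (hW (Nat.unpair n).1) (Nat.unpair (Nat.unpair n).2).1
      (Nat.unpair (Nat.unpair n).2).2).choose

variable {Y : World} (X : ℕ → St Y)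

theorem lt_M (h : ∀ n, (X n).M < (X (n + 1)).M) (n : ℕ) : n < (X n).M := by
  induction n with
  | zero => exact (X 0).hM
  | succ n ih => have := h n; omega

theorem M_mono (h : ∀ n, (X n).M < (X (n + 1)).M) {n m : ℕ} (hnm : n ≤ m) :
    (X n).M ≤ (X m).M := monotone_nat_of_le_succ (f := fun n => (X n).M) (fun n => (h n).le) hnm

theorem agr_le (h : ∀ n, (X n).M < (X (n + 1)).M)
    (ha : ∀ n, Agr (X n).M (X n).A (X (n + 1)).A) (n m : ℕ) (hnm : n ≤ m) :
    Agr (X n).M (X n).A (X m).A := by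
  induction m, hnm using Nat.le_induction with
  | base => exact fun _ _ => rfl
  | succ m hm ih =>
    intro u hu
    rw [ih u hu]
    exact ha m u (lt_of_lt_of_le hu (M_mono X h hm))

theorem agr_lim (h : ∀ n, (X n).M < (X (n + 1)).M)
    (ha : ∀ n, Agr (X n).M (X n).A (X (n + 1)).A) (n : ℕ) :
    Agr (X n).M (X n).A (fun u => (X (lev u)).A u) := by
  intro u hu
  have h1 := agr_le X h ha n (max n (lev u)) (le_max_left _ _) u hu
  have h2 := agr_le X h ha (lev u) (max n (lev u)) (le_max_right _ _) u (lt_M X h _)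
  rw [h1, ← h2]

end Lim

open Lim in
theorem tLim (hSta : S_Sta) (hLoP : S_LoP) (ct : CT) : S_Lim := by
  intro Y W hW'
  have hW : ∀ i, Cond Y (W i) := hW'
  have hstep : ∀ n, _ := fun n => (exists_step hSta Y (stage hSta Y W hW n)
    (W (Nat.unpair n).1) (hW (Nat.unpair n).1) (Nat.unpair (Nat.unpair n).2).1
      (Nat.unpair (Nat.unpair n).2).2).choose_spec
  have hM : ∀ n, (stage hSta Y W hW n).M < (stage hSta Y W hW (n + 1)).M := fun n =>
    (hstep n).1
  have hA := agr_lim (stage hSta Y W hW) hM fun n => (hstep n).2.1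
  have hV : ∀ n, Valid Y (fun u => (stage hSta Y W hW (lev u)).A u) (stage hSta Y W hW n).M :=
    fun n => (hLoP ct Y _ _ _ (stage hSta Y W hW n).hM (hA n)).2.2.2.2
      (stage hSta Y W hW n).hV
  refine ⟨fun u => (stage hSta Y W hW (lev u)).A u, ?_, ?_, ?_, ?_⟩
  · intro N hN
    exact (hV N).1 N hN (lt_M _ hM N)
  · intro k x
    exact ((hV (rk k x.length)).2 k x (lt_M _ hM _)).1
  · intro k x
    exact ((hV (rk k x.length)).2 k x (lt_M _ hM _)).2
  · intro i k B
    have h := (hstep (Nat.pair i (Nat.pair k B))).2.2 _ (hA (Nat.pair i (Nat.pair k B) + 1))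
    rw [Nat.unpair_pair] at h
    simp only [Nat.unpair_pair] at h
    exact h

end Pool.Agent.Lib.MP_ff3ed7_lc.Prg2
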