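import Pool.Agent.Lib.MP_ff3ed7_lc.Prg2.Spec

/-!
MP_ff3ed7_lc, world `T**`: locality (`S_LoP`).
-/

namespace Pool.Agent.Lib.MP_ff3ed7_lc.Prg2

open Finset
open Pool.Agent.Lib.MP_ff3ed7_lc.Prg (frac qf path gr cut)

namespace LoP

/-- Trees whose queries have length at most `b` do not distinguish oracles which agree there. -/
theorem eval_eq {A A' : Orc} {b : ℕ} (h : ∀ u : List Bool, u.length ≤ b → A u = A' u)
    (T : DTree (List Bool) Bool) (hT : T.AllQ fun s => s.length ≤ b) : T.eval A' = T.eval A :=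
  Prg.eval_congr A A' T fun i hi => h i (Prg.path_allQ A T _ hT i hi)

theorem lev_samp (hStr : S_Str) (N i b : ℕ) : lev (samp N i b) = N := by
  unfold lev
  rw [hStr.1 N i b]

theorem lev_cell (hStr : S_Str) (e s : Bool) (k : ℕ) (x : List Bool)
    (v y : Fin (4 * rk k x.length) → Bool) :
    lev (cell e s k x (List.ofFn v) (List.ofFn y)) = rk k x.length := by
  have h1 : Cel.Ok ⟨e, s, k, x, List.ofFn v, List.ofFn y⟩ :=
    ⟨List.length_ofFn .., List.length_ofFn ..⟩
  have h2 := hStr.2.1 _ h1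
  have h3 : cell e s k x (List.ofFn v) (List.ofFn y) =
      Cel.str ⟨e, s, k, x, List.ofFn v, List.ofFn y⟩ := rfl
  unfold lev
  rw [h3, h2]

theorem decides (V : S2) {A A' : Orc} {t : ℕ} (o : Bool)
    (h : ∀ u : List Bool, u.length ≤ t → A u = A' u) (hV : V.Bounded t) (hd : V.Decides A o) :
    V.Decides A' o := by
  have e : ∀ y z, V.pr A' y z = V.pr A y z := by
    intro y z
    unfold S2.pr
    have : ∀ ρ, (V.T y z ρ).eval A' = (V.T y z ρ).eval A := fun ρ => eval_eq h _ (hV.2.2 y z ρ).2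
    simp only [this]
  cases o with
  | true =>
    obtain ⟨y, hy⟩ := hd
    exact ⟨y, fun z => by rw [e]; exact hy z⟩
  | false =>
    obtain ⟨z, hz⟩ := hd
    exact ⟨z, fun y => by rw [e]; exact hz y⟩

end LoP

open LoP in
/-- Locality. -/
theorem tLoP (hStr : S_Str) : S_LoP := by
  intro ct Y M A A' hM hA
  have hle : ∀ u : List Bool, u.length ≤ M → A u = A' u := fun u hu =>
    hA u (hStr.2.2.2.2 u M hM hu)
  have p2 : ∀ N, 1 ≤ N → N < M → FoolsAt Y.g A N → FoolsAt Y.g A' N := by
    intro N _ hNM hF C Q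
    have e : ∀ ρ, evalQ A' C Q ρ = evalQ A C Q ρ := by
      intro ρ
      rw [← ct.eval, ← ct.eval]
      exact eval_eq (fun u hu => hle u (hu.trans hNM.le)) _ (ct.allQ N (Y.g N) C Q ρ)
    have g : ∀ i : ℕ, gen A' N i = gen A N i := by
      intro i
      funext b
      unfold gen
      exact (hA _ (by rw [lev_samp hStr]; exact hNM)).symm
    have := hF C Q
    simp only [e, g]
    exact this
  have p3 : ∀ e k x b, rk k x.length < M → Inst A e k x b → Inst A' e k x b := by
    intro e k x b hx hI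
    have h1 : ∀ (s : Bool) (v y : Fin (4 * rk k x.length) → Bool),
        Acc A' e s k x v y ↔ Acc A e s k x v y := by
      intro s v y
      unfold Acc
      rw [hA _ (by rw [lev_cell hStr]; exact hx)]
    unfold Inst at hI ⊢
    simp only [h1]
    exact hI
  have p4 : ∀ k x, rk k x.length ≤ M → Y.F k x A = Y.F k x A' := by
    intro k x hx
    refine Y.hF k x A A' fun u hu => hle u (hu.trans (le_trans ?_ hx))
    unfold rk
    omega
  refine ⟨fun V t o ht hV hd => decides V o (fun u hu => hle u (hu.trans ht)) hV hd, p2, p3, p4, ?_⟩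
  intro hV
  refine ⟨fun N h6 hNM => p2 N (by omega) hNM (hV.1 N h6 hNM), fun k x hx => ?_⟩
  obtain ⟨h1, b, h2⟩ := hV.2 k x hx
  refine ⟨?_, b, p3 false k x b hx h2⟩
  rw [← p4 k x hx.le]
  exact p3 true k x _ hx h1

end Pool.Agent.Lib.MP_ff3ed7_lc.Prg2
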