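import Pool.Agent.Lib.MP_ff3ed7_lc.Prg2.Spec

/-!
Random samples are good for the full oracle (`S_Loc`).
-/

namespace Pool.Agent.Lib.MP_ff3ed7_lc.Prg2

open Finset
open Pool.Agent.Lib.MP_ff3ed7_lc.Prg (frac qf path gr cut)

namespace Loc

/-- The output of a circuit of size `N` depends only on the strings of level less than `N`. -/
theorem eval_local (ct : CT) (hStr : S_Str) {N G : ℕ} (A A' : Orc)
    (h : ∀ u, lev u < N → A u = A' u) (C : Circ N G) (Q : Fin G → Bool) (ρ : Fin N → Bool) :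
    evalQ A C Q ρ = evalQ A' C Q ρ := by
  rw [← ct.eval, ← ct.eval]
  refine (Prg.eval_congr A A' _ fun u hu => ?_).symm
  rcases Nat.eq_zero_or_pos N with h0 | h0
  · have h1 : (path A (ct.T N G C Q ρ)).length ≤ 0 := by
      refine (Prg.length_path_le A _ _ (ct.depth N G C Q ρ)).trans ?_
      simp [h0]
    have h2 := List.length_pos_of_mem hu
    omega
  · exact h u (hStr.2.2.2.2 u N h0 (Prg.path_allQ A _ _ (ct.allQ N G C Q ρ) u hu))

end Loc

theorem tLoc (hTri : Prg.S_Tri) (hCirN : S_CirN) (hStr : S_Str) (_hPut : S_Put) (hGen : S_Gen) :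
    S_Loc := by
  intro ct g M M' A z hg hM
  have key := hTri M' M (fun N => Circ N (g N) × (Fin (g N) → Bool))
    (fun ω N C ρ => evalQ (full A M M' (exS ω) z) C.1 C.2 ρ = true) hM
    (fun N hN => hCirN N hN (g N) (hg N))
    (fun ω ω' N C ρ hω => by
      have := Loc.eval_local ct hStr (full A M M' (exS ω) z) (full A M M' (exS ω') z)
        (fun u hu => by
          unfold full
          split_ifs with h
          · have h1 : exS ω (lev u) = exS ω' (lev u) := by
              unfold exS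
              rw [dif_pos h.2, dif_pos h.2]
              exact hω ⟨lev u, h.2⟩ hu
            rw [h1]
          · rfl) C.1 C.2 ρ
      rw [this])
  have hle : (1 / 2 : ℝ) ^ (M ^ 3) / 8 ≤ 1 / 8 := by
    have : (1 / 2 : ℝ) ^ (M ^ 3) ≤ 1 := pow_le_one₀ (by norm_num) (by norm_num)
    linarith
  refine le_trans (Prg.frac_mono ?_) (le_trans key hle)
  rintro ω ⟨N, haN, hNM, C, hC⟩
  refine ⟨⟨N, hNM⟩, haN, C, ?_⟩
  rw [abs_sub_comm]
  let Y : World := ⟨g, hg, fun _ _ _ => false, fun _ _ _ _ _ => rfl⟩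
  have h2 : ∀ i : Fin (16 * N ^ 6), gen (full A M M' (exS ω) z) N i = ω ⟨N, hNM⟩ i := fun i => by
    rw [(hGen Y (fun _ _ => false) (exS ω) z (fun _ => ∅) M M' N A haN hNM i).2]
    unfold exS
    rw [dif_pos hNM]
  simp only [h2] at hC
  exact hC

end Pool.Agent.Lib.MP_ff3ed7_lc.Prg2
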