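import Pool.Agent.Lib.MP_ff3ed7_lc.Prg2.Spec

/-!
Sparse minimax (`S_Mmx`).
-/

namespace Pool.Agent.Lib.MP_ff3ed7_lc.Prg2

open Finset
open Pool.Agent.Lib.MP_ff3ed7_lc.Prg (frac qf path gr cut)

namespace Mmx

private theorem exp_neg_le {x : ℝ} (hx : 0 ≤ x) : Real.exp (-x) ≤ 1 - x + x ^ 2 / 2 := by
  have h1 : 1 + x + x ^ 2 / 2 ≤ Real.exp x := Real.quadratic_le_exp_of_nonneg hx
  have h2 : 0 < 1 + x + x ^ 2 / 2 := by positivity
  rw [Real.exp_neg]
  calc (Real.exp x)⁻¹ ≤ (1 + x + x ^ 2 / 2)⁻¹ := inv_anti₀ h2 h1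
    _ ≤ 1 - x + x ^ 2 / 2 := by
        rw [inv_le_iff_one_le_mul₀ h2]
        have : 0 ≤ x ^ 4 := by positivity
        nlinarith

private theorem exp_le {x : ℝ} (hx : |x| ≤ 1) : Real.exp x ≤ 1 + x + x ^ 2 := by
  have := (abs_le.1 (Real.abs_exp_sub_one_sub_id_le hx)).2
  linarith

private theorem two_pow_le (b : ℕ) : (2 : ℝ) ^ b ≤ Real.exp b := by
  have h : (2 : ℝ) ≤ Real.exp 1 := by
    have := Real.add_one_le_exp (1 : ℝ)
    linarith
  calc (2 : ℝ) ^ b ≤ Real.exp 1 ^ b := pow_le_pow_left₀ (by norm_num) h b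
    _ = Real.exp b := Real.exp_one_pow b

/-- An average is at least the minimum. -/
private theorem exists_le {Z : Type} [Fintype Z] (D f : Z → ℝ) (c : ℝ) (h0 : ∀ z, 0 ≤ D z)
    (h1 : ∑ z, D z = 1) (h : ∑ z, D z * f z ≤ c) : ∃ z, f z ≤ c := by
  by_contra hcon
  push Not at hcon
  have h2 : ∑ z, D z * (f z - c) ≤ 0 := by
    have : ∑ z, D z * (f z - c) = ∑ z, D z * f z - (∑ z, D z) * c := by
      rw [sum_mul, ← sum_sub_distrib]
      exact sum_congr rfl fun z _ => by ring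
    rw [this, h1]
    linarith
  have h3 : ∀ z ∈ (univ : Finset Z), 0 ≤ D z * (f z - c) := fun z _ =>
    mul_nonneg (h0 z) (by linarith [hcon z])
  have h4 := (sum_eq_zero_iff_of_nonneg h3).1 (le_antisymm h2 (sum_nonneg h3))
  have h5 : ∀ z, D z = 0 := fun z => by
    rcases mul_eq_zero.1 (h4 z (mem_univ z)) with h | h
    · exact h
    · linarith [hcon z]
  rw [sum_eq_zero fun z _ => h5 z] at h1
  exact zero_ne_one h1

/-- Multiplicative weights for the first player. -/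
private theorem first {Y Z : Type} [Fintype Z] [Nonempty Z] (M : Y → Z → ℝ)
    (hM : ∀ y z, 0 ≤ M y z ∧ M y z ≤ 1)
    (h : ∀ D : Z → ℝ, (∀ z, 0 ≤ D z) → ∑ z, D z = 1 → ∃ y, 1 / 2 ≤ ∑ z, D z * M y z) (i : ℕ) :
    ∃ ys : Fin i → Y, ∑ z, Real.exp (-(1 / 24 * ∑ j, M (ys j) z)) ≤
      Fintype.card Z * Real.exp (i * (1 / 1152 - 1 / 48)) := by
  induction i with
  | zero =>
    refine ⟨Fin.elim0, ?_⟩
    simp
  | succ i ih =>
    obtain ⟨ys, hys⟩ := ih
    set W : Z → ℝ := fun z => Real.exp (-(1 / 24 * ∑ j, M (ys j) z)) with hW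
    have hWp : ∀ z, 0 < W z := fun z => Real.exp_pos _
    have hS : 0 < ∑ z, W z := sum_pos (fun z _ => hWp z) univ_nonempty
    obtain ⟨y, hy⟩ := h (fun z => W z / ∑ z, W z) (fun z => (div_pos (hWp z) hS).le)
      (by rw [← sum_div, div_self hS.ne'])
    have hy' : (1 / 2) * ∑ z, W z ≤ ∑ z, W z * M y z := by
      have e : ∑ z, W z / (∑ z, W z) * M y z = (∑ z, W z * M y z) / ∑ z, W z := by
        rw [sum_div]
        exact sum_congr rfl fun z _ => by ring
      rw [e, le_div_iff₀ hS] at hy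
      exact hy
    refine ⟨Fin.snoc ys y, ?_⟩
    have h1 : ∀ z, Real.exp (-(1 / 24 * ∑ j, M ((Fin.snoc ys y : Fin (i + 1) → Y) j) z)) =
        W z * Real.exp (-(1 / 24 * M y z)) := by
      intro z
      rw [Fin.sum_univ_castSucc]
      simp only [Fin.snoc_castSucc, Fin.snoc_last]
      rw [hW, ← Real.exp_add]
      congr 1
      ring
    simp only [h1]
    have h2 : ∀ z, W z * Real.exp (-(1 / 24 * M y z)) ≤
        W z * (1 + 1 / 1152) - 1 / 24 * (W z * M y z) := by
      intro z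
      have h3 := exp_neg_le (x := 1 / 24 * M y z) (by linarith [(hM y z).1])
      have h4 : (M y z) ^ 2 ≤ 1 := by
        have h5 := (hM y z).1
        have h6 := (hM y z).2
        nlinarith
      have h7 : Real.exp (-(1 / 24 * M y z)) ≤ 1 + 1 / 1152 - 1 / 24 * M y z := by
        nlinarith
      calc W z * Real.exp (-(1 / 24 * M y z)) ≤ W z * (1 + 1 / 1152 - 1 / 24 * M y z) :=
            mul_le_mul_of_nonneg_left h7 (hWp z).le
        _ = _ := by ring
    calc ∑ z, W z * Real.exp (-(1 / 24 * M y z)) ≤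
          ∑ z, (W z * (1 + 1 / 1152) - 1 / 24 * (W z * M y z)) := sum_le_sum fun z _ => h2 z
      _ = (∑ z, W z) * (1 + 1 / 1152) - 1 / 24 * ∑ z, W z * M y z := by
          rw [sum_sub_distrib, sum_mul, mul_sum]
      _ ≤ (∑ z, W z) * (1 / 1152 - 1 / 48 + 1) := by nlinarith
      _ ≤ (∑ z, W z) * Real.exp (1 / 1152 - 1 / 48) :=
          mul_le_mul_of_nonneg_left (Real.add_one_le_exp _) hS.le
      _ ≤ (Fintype.card Z * Real.exp (i * (1 / 1152 - 1 / 48))) * Real.exp (1 / 1152 - 1 / 48) :=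
          mul_le_mul_of_nonneg_right hys (Real.exp_pos _).le
      _ = Fintype.card Z * Real.exp ((i + 1 : ℕ) * (1 / 1152 - 1 / 48)) := by
          rw [mul_assoc, ← Real.exp_add]
          congr 2
          push_cast
          ring

/-- Derandomization for the second player. -/
private theorem second {Y Z : Type} [Fintype Y] [Nonempty Y] [Fintype Z] (M : Y → Z → ℝ)
    (hM : ∀ y z, 0 ≤ M y z ∧ M y z ≤ 1) (D : Z → ℝ) (hD : ∀ z, 0 ≤ D z) (hD1 : ∑ z, D z = 1)
    (h : ∀ y, ∑ z, D z * M y z ≤ 1 / 2) (i : ℕ) :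
    ∃ zs : Fin i → Z, ∑ y, Real.exp (1 / 12 * ∑ j, (M y (zs j) - 1 / 2)) ≤
      Fintype.card Y * Real.exp (i * (1 / 576)) := by
  induction i with
  | zero =>
    refine ⟨Fin.elim0, ?_⟩
    simp
  | succ i ih =>
    obtain ⟨zs, hzs⟩ := ih
    set W : Y → ℝ := fun y => Real.exp (1 / 12 * ∑ j, (M y (zs j) - 1 / 2)) with hW
    have hWp : ∀ y, 0 < W y := fun y => Real.exp_pos _
    have hS : 0 < ∑ y, W y := sum_pos (fun y _ => hWp y) univ_nonempty
    have h2 : ∀ y z, Real.exp (1 / 12 * (M y z - 1 / 2)) ≤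
        (1 + 1 / 576 - 1 / 24) + 1 / 12 * M y z := by
      intro y z
      have h5 := (hM y z).1
      have h6 := (hM y z).2
      have h3 := exp_le (x := 1 / 12 * (M y z - 1 / 2)) (by rw [abs_le]; constructor <;> linarith)
      have h4 : (M y z - 1 / 2) ^ 2 ≤ 1 / 4 := by nlinarith
      nlinarith
    obtain ⟨z, hz⟩ := exists_le D (fun z => ∑ y, W y * Real.exp (1 / 12 * (M y z - 1 / 2)))
      ((∑ y, W y) * (1 / 576 + 1)) hD hD1 (by
        calc ∑ z, D z * ∑ y, W y * Real.exp (1 / 12 * (M y z - 1 / 2))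
            ≤ ∑ z, D z * ∑ y, W y * ((1 + 1 / 576 - 1 / 24) + 1 / 12 * M y z) := by
              refine sum_le_sum fun z _ => mul_le_mul_of_nonneg_left ?_ (hD z)
              exact sum_le_sum fun y _ => mul_le_mul_of_nonneg_left (h2 y z) (hWp y).le
          _ = ∑ y, W y * ((1 + 1 / 576 - 1 / 24) * ∑ z, D z + 1 / 12 * ∑ z, D z * M y z) := by
              simp only [mul_sum, mul_add]
              rw [sum_comm]
              refine sum_congr rfl fun y _ => ?_
              rw [← sum_add_distrib]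
              refine sum_congr rfl fun z _ => ?_
              ring
          _ ≤ ∑ y, W y * (1 / 576 + 1) := by
              refine sum_le_sum fun y _ => mul_le_mul_of_nonneg_left ?_ (hWp y).le
              rw [hD1]
              linarith [h y]
          _ = (∑ y, W y) * (1 / 576 + 1) := by rw [sum_mul])
    refine ⟨Fin.snoc zs z, ?_⟩
    have h1 : ∀ y, Real.exp (1 / 12 * ∑ j, (M y ((Fin.snoc zs z : Fin (i + 1) → Z) j) - 1 / 2)) =
        W y * Real.exp (1 / 12 * (M y z - 1 / 2)) := by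
      intro y
      rw [Fin.sum_univ_castSucc]
      simp only [Fin.snoc_castSucc, Fin.snoc_last]
      rw [hW, ← Real.exp_add]
      congr 1
      ring
    simp only [h1]
    calc ∑ y, W y * Real.exp (1 / 12 * (M y z - 1 / 2)) ≤ (∑ y, W y) * (1 / 576 + 1) := hz
      _ ≤ (∑ y, W y) * Real.exp (1 / 576) :=
          mul_le_mul_of_nonneg_left (Real.add_one_le_exp _) hS.le
      _ ≤ (Fintype.card Y * Real.exp (i * (1 / 576))) * Real.exp (1 / 576) :=
          mul_le_mul_of_nonneg_right hzs (Real.exp_pos _).le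
      _ = Fintype.card Y * Real.exp ((i + 1 : ℕ) * (1 / 576)) := by
          rw [mul_assoc, ← Real.exp_add]
          congr 2
          push_cast
          ring

end Mmx

theorem tMmx : S_Mmx := by
  intro Y Z _ _ _ _ M b hM hY hZ
  have hY' : (Fintype.card Y : ℝ) ≤ Real.exp b :=
    le_trans (by exact_mod_cast hY) (Mmx.two_pow_le b)
  have hZ' : (Fintype.card Z : ℝ) ≤ Real.exp b :=
    le_trans (by exact_mod_cast hZ) (Mmx.two_pow_le b)
  have hb : (0 : ℝ) ≤ b := Nat.cast_nonneg b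
  by_cases h : ∀ D : Z → ℝ, (∀ z, 0 ≤ D z) → ∑ z, D z = 1 → ∃ y, 1 / 2 ≤ ∑ z, D z * M y z
  · left
    obtain ⟨ys, hys⟩ := Mmx.first M hM h (1152 * (b + 1))
    refine ⟨ys, fun z => ?_⟩
    have h1 : Real.exp (-(1 / 24 * ∑ j, M (ys j) z)) ≤
        Real.exp (b + ((1152 * (b + 1) : ℕ) : ℝ) * (1 / 1152 - 1 / 48)) := by
      rw [Real.exp_add]
      refine le_trans ?_ (le_trans hys (mul_le_mul_of_nonneg_right hZ' (Real.exp_pos _).le))
      exact single_le_sum (f := fun z => Real.exp (-(1 / 24 * ∑ j, M (ys j) z)))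
        (fun z _ => (Real.exp_pos _).le) (mem_univ z)
    have h2 := Real.exp_le_exp.1 h1
    push_cast at h2
    linarith
  · right
    push Not at h
    obtain ⟨D, hD, hD1, hlt⟩ := h
    obtain ⟨zs, hzs⟩ := Mmx.second M hM D hD hD1 (fun y => (hlt y).le) (1152 * (b + 1))
    refine ⟨zs, fun y => ?_⟩
    have h1 : Real.exp (1 / 12 * ∑ j, (M y (zs j) - 1 / 2)) ≤
        Real.exp (b + ((1152 * (b + 1) : ℕ) : ℝ) * (1 / 576)) := by
      rw [Real.exp_add]
      refine le_trans ?_ (le_trans hzs (mul_le_mul_of_nonneg_right hY' (Real.exp_pos _).le))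
      exact single_le_sum (f := fun y => Real.exp (1 / 12 * ∑ j, (M y (zs j) - 1 / 2)))
        (fun y _ => (Real.exp_pos _).le) (mem_univ y)
    have h2 := Real.exp_le_exp.1 h1
    rw [sum_sub_distrib, sum_const, card_univ, Fintype.card_fin, nsmul_eq_mul] at h2
    push_cast at h2
    linarith

end Pool.Agent.Lib.MP_ff3ed7_lc.Prg2
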