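import Pool.Agent.Lib.MP_ff3ed7_lc.Prg2.Spec

/-!
MP_ff3ed7_lc, `T**`: machines with Merlin-Arthur queries are `S₂` machines (`S_PMA`).
-/

namespace Pool.Agent.Lib.MP_ff3ed7_lc.Prg2

open Finset
open Pool.Agent.Lib.MP_ff3ed7_lc.Prg (frac qf path gr cut)

namespace PMA

/-! ### Trees -/

/-- The tree with the opposite answers. -/
def neg : DTree (List Bool) Bool → DTree (List Bool) Bool
  | .leaf b => .leaf (!b)
  | .node i next => .node i fun s => neg (next s)

theorem eval_neg (A : List Bool → Bool) (T : DTree (List Bool) Bool) :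
    (neg T).eval A = !(T.eval A) := by
  induction T with
  | leaf b => rfl
  | node i next ih => exact ih (A i)

theorem depth_neg (T : DTree (List Bool) Bool) : ∀ d, T.DepthLE d → (neg T).DepthLE d := by
  induction T with
  | leaf b => exact fun _ _ => trivial
  | node i next ih => exact fun d h => ⟨h.1, fun s => ih s (d - 1) (h.2 s)⟩

theorem allQ_neg (P : List Bool → Prop) (T : DTree (List Bool) Bool) (h : T.AllQ P) :
    (neg T).AllQ P := by
  induction T with
  | leaf b => trivial
  | node i next ih => exact ⟨h.1, fun s => ih s (h.2 s)⟩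

theorem depth_mono (T : DTree (List Bool) Bool) : ∀ d d' : ℕ, d ≤ d' → T.DepthLE d →
    T.DepthLE d' := by
  induction T with
  | leaf b => exact fun _ _ _ _ => trivial
  | node i next ih =>
    intro d d' hdd h
    have h0 := h.1
    exact ⟨by omega, fun s => ih s (d - 1) (d' - 1) (by omega) (h.2 s)⟩

theorem allQ_mono (P Q : List Bool → Prop) (hPQ : ∀ u, P u → Q u) (T : DTree (List Bool) Bool)
    (h : T.AllQ P) : T.AllQ Q := by
  induction T with
  | leaf b => trivial
  | node i next ih => exact ⟨hPQ i h.1, fun s => ih s (h.2 s)⟩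

/-- The tree with the answers `true` and `false` exchanged if `o = false`. -/
def sgn (o : Bool) (T : DTree (List Bool) Bool) : DTree (List Bool) Bool :=
  bif o then T else neg T

theorem eval_sgn (A : List Bool → Bool) (o : Bool) (T : DTree (List Bool) Bool) :
    (sgn o T).eval A = o ↔ T.eval A = true := by
  cases o <;> simp [sgn, eval_neg]

theorem eval_sgn_not (A : List Bool → Bool) (o : Bool) (T : DTree (List Bool) Bool) :
    (sgn (!o) T).eval A = o ↔ ¬ T.eval A = true := by
  cases o <;> simp [sgn, eval_neg]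

theorem depth_sgn (o : Bool) (T : DTree (List Bool) Bool) (d : ℕ) (h : T.DepthLE d) :
    (sgn o T).DepthLE d := by
  cases o
  · exact depth_neg T d h
  · exact h

theorem allQ_sgn (P : List Bool → Prop) (o : Bool) (T : DTree (List Bool) Bool) (h : T.AllQ P) :
    (sgn o T).AllQ P := by
  cases o
  · exact allQ_neg P T h
  · exact h

/-! ### Probabilities -/

theorem frac_true {Ω : Type} [Fintype Ω] [Nonempty Ω] {E : Ω → Prop} (h : ∀ ω, E ω) :
    frac E = 1 := by
  classical
  rw [Prg.frac_eq_sum]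
  simp [h]

theorem frac_not {Ω : Type} [Fintype Ω] [Nonempty Ω] (E : Ω → Prop) :
    frac (fun ω => ¬ E ω) = 1 - frac E := by
  classical
  rw [Prg.frac_eq_sum, Prg.frac_eq_sum, eq_sub_iff_add_eq, ← add_div, ← sum_add_distrib]
  have h1 : ∀ ω ∈ (univ : Finset Ω),
      (if ¬ E ω then (1 : ℝ) else 0) + (if E ω then (1 : ℝ) else 0) = 1 := by
    intro ω _
    by_cases h : E ω <;> simp [h]
  rw [sum_congr rfl h1]
  simp

theorem frac_fst {α β : Type} [Fintype α] [Fintype β] [Nonempty β] (E : α → Prop) :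
    frac (fun p : α × β => E p.1) = frac E := by
  classical
  rw [Prg.frac_eq_sum, Prg.frac_eq_sum, Fintype.sum_prod_type, Fintype.card_prod]
  have h1 : ∀ a ∈ (univ : Finset α), ∑ _b : β, (if E a then (1 : ℝ) else 0) =
      (Fintype.card β : ℝ) * (if E a then (1 : ℝ) else 0) := by
    intro a _
    rw [sum_const, card_univ, nsmul_eq_mul]
  have h2 : (Fintype.card β : ℝ) ≠ 0 := by
    have := Fintype.card_pos (α := β)
    positivity
  rw [sum_congr rfl h1, ← mul_sum]
  push_cast
  rw [mul_comm (Fintype.card α : ℝ), mul_div_mul_left _ _ h2]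

theorem prob_cut {r m : ℕ} (h : r ≤ m) (E : (Fin r → Bool) → Prop) :
    prob m (fun ρ => E (cut ρ r)) = prob r E := by
  obtain ⟨s, rfl⟩ := Nat.exists_eq_add_of_le h
  rw [Prg.prob_eq_frac, Prg.prob_eq_frac,
    ← frac_fst (β := Fin s → Bool) E, ← Prg.frac_equiv (Fin.appendEquiv r s)]
  have : ∀ p : (Fin r → Bool) × (Fin s → Bool), cut (Fin.appendEquiv r s p) r = p.1 := by
    rintro ⟨a, b⟩
    funext j
    have hj : (j : ℕ) < r + s := by omega
    simp only [cut, hj, dif_pos]
    exact Fin.append_left a b j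
  simp only [this]

theorem prob_not (r : ℕ) (E : (Fin r → Bool) → Prop) :
    prob r (fun ρ => ¬ E ρ) = 1 - prob r E := by
  rw [Prg.prob_eq_frac, Prg.prob_eq_frac, frac_not]

theorem exists_cut {b p : ℕ} (hp : p ≤ b) (y : Fin p → Bool) :
    ∃ y' : Fin b → Bool, cut y' p = y := by
  refine ⟨fun j => if h : (j : ℕ) < p then y ⟨j, h⟩ else false, ?_⟩
  funext j
  unfold cut
  rw [dif_pos (lt_of_lt_of_le j.2 hp)]
  exact dif_pos j.2

/-! ### Strategies and the verifier -/

/-- A strategy: for every level an answer and a message of `m` bits. -/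
abbrev Str (m : ℕ) : Type := ℕ → Fin (m + 1) → Bool

/-- The message of the first level. -/
def msg {m : ℕ} (s : Str m) : Fin m → Bool := fun j => s 0 j.succ

/-- Drop the first level. -/
def tl {m : ℕ} (s : Str m) : Str m := fun i => s (i + 1)

/-- Put a level in front. -/
def cns {m : ℕ} (a : Bool) (y : Fin m → Bool) (s : Str m) : Str m
  | 0 => Fin.cons a y
  | i + 1 => s i

theorem tl_cns {m : ℕ} (a : Bool) (y : Fin m → Bool) (s : Str m) : tl (cns a y s) = s := rfl

theorem msg_cns {m : ℕ} (a : Bool) (y : Fin m → Bool) (s : Str m) : msg (cns a y s) = y := by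
  funext j
  simp [msg, cns]

theorem cns_zero {m : ℕ} (a : Bool) (y : Fin m → Bool) (s : Str m) : cns a y s 0 0 = a := by
  simp [cns]

theorem cns_supp {m d : ℕ} (a : Bool) (y : Fin m → Bool) (s : Str m) (hd : 0 < d)
    (h : ∀ i ≥ d - 1, s i = fun _ => false) : ∀ i ≥ d, cns a y s i = fun _ => false := by
  intro i hi
  rcases i with _ | i
  · exact absurd hd (not_lt.2 hi)
  · exact h i (by omega)

/-- The verifier: the strategy `s` belongs to the player who claims that the answer is `o`, the
strategy `s'` to the other player. -/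
def ver {m : ℕ} (o : Bool) : Prg.MTree → Str m → Str m → (Fin m → Bool) → DTree (List Bool) Bool
  | .leaf b, _, _, _ => .leaf b
  | .node p r T no yes, s, s', ρ =>
      bif s 0 0 then
        (bif s' 0 0 then ver o yes (tl s) (tl s') ρ else sgn o (T (cut (msg s) p) (cut ρ r)))
      else
        (bif s' 0 0 then sgn (!o) (T (cut (msg s') p) (cut ρ r)) else ver o no (tl s) (tl s') ρ)

theorem ver_swap {m : ℕ} (o : Bool) (R : Prg.MTree) (s s' : Str m) (ρ : Fin m → Bool) :
    ver o R s s' ρ = ver (!o) R s' s ρ := by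
  induction R generalizing s s' with
  | leaf b => rfl
  | node p r T no yes ihn ihy =>
    simp only [ver]
    cases s 0 0 <;> cases s' 0 0
    · exact ihn (tl s) (tl s')
    · rfl
    · simp
    · exact ihy (tl s) (tl s')

theorem ver_bounded {m : ℕ} (o : Bool) (R : Prg.MTree) : ∀ (d : ℕ) (s s' : Str m)
    (ρ : Fin m → Bool), R.Bounded m d → (ver o R s s' ρ).DepthLE m ∧
      (ver o R s s' ρ).AllQ fun u => u.length ≤ m := by
  induction R with
  | leaf b => exact fun _ _ _ _ _ => ⟨trivial, trivial⟩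
  | node p r T no yes ihn ihy =>
    intro d s s' ρ hB
    obtain ⟨-, -, -, hT, hno, hyes⟩ := hB
    simp only [ver]
    cases s 0 0 <;> cases s' 0 0
    · exact ihn (d - 1) (tl s) (tl s') ρ hno
    · exact ⟨depth_sgn _ _ _ (hT _ _).1, allQ_sgn _ _ _ (hT _ _).2⟩
    · exact ⟨depth_sgn _ _ _ (hT _ _).1, allQ_sgn _ _ _ (hT _ _).2⟩
    · exact ihy (d - 1) (tl s) (tl s') ρ hyes

theorem main {m : ℕ} (A : List Bool → Bool) (o : Bool) (R : Prg.MTree) : ∀ d : ℕ,
    R.Bounded m d → R.Decides A o → ∃ s : Str m, (∀ i ≥ d, s i = fun _ => false) ∧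
      ∀ s' : Str m, 2 / 3 ≤ prob m fun ρ => (ver o R s s' ρ).eval A = o := by
  induction R with
  | leaf b =>
    intro d _ hb
    refine ⟨fun _ _ => false, fun _ _ => rfl, fun s' => ?_⟩
    have hb' : b = o := hb
    rw [Prg.prob_eq_frac, frac_true]
    · norm_num
    · exact fun _ => hb'
  | node p r T no yes ihn ihy =>
    intro d hB hD
    obtain ⟨hd, hp, hr, -, hno, hyes⟩ := hB
    rcases hD with ⟨⟨y, hy⟩, hD⟩ | ⟨hy, hD⟩
    · obtain ⟨s, hs, hw⟩ := ihy (d - 1) hyes hD
      obtain ⟨y', rfl⟩ := exists_cut hp y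
      refine ⟨cns true y' s, cns_supp _ _ _ hd hs, fun s' => ?_⟩
      simp only [ver, cns_zero, tl_cns, msg_cns, cond_true]
      cases s' 0 0
      · simp only [cond_false, eval_sgn]
        rw [prob_cut hr fun ρ => (T (cut y' p) ρ).eval A = true]
        exact hy
      · exact hw (tl s')
    · obtain ⟨s, hs, hw⟩ := ihn (d - 1) hno hD
      refine ⟨cns false (fun _ => false) s, cns_supp _ _ _ hd hs, fun s' => ?_⟩
      simp only [ver, cns_zero, tl_cns, cond_false]
      cases s' 0 0
      · exact hw (tl s')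
      · simp only [cond_true, eval_sgn_not]
        rw [prob_cut hr fun ρ => ¬ (T (cut (msg s') p) ρ).eval A = true, prob_not]
        have := hy (cut (msg s') p)
        linarith

/-! ### Coding -/

/-- The strategy which is coded by a message. -/
def dcd {m : ℕ} (y : Fin (m * (m + 1)) → Bool) : Str m := fun i j =>
  if h : i < m then y (finProdFinEquiv (⟨i, h⟩, j)) else false

theorem exists_dcd {m : ℕ} (s : Str m) (hs : ∀ i ≥ m, s i = fun _ => false) :
    ∃ y : Fin (m * (m + 1)) → Bool, dcd y = s := by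
  refine ⟨fun e => s (finProdFinEquiv.symm e).1 (finProdFinEquiv.symm e).2, ?_⟩
  funext i j
  unfold dcd
  by_cases h : i < m
  · rw [dif_pos h]
    change s (finProdFinEquiv.symm (finProdFinEquiv (⟨i, h⟩, j))).1
      (finProdFinEquiv.symm (finProdFinEquiv (⟨i, h⟩, j))).2 = s i j
    rw [Equiv.symm_apply_apply]
  · rw [dif_neg h, hs i (by omega)]

/-- The `S₂` computation for a tree of Merlin-Arthur queries. -/
def toS2 (m : ℕ) (R : Prg.MTree) : S2 where
  p := m * (m + 1)
  q := m * (m + 1)
  r := m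
  T := fun y z ρ => ver true R (dcd y) (dcd z) ρ

theorem toS2_bounded (m : ℕ) (R : Prg.MTree) (h : R.Bounded m m) :
    (toS2 m R).Bounded (m * (m + 1)) := by
  have hm : m ≤ m * (m + 1) := Nat.le_mul_of_pos_right _ (by omega)
  refine ⟨le_rfl, le_rfl, fun y z ρ => ?_⟩
  have h1 := ver_bounded true R m (dcd y) (dcd z) ρ h
  exact ⟨depth_mono _ m _ hm h1.1, allQ_mono _ _ (fun u hu => le_trans hu hm) _ h1.2⟩

theorem toS2_decides (m : ℕ) (R : Prg.MTree) (h : R.Bounded m m) (A : List Bool → Bool)
    (o : Bool) (ho : R.Decides A o) : (toS2 m R).Decides A o := by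
  obtain ⟨s, hs, hw⟩ := main A o R m h ho
  obtain ⟨y, rfl⟩ := exists_dcd s hs
  cases o
  · refine ⟨y, fun y' => ?_⟩
    have h1 := hw (dcd y')
    have h2 : (fun ρ => (ver false R (dcd y) (dcd y') ρ).eval A = false) =
        fun ρ => ¬ (ver true R (dcd y') (dcd y) ρ).eval A = true := by
      funext ρ
      rw [ver_swap]
      simp
    rw [h2, prob_not] at h1
    change prob m (fun ρ => (ver true R (dcd y') (dcd y) ρ).eval A = true) ≤ 1 / 3
    linarith
  · exact ⟨y, fun z => hw (dcd z)⟩

end PMA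

open PMA in
/-- Machines with Merlin-Arthur queries are `S₂` machines. -/
theorem tPMA : S_PMA := by
  intro V
  refine ⟨⟨fun h x => toS2 (x.length ^ V.c + V.c) (V.tree h x),
    fun n => (n ^ V.c + V.c) * (n ^ V.c + V.c + 1),
    fun h x => toS2_bounded _ _ (V.bounded h x)⟩, fun n => le_rfl, ?_⟩
  intro A h x b hb
  exact toS2_decides _ _ (V.bounded h x) A b hb

end Pool.Agent.Lib.MP_ff3ed7_lc.Prg2
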