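import Pool.Agent.Lib.MP_ff3ed7_lc.Prg2.Spec

/-!
MP_ff3ed7_lc, `T**`: the parameters (`S_Par`).
-/

namespace Pool.Agent.Lib.MP_ff3ed7_lc.Prg2

open Finset
open Pool.Agent.Lib.MP_ff3ed7_lc.Prg (frac qf path gr cut)

namespace Par

theorem ev (e : ℕ) : ∃ n₀ : ℕ, ∀ n ≥ n₀, n ^ e ≤ 2 ^ n := by
  have h := tendsto_pow_const_div_const_pow_of_one_lt e (r := (2 : ℝ)) (by norm_num)
  have h2 := h.eventually (gt_mem_nhds (show (0 : ℝ) < 1 by norm_num))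
  obtain ⟨n₀, h3⟩ := Filter.eventually_atTop.1 h2
  refine ⟨n₀, fun n hn => ?_⟩
  have h4 := h3 n hn
  have h5 : (0 : ℝ) < 2 ^ n := by positivity
  rw [div_lt_iff₀ h5, one_mul] at h4
  exact_mod_cast h4.le

theorem pow_le {n k : ℕ} (hn : k + 5 ≤ n) : n ^ k + k + n + 1 ≤ n ^ (k + 2) := by
  obtain ⟨P, hP⟩ : ∃ P, P = n ^ k := ⟨_, rfl⟩
  obtain ⟨q, hq⟩ : ∃ q, n * n = 1 + q := ⟨n * n - 1, by
    have : 1 * 1 ≤ n * n := Nat.mul_le_mul (by omega) (by omega)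
    omega⟩
  have h1 : 1 ≤ P := by
    rw [hP]
    exact Nat.one_le_pow _ _ (by omega)
  have h2 : n ^ (k + 2) = P * (n * n) := by
    rw [hP]
    ring
  have h3 : 5 * n ≤ n * n := Nat.mul_le_mul_right _ (by omega)
  have h4 : 1 * q ≤ P * q := Nat.mul_le_mul_right _ h1
  have h5 : P * (1 + q) = P + P * q := by ring
  rw [h2, hq, h5, ← hP]
  omega

/-- The real number `2 ^ (- n / 4)` satisfies `(y ^ 2 * 2 ^ n) ^ 2 = 2 ^ n`. -/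
theorem sq_eq (n : ℕ) : (((2 : ℝ) ^ (-(n : ℝ) / 4)) ^ 2 * 2 ^ n) ^ 2 = 2 ^ n := by
  have h1 : ((2 : ℝ) ^ (-(n : ℝ) / 4)) ^ 4 * 2 ^ n = 1 := by
    rw [← Real.rpow_natCast, ← Real.rpow_mul (by norm_num), ← Real.rpow_natCast (2 : ℝ) n,
      ← Real.rpow_add (by norm_num)]
    have : -(n : ℝ) / 4 * ((4 : ℕ) : ℝ) + (n : ℝ) = 0 := by
      push_cast
      ring
    rw [this, Real.rpow_zero]
  calc (((2 : ℝ) ^ (-(n : ℝ) / 4)) ^ 2 * 2 ^ n) ^ 2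
      = (((2 : ℝ) ^ (-(n : ℝ) / 4)) ^ 4 * 2 ^ n) * 2 ^ n := by ring
    _ = 2 ^ n := by rw [h1, one_mul]

theorem exp_lt {n R : ℕ} (h : (4 * (R + 1)) ^ 2 < 2 ^ n) :
    (2 : ℝ) ^ R * (2 * Real.exp (-(((2 : ℝ) ^ (-(n : ℝ) / 4)) ^ 2 * 2 ^ n / 4))) < 1 := by
  obtain ⟨z, hz⟩ : ∃ z : ℝ, z = ((2 : ℝ) ^ (-(n : ℝ) / 4)) ^ 2 * 2 ^ n := ⟨_, rfl⟩
  have h2 : z ^ 2 = 2 ^ n := by
    rw [hz]
    exact sq_eq n
  have h0 : 0 ≤ z := by
    rw [hz]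
    positivity
  have h3 : (4 * (R + 1) : ℝ) < z := by
    apply lt_of_pow_lt_pow_left₀ 2 h0
    rw [h2]
    exact_mod_cast h
  rw [← hz]
  have h4 : (2 : ℝ) ^ (R + 1) ≤ Real.exp (R + 1) := by
    have h5 : (2 : ℝ) ≤ Real.exp 1 := by
      have := Real.add_one_le_exp (1 : ℝ)
      linarith
    calc (2 : ℝ) ^ (R + 1) ≤ Real.exp 1 ^ (R + 1) := by gcongr
      _ = Real.exp (R + 1) := by
        rw [← Real.exp_nat_mul]
        push_cast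
        ring_nf
  calc (2 : ℝ) ^ R * (2 * Real.exp (-(z / 4))) = 2 ^ (R + 1) * Real.exp (-(z / 4)) := by ring
    _ ≤ Real.exp (R + 1) * Real.exp (-(z / 4)) := by gcongr
    _ = Real.exp (R + 1 - z / 4) := by
      rw [← Real.exp_add]
      ring_nf
    _ < 1 := by
      rw [Real.exp_lt_one_iff]
      linarith

end Par

open Par in
/-- The parameters. -/
theorem tPar : S_Par := by
  intro g t hgt k M₀ B
  obtain ⟨n₀, hn₀⟩ := ev (16 * (k + 2))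
  obtain ⟨n, hn, ht, hg⟩ := hgt (k + 2) (n₀ + M₀ + B + k + 32)
  obtain ⟨P, hP⟩ : ∃ P, P = n ^ k + k := ⟨_, rfl⟩
  obtain ⟨b, hb⟩ : ∃ b, b = t n := ⟨_, rfl⟩
  obtain ⟨e, he⟩ : ∃ e, e = n / 16 := ⟨_, rfl⟩
  have hR : rk k n = P + n := by
    unfold rk
    rw [hP]
  have hR1 : P + n + 1 ≤ n ^ (k + 2) := by
    rw [hP]
    exact pow_le (by omega)
  have hR16 : (P + n + 1) ^ 16 ≤ 2 ^ n := by
    calc (P + n + 1) ^ 16 ≤ (n ^ (k + 2)) ^ 16 := Nat.pow_le_pow_left hR1 16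
      _ = n ^ (16 * (k + 2)) := by rw [← pow_mul, mul_comm]
      _ ≤ 2 ^ n := hn₀ n (by omega)
  refine ⟨n, by omega, ?_⟩
  rw [hR, ← hP, ← hb]
  rw [← hb] at ht hg
  -- everything is at most `2 ^ (e + 1)`
  have hpow : ∀ a : ℕ, a ^ 16 ≤ 2 ^ n → a ≤ 2 ^ (e + 1) := by
    intro a ha
    by_contra hc
    push Not at hc
    have h1 : (2 ^ (e + 1)) ^ 16 < a ^ 16 := Nat.pow_lt_pow_left hc (by norm_num)
    have h2 : 2 ^ n ≤ (2 ^ (e + 1)) ^ 16 := by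
      rw [← pow_mul]
      exact Nat.pow_le_pow_right (by norm_num) (by omega)
    omega
  have hbe := hpow b ht
  have hRe := hpow (P + n + 1) hR16
  obtain ⟨Q, hQ⟩ : ∃ Q, Q = 2 ^ (e + 2) := ⟨_, rfl⟩
  have hQ2 : 2 ^ (e + 1) + 2 ^ (e + 1) = Q := by
    rw [hQ]
    ring
  have hge : ∀ N ≤ P + n + b, 2 ^ g N ≤ Q := by
    intro N hN
    have h1 := hg N (by omega)
    rw [hQ]
    exact Nat.pow_le_pow_right (by norm_num) (by omega)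
  have hQn : 4096 * Q ^ 2 ≤ 2 ^ n := by
    have h1 : 4096 * Q ^ 2 = 2 ^ (2 * e + 16) := by
      rw [hQ]
      ring
    rw [h1]
    exact Nat.pow_le_pow_right (by norm_num) (by omega)
  have hQR : 4096 * Q ^ 2 ≤ 2 ^ (P + n) :=
    hQn.trans (Nat.pow_le_pow_right (by norm_num) (by omega))
  have hQ1 : 1 ≤ Q := by
    rw [hQ]
    exact Nat.one_le_two_pow
  have hb1 : b + 1 ≤ Q := by
    have : 1 ≤ 2 ^ (e + 1) := Nat.one_le_two_pow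
    omega
  have hN1 : P + n + b + 1 ≤ Q := by omega
  have h2R : (2 : ℝ) ^ (2 * (P + n) - 1) * 2 = 2 ^ (P + n) * 2 ^ (P + n) := by
    rw [← pow_succ, ← pow_add]
    congr 1
    omega
  have hQRr : (4096 : ℝ) * Q ^ 2 ≤ 2 ^ (P + n) := by exact_mod_cast hQR
  have hNr : ((P + n + b + 1 : ℕ) : ℝ) ≤ Q := by exact_mod_cast hN1
  have hQ1r : (1 : ℝ) ≤ Q := by exact_mod_cast hQ1
  have hbr : (b : ℝ) ≤ Q := by
    have : b ≤ Q := by omega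
    exact_mod_cast this
  have hpos : (0 : ℝ) < ((P + n + b + 1 : ℕ) : ℝ) := by positivity
  have h2pos : (0 : ℝ) < 2 ^ (P + n) := by positivity
  obtain ⟨X, hX⟩ : ∃ X : ℝ, X = 2 ^ (P + n) := ⟨_, rfl⟩
  rw [← hX] at h2R hQRr h2pos
  have hQ0 : (0 : ℝ) ≤ Q := by positivity
  refine ⟨by omega, by omega,
    2 ^ (2 * (P + n) - 1) / ((P + n + b + 1 : ℕ) : ℝ), by positivity, ?_, ?_, ?_, ?_, ?_⟩
  · intro N hN
    rw [le_div_iff₀ hpos]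
    have h1 : (N : ℝ) ≤ Q := by
      have : N ≤ Q := by omega
      exact_mod_cast this
    have h2 : (2 : ℝ) ^ g N ≤ Q := by exact_mod_cast hge N (by omega)
    have h3 : 4 * (N : ℝ) ^ 2 * 2 ^ g N * ((P + n + b + 1 : ℕ) : ℝ) ≤ 4 * Q ^ 2 * Q * Q := by
      gcongr
    have h4 : (4096 * (Q : ℝ) ^ 2) * (4096 * (Q : ℝ) ^ 2) ≤ X * X := by gcongr
    have h5 : (0 : ℝ) ≤ (Q : ℝ) ^ 4 := by positivity
    nlinarith
  · rw [le_div_iff₀ hpos]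
    have h1 : (2 : ℝ) ^ (P + 1) * 2 ^ n = 2 * X := by
      rw [hX]
      ring
    rw [h1]
    have h3 : 12 * (b : ℝ) * (2 * X) * ((P + n + b + 1 : ℕ) : ℝ) ≤ 12 * Q * (2 * X) * Q := by
      gcongr
    have h4 : (4096 * (Q : ℝ) ^ 2) * X ≤ X * X := by gcongr
    have h5 : (0 : ℝ) ≤ (Q : ℝ) ^ 2 * X := by positivity
    nlinarith
  · rw [div_mul_cancel₀ _ hpos.ne']
  · obtain ⟨Y, hY⟩ : ∃ Y : ℕ, Y = 2 ^ (P + n) := ⟨_, rfl⟩
    rw [← hY] at hQR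
    have h1 : 2 ^ (P + 1) * (2 ^ n * (1 + 1152 * (b + 1) * b)) =
        2 * Y * (1 + 1152 * (b + 1) * b) := by
      rw [hY]
      ring
    have h2 : 4 ^ (P + n) = Y * Y := by
      rw [hY, show (4 : ℕ) = 2 * 2 from rfl, mul_pow]
    have h3 : 2 ^ n ≤ Y := by
      rw [hY]
      exact Nat.pow_le_pow_right (by norm_num) (by omega)
    rw [h1, h2]
    have h4 : 1152 * (b + 1) * b ≤ 1152 * Q * Q :=
      Nat.mul_le_mul (Nat.mul_le_mul_left _ hb1) (by omega)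
    have h5 : 1 * 1 ≤ Q * Q := Nat.mul_le_mul hQ1 hQ1
    have h6 : 2 * Y * (1 + 1152 * (b + 1) * b) ≤ 2 * Y * (1153 * (Q * Q)) :=
      Nat.mul_le_mul_left _ (by nlinarith)
    have h7 : Y * (4096 * Q ^ 2) ≤ Y * Y := Nat.mul_le_mul_left _ hQR
    have h8 : Y * 1 ≤ Y * (Q * Q) := Nat.mul_le_mul_left _ (by omega)
    nlinarith
  · apply exp_lt
    have h1 : 4 * (P + 1 + 1) < (P + n + 1) ^ 2 := by nlinarith
    calc (4 * (P + 1 + 1)) ^ 2 < ((P + n + 1) ^ 2) ^ 2 := Nat.pow_lt_pow_left h1 (by norm_num)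
      _ = (P + n + 1) ^ 4 := by rw [← pow_mul]
      _ ≤ (P + n + 1) ^ 16 := Nat.pow_le_pow_right (by omega) (by norm_num)
      _ ≤ 2 ^ n := hR16

end Pool.Agent.Lib.MP_ff3ed7_lc.Prg2
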