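import Pool.Agent.Lib.MP_ff3ed7_lc.Prg2.Spec

/-!
MP_ff3ed7_lc, Prg2, module Pik: the choice of samples and replies
-/

namespace Pool.Agent.Lib.MP_ff3ed7_lc.Prg2

open Finset
open Pool.Agent.Lib.MP_ff3ed7_lc.Prg (frac qf path gr cut)

private theorem pair {Ω Ω' : Type} [Fintype Ω] [Fintype Ω'] [Nonempty Ω] [Nonempty Ω']
    (E E' : Ω → Ω' → Prop) (h1 : ∀ z, frac (fun ω => E ω z) ≤ 1 / 8)
    (h2 : ∀ ω, frac (fun z => E' ω z) ≤ 1 / 4) : ∃ ω z, ¬ E ω z ∧ ¬ E' ω z := by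
  have h3 : frac (fun p : Ω × Ω' => E' p.1 p.2) ≤ 1 / 4 := Prg.frac_prod_le (by norm_num) h2
  have h4 : frac (fun p : Ω' × Ω => E p.2 p.1) ≤ 1 / 8 :=
    Prg.frac_prod_le (E := fun z ω => E ω z) (by norm_num) h1
  have h5 : frac (fun p : Ω × Ω' => E p.1 p.2) ≤ 1 / 8 := by
    have h6 := Prg.frac_equiv (Equiv.prodComm Ω Ω') (fun p : Ω' × Ω => E p.2 p.1)
    rw [← h6] at h4
    exact h4
  obtain ⟨⟨ω, z⟩, h⟩ := Prg.exists_not_of_frac_lt_one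
    (E := fun p : Ω × Ω' => E p.1 p.2 ∨ E' p.1 p.2)
    (lt_of_le_of_lt (Prg.frac_or_le _ _) (by linarith))
  rw [not_or] at h
  exact ⟨ω, z, h⟩

theorem tPik (hLoc : S_Loc) (hSel : S_Sel) (hWgB : S_WgB) (hCtI : S_CtI) : S_Pik := by
  intro X t A h6 hMM ht hN hm hT hC
  have hM' : (0 : ℝ) < X.M' := by
    have : 0 < X.M' := by omega
    exact_mod_cast this
  have hcard : (Fintype.card (((Fin X.n → Bool) → Bool) × X.Cer) : ℝ) ≤ 2 ^ (4 ^ X.M) := by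
    refine (hCtI X).trans ?_
    exact pow_le_pow_right₀ (by norm_num) hC
  have hw := fun τ : X.Cer => hWgB X τ t ht hN hm
  have hB : ∀ ω : (N : Fin X.M') → Fin (16 * (N : ℕ) ^ 6) → Fin N → Bool,
      frac (fun z : (r : Fin X.M') → Bool → Row r → Val r =>
        ¬ ∀ i : ((Fin X.n → Bool) → Bool) × X.Cer, ∃ K,
          Cl X.Y (pat X.k X.n i.1) (exS ω) (exR z) (X.w i.2) (1 / X.M') K X.M (X.M' - X.M) A) ≤
        1 / 4 := by
    intro ω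
    refine hSel (((Fin X.n → Bool) → Bool) × X.Cer) X.Y (fun i => pat X.k X.n i.1) (exS ω)
      (fun i => X.w i.2) (1 / X.M') t X.M X.M' A (by positivity) (fun i => (hw i.2).1)
      (fun i => (hw i.2).2) h6 hMM hcard ?_
    rw [div_div_eq_mul_div, div_one]
    exact hT
  have hA : ∀ z : (r : Fin X.M') → Bool → Row r → Val r,
      frac (fun ω : (N : Fin X.M') → Fin (16 * (N : ℕ) ^ 6) → Fin N → Bool =>
        ∃ N, X.M ≤ N ∧ N < X.M' ∧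
          Bad X.Y.g (full A X.M X.M' (exS ω) (exR z)) N (1 / (2 * N))) ≤ 1 / 8 := fun z =>
    hLoc X.ct X.Y.g X.M X.M' A (exR z) X.Y.hg h6
  obtain ⟨ω, z, h1, h2⟩ := pair _ _ hA hB
  rw [not_not] at h2
  refine ⟨exS ω, exR z, fun N hN1 hN2 h3 => h1 ⟨N, hN1, hN2, h3⟩, fun f τ => h2 (f, τ)⟩

end Pool.Agent.Lib.MP_ff3ed7_lc.Prg2
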