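import Pool.Agent.Lib.MP_ff3ed7_lc.Prg2.Spec

/-!
The operation `put`: contents of the samples and of the cells of one level.
-/

namespace Pool.Agent.Lib.MP_ff3ed7_lc.Prg2

open Finset
open Pool.Agent.Lib.MP_ff3ed7_lc.Prg (frac qf path gr cut)

namespace Put

private theorem ofFn_getD {n : ℕ} (l : List Bool) (h : l.length = n) :
    List.ofFn (fun i : Fin n => l.getD i false) = l := by
  subst h
  refine List.ext_getElem (by simp) ?_
  intro i h1 h2
  simp

private theorem getD_ofFn {n : ℕ} (v : Fin n → Bool) :
    (fun i : Fin n => (List.ofFn v).getD i false) = v := by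
  funext i
  simp [List.getD_eq_getElem?_getD]

/-- the cell of a row and a reply -/
private def cel {r : ℕ} (s : Bool) (c : Row r) (y : Val r) : Cel :=
  ⟨c.1.1.1, s, c.1.1.2.1, c.1.1.2.2, List.ofFn c.2, List.ofFn y⟩

private theorem cel_str {r : ℕ} (s : Bool) (c : Row r) (y : Val r) :
    (cel s c y).str = cstr s c y := rfl

private theorem cel_ok {r : ℕ} (s : Bool) (c : Row r) (y : Val r) : (cel s c y).Ok := by
  have h := c.1.2
  constructor
  · change (List.ofFn c.2).length = 4 * rk c.1.1.2.1 c.1.1.2.2.length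
    rw [List.length_ofFn, h]
  · change (List.ofFn y).length = 4 * rk c.1.1.2.1 c.1.1.2.2.length
    rw [List.length_ofFn, h]

private theorem dec_cstr (hStr : S_Str) {r : ℕ} (s : Bool) (c : Row r) (y : Val r) :
    dec (cstr s c y) = some (.inr (cel s c y)) := by
  rw [← cel_str]
  exact hStr.2.1 _ (cel_ok s c y)

private theorem lev_samp (hStr : S_Str) (N i b : ℕ) : lev (samp N i b) = N := by
  unfold lev
  rw [hStr.1 N i b]

private theorem lev_cstr (hStr : S_Str) {r : ℕ} (s : Bool) (c : Row r) (y : Val r) :
    lev (cstr s c y) = r := by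
  unfold lev
  rw [dec_cstr hStr s c y]
  exact c.1.2

private theorem cstr_inj (hStr : S_Str) {r : ℕ} (s s' : Bool) (c c' : Row r) (y y' : Val r)
    (h : cstr s c y = cstr s' c' y') : s = s' ∧ c = c' ∧ y = y' := by
  have h1 := dec_cstr hStr s c y
  rw [h, dec_cstr hStr s' c' y'] at h1
  have h2 : cel s' c' y' = cel s c y := by
    injection h1 with h1
    injection h1
  obtain ⟨⟨⟨e, k, x⟩, hc⟩, v⟩ := c
  obtain ⟨⟨⟨e', k', x'⟩, hc'⟩, v'⟩ := c'
  unfold cel at h2
  simp only [Cel.mk.injEq] at h2
  obtain ⟨h3, h4, h5, h6, h7, h8⟩ := h2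
  have h9 : v' = v := List.ofFn_injective h7
  have h10 : y' = y := List.ofFn_injective h8
  subst h3 h4 h5 h6 h9 h10
  exact ⟨rfl, rfl, rfl⟩

private theorem put_inr (r : ℕ) (A : Orc) (ω : Fin (16 * r ^ 6) → Fin r → Bool)
    (B : Bool → Row r → Val r → Bool) (u : List Bool) (c : Cel) (hu : lev u = r)
    (hd : dec u = some (.inr c)) (hl : rk c.k c.x.length = r) :
    put r A ω B u = B c.s (⟨(c.e, c.k, c.x), hl⟩, fun i => c.v.getD i false)
      (fun i => c.y.getD i false) := by
  unfold put
  rw [if_pos hu, hd]
  simp only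
  rw [dif_pos hl]

end Put

open Put in
theorem tPut (hStr : S_Str) : S_Put := by
  refine ⟨lev_samp hStr, fun r s c y => lev_cstr hStr s c y,
    fun r s s' c c' y y' h => cstr_inj hStr s s' c c' y y' h, ?_, ?_, ?_, ?_⟩
  · intro r A ω B u hu
    unfold put
    rw [if_neg hu]
  · intro r A ω B i b
    unfold put
    rw [if_pos (lev_samp hStr r i b), hStr.1 r i b]
    simp only
    rw [dif_pos ⟨i.2, b.2⟩]
  · intro r A ω B s c y
    refine (put_inr r A ω B (cstr s c y) (cel s c y) (lev_cstr hStr s c y) (dec_cstr hStr s c y)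
      c.1.2).trans ?_
    have h1 := getD_ofFn c.2
    have h2 := getD_ofFn y
    change B s (c.1, fun i => (List.ofFn c.2).getD i false)
      (fun i => (List.ofFn y).getD i false) = B s c y
    rw [h1, h2]
  · intro r A A' ω B B' u hr hu hne
    cases hd : dec u with
    | none =>
      exfalso
      unfold lev at hu
      rw [hd] at hu
      simp only at hu
      omega
    | some d =>
      cases d with
      | inl p =>
        exfalso
        apply hne
        unfold put
        rw [if_pos hu, if_pos hu, hd]
      | inr c =>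
        obtain ⟨hok, hstr⟩ := hStr.2.2.2.1 u c hd
        have hl : rk c.k c.x.length = r := by
          unfold lev at hu
          rw [hd] at hu
          exact hu
        refine ⟨c.s, (⟨(c.e, c.k, c.x), hl⟩, fun i => c.v.getD i false),
          fun i => c.y.getD i false, ?_, ?_⟩
        · rw [← hstr]
          unfold cstr Cel.str
          rw [ofFn_getD c.v (by rw [hok.1, hl]), ofFn_getD c.y (by rw [hok.2, hl])]
        · intro he
          apply hne
          rw [put_inr r A ω B u c hu hd hl, put_inr r A' ω B' u c hu hd hl]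
          exact he

end Pool.Agent.Lib.MP_ff3ed7_lc.Prg2
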