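import Pool.Agent.Lib.MP_ff3ed7_lc.Prg2.Spec

/-!
The number of rows of one level (`S_Row`).
-/

namespace Pool.Agent.Lib.MP_ff3ed7_lc.Prg2

open Finset
open Pool.Agent.Lib.MP_ff3ed7_lc.Prg (frac qf path gr cut)

namespace Row

private theorem geo (n : ℕ) : ∑ i : Fin n, 2 ^ (i : ℕ) + 1 = 2 ^ n := by
  rw [Fin.sum_univ_eq_sum_range (fun i => 2 ^ i) n]
  induction n with
  | zero => rfl
  | succ n ih => rw [sum_range_succ, add_right_comm, ih, pow_succ]; ring

private theorem le_of_rk {k n r : ℕ} (h : rk k n = r) : k < r + 1 ∧ n < r + 1 := by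
  unfold rk at h
  constructor <;> omega

/-- The code of a table. -/
private def code (r : ℕ) (q : Tab r) : Bool × Fin (r + 1) × (Σ l : Fin (r + 1), (Fin l → Bool)) :=
  (q.1.1, ⟨q.1.2.1, (le_of_rk q.2).1⟩, ⟨⟨q.1.2.2.length, (le_of_rk q.2).2⟩, fun i => q.1.2.2.get i⟩)

private theorem code_inj (r : ℕ) : Function.Injective (code r) := by
  rintro ⟨⟨e, k, x⟩, h⟩ ⟨⟨e', k', x'⟩, h'⟩ heq
  have h1 : e = e' := congrArg (fun p => p.1) heq
  have h2 : k = k' := congrArg (fun p => (p.2.1 : ℕ)) heq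
  have h3 : x = x' := by
    have := congrArg (fun p => List.ofFn p.2.2.2) heq
    simpa [code] using this
  subst h1 h2 h3
  rfl

private theorem small {r : ℕ} (h : 5 ≤ r) : 4 * (r + 1) ≤ 2 ^ r := by
  induction r, h using Nat.le_induction with
  | base => norm_num
  | succ n hn ih => rw [pow_succ]; omega

end Row

theorem tRow : S_Row := by
  intro r hr
  have h1 : Fintype.card (Tab r) ≤
      Fintype.card (Bool × Fin (r + 1) × (Σ l : Fin (r + 1), (Fin l → Bool))) :=
    Fintype.card_le_of_injective _ (Row.code_inj r)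
  rw [Fintype.card_prod, Fintype.card_prod, Fintype.card_bool, Fintype.card_fin,
    Fintype.card_sigma] at h1
  have h2 : ∑ l : Fin (r + 1), Fintype.card (Fin (l : ℕ) → Bool) + 1 = 2 ^ (r + 1) := by
    rw [← Row.geo (r + 1)]
    congr 1
    exact sum_congr rfl fun l _ => by simp
  have h3 : Fintype.card (Val r) = 2 ^ (4 * r) := by
    unfold Val
    simp
  have h4 : Fintype.card (Tab r) + 1 ≤ 2 * (r + 1) * 2 ^ (r + 1) := by
    rw [← h2, mul_add, mul_one]
    have : 1 ≤ 2 * (r + 1) := by omega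
    nlinarith [h1]
  have h5 : Fintype.card (Row r) = Fintype.card (Tab r) * 2 ^ (4 * r) := by
    rw [← h3]
    exact Fintype.card_prod _ _
  rw [h5]
  have h6 : 1 ≤ 2 ^ (4 * r) := Nat.one_le_two_pow
  calc Fintype.card (Tab r) * 2 ^ (4 * r) + 1 ≤ (Fintype.card (Tab r) + 1) * 2 ^ (4 * r) := by
        rw [add_mul, one_mul]; omega
    _ ≤ (2 * (r + 1) * 2 ^ (r + 1)) * 2 ^ (4 * r) := Nat.mul_le_mul_right _ h4
    _ = 4 * (r + 1) * 2 ^ (5 * r) := by
        rw [pow_succ, show 5 * r = r + 4 * r by ring, pow_add]; ring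
    _ ≤ 2 ^ r * 2 ^ (5 * r) := Nat.mul_le_mul_right _ (Row.small hr)
    _ = 2 ^ (6 * r) := by rw [← pow_add]; congr 1; ring

end Pool.Agent.Lib.MP_ff3ed7_lc.Prg2
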