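import Pool.Agent.Lib.MP_ff3ed7_lc.Prg2.Spec

/-!
`Prg2`, `Run`: the levels which are not filled do not change, composition of two runs, and the value at
a level which is filled.
-/

namespace Pool.Agent.Lib.MP_ff3ed7_lc.Prg2

open Finset
open Pool.Agent.Lib.MP_ff3ed7_lc.Prg (frac qf path gr cut)

private theorem run_out (hPut : S_Put) (Y : World) (P : ℕ → List Bool → Bool) (ω : Smp) (z : Rep)
    (K : Exc) (u : List Bool) (j : ℕ) : ∀ (r : ℕ) (A : Orc), lev u < r ∨ r + j ≤ lev u →
      run Y P ω z K r j A u = A u := by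
  induction j with
  | zero => intro r A _; rfl
  | succ j ih =>
    intro r A h
    have h1 : run Y P ω z K r (j + 1) A u
        = run Y P ω z K (r + 1) j (step Y P r A (ω r) (z r) (K r)) u := rfl
    rw [h1, ih (r + 1) _ (by omega)]
    unfold step
    exact hPut.2.2.2.1 r A _ _ u (by omega)

private theorem run_comp (Y : World) (P : ℕ → List Bool → Bool) (ω : Smp) (z : Rep)
    (K : Exc) (j i : ℕ) : ∀ (r : ℕ) (A : Orc),
      run Y P ω z K r (i + j) A = run Y P ω z K (r + i) j (run Y P ω z K r i A) := by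
  induction i with
  | zero => intro r A; rw [Nat.zero_add]; rfl
  | succ i ih =>
    intro r A
    have h1 : i + 1 + j = (i + j) + 1 := by omega
    have h2 : r + (i + 1) = r + 1 + i := by omega
    rw [h1, h2]
    exact ih (r + 1) (step Y P r A (ω r) (z r) (K r))

private theorem run_in (hPut : S_Put) (Y : World) (P : ℕ → List Bool → Bool) (ω : Smp) (z : Rep)
    (K : Exc) (r j : ℕ) (A : Orc) (u : List Bool) (n : ℕ) (hn : n = lev u) (h1 : r ≤ n)
    (h2 : n < r + j) :
    run Y P ω z K r j A u = step Y P n (run Y P ω z K r (n - r) A) (ω n) (z n) (K n) u := by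
  obtain ⟨i, rfl⟩ := Nat.exists_eq_add_of_le h1
  obtain ⟨k, rfl⟩ : ∃ k, j = i + (k + 1) := ⟨j - i - 1, by omega⟩
  rw [run_comp Y P ω z K (k + 1) i r A, Nat.add_sub_cancel_left]
  have h3 : run Y P ω z K (r + i) (k + 1) (run Y P ω z K r i A) u
      = run Y P ω z K (r + i + 1) k
        (step Y P (r + i) (run Y P ω z K r i A) (ω (r + i)) (z (r + i)) (K (r + i))) u := rfl
  rw [h3]
  exact run_out hPut Y P ω z K u k (r + i + 1) _ (by omega)

theorem tRun (hPut : S_Put) : S_Run := by
  intro Y P ω z K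
  exact ⟨fun r j A u h => run_out hPut Y P ω z K u j r A h,
    fun r i j A => run_comp Y P ω z K j i r A,
    fun r j A u h1 h2 => run_in hPut Y P ω z K r j A u (lev u) rfl h1 h2⟩

end Pool.Agent.Lib.MP_ff3ed7_lc.Prg2
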