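import Pool.Agent.Lib.MP_ff3ed7_lc.Prg2.Spec

/-!
`T**`: closing sets exist
-/

namespace Pool.Agent.Lib.MP_ff3ed7_lc.Prg2

open Finset
open Pool.Agent.Lib.MP_ff3ed7_lc.Prg (frac qf path gr cut)

namespace Sel

private theorem nat_bound (r a m : ℕ) (h : m ≤ a) :
    m + 2 * r * (a - m) + (2 * r + 1) ≤ (2 * r + 1) * (a + 1) := by
  obtain ⟨d, rfl⟩ := Nat.exists_eq_add_of_le h
  rw [Nat.add_sub_cancel_left]
  have h1 : (2 * r + 1) * (m + d + 1) = 2 * r * m + m + (2 * r * d + d) + (2 * r + 1) := by ring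
  rw [h1]
  omega

private theorem pow_bound (r M : ℕ) (hM : 6 ≤ M) (hMr : M ≤ r) (c q : ℝ) (hq0 : 0 ≤ q)
    (_hc0 : 0 ≤ c) (hc : c ≤ 2 ^ (4 ^ M)) (hq : q ≤ 2 ^ (2 * M - 1)) :
    c * 2 ^ (2 * r * (4 ^ r - 4 ^ M)) * (q / 2 ^ (4 * r)) ^ (4 ^ r + 1) ≤
      (1 / 2 : ℝ) ^ (2 * r + 1) := by
  have h1 : q / 2 ^ (4 * r) ≤ (1 / 2 : ℝ) ^ (2 * r + 1) := by
    rw [div_le_iff₀ (by positivity)]
    refine hq.trans ?_
    have h2 : (2 : ℝ) ^ (4 * r) = 2 ^ (2 * r + 1) * 2 ^ (2 * r - 1) := by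
      rw [← pow_add]
      congr 1
      omega
    rw [h2, ← mul_assoc, ← mul_pow]
    norm_num
    exact pow_le_pow_right₀ (by norm_num) (by omega)
  have h2 : (q / 2 ^ (4 * r)) ^ (4 ^ r + 1) ≤ (1 / 2 : ℝ) ^ ((2 * r + 1) * (4 ^ r + 1)) := by
    rw [pow_mul (1 / 2 : ℝ) (2 * r + 1)]
    exact pow_le_pow_left₀ (by positivity) h1 _
  have h3 : c * 2 ^ (2 * r * (4 ^ r - 4 ^ M)) ≤ (2 : ℝ) ^ (4 ^ M + 2 * r * (4 ^ r - 4 ^ M)) := by
    rw [pow_add]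
    exact mul_le_mul_of_nonneg_right hc (by positivity)
  have h4 : 4 ^ M + 2 * r * (4 ^ r - 4 ^ M) + (2 * r + 1) ≤ (2 * r + 1) * (4 ^ r + 1) :=
    nat_bound r (4 ^ r) (4 ^ M) (Nat.pow_le_pow_right (by norm_num) hMr)
  calc c * 2 ^ (2 * r * (4 ^ r - 4 ^ M)) * (q / 2 ^ (4 * r)) ^ (4 ^ r + 1)
      ≤ (2 : ℝ) ^ (4 ^ M + 2 * r * (4 ^ r - 4 ^ M)) *
          (1 / 2 : ℝ) ^ ((2 * r + 1) * (4 ^ r + 1)) :=
        mul_le_mul h3 h2 (by positivity) (by positivity)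
    _ ≤ (2 : ℝ) ^ (4 ^ M + 2 * r * (4 ^ r - 4 ^ M)) *
          (1 / 2 : ℝ) ^ (4 ^ M + 2 * r * (4 ^ r - 4 ^ M) + (2 * r + 1)) :=
        mul_le_mul_of_nonneg_left (pow_le_pow_of_le_one (by norm_num) (by norm_num) h4)
          (by positivity)
    _ = (1 / 2 : ℝ) ^ (2 * r + 1) := by
        rw [pow_add (1 / 2 : ℝ), ← mul_assoc, ← mul_pow]
        norm_num

private theorem sum_half (N : ℕ) : ∑ r ∈ range N, (1 / 2 : ℝ) ^ (r + 1) = 1 - (1 / 2) ^ N := by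
  induction N with
  | zero => simp
  | succ n ih =>
    rw [Finset.sum_range_succ, ih]
    ring

end Sel

open Sel

theorem tSel (hLvB : S_LvB) (hInd : S_Ind) : S_Sel := by
  intro ι _ Y P ω w ε t M M' A hε hw ht hM hMM' hι hte
  rcases isEmpty_or_nonempty ι with he | ⟨⟨i0⟩⟩
  · have h1 : frac (fun z : (r : Fin M') → Bool → Row r → Val r =>
        ¬ ∀ i : ι, ∃ K, Cl Y (P i) ω (exR z) (w i) ε K M (M' - M) A) ≤
        frac (fun _ : (r : Fin M') → Bool → Row r → Val r => False) :=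
      Prg.frac_mono fun z h => h fun i => (he.false i).elim
    refine h1.trans ?_
    simp [frac]
  have ht0 : 0 ≤ t := by simpa using ht i0 A ∅
  have hq0 : 0 ≤ t / ε := div_nonneg ht0 hε.le
  have h1 : frac (fun z : (r : Fin M') → Bool → Row r → Val r =>
      ¬ ∀ i : ι, ∃ K, Cl Y (P i) ω (exR z) (w i) ε K M (M' - M) A) ≤
      frac (fun z : (r : Fin M') → Bool → Row r → Val r => ∃ r : Fin M', M ≤ (r : ℕ) ∧
        ∃ (i : ι) (K : Exc), (∀ j, M ≤ j → j < r → (K j).card ≤ 4 ^ j) ∧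
        ¬ Lv Y (P i) ω (exR z) (w i) ε r (M' - (r + 1))
          (run Y (P i) ω (exR z) K M (r - M) A) (exR z r)) := by
    apply Prg.frac_mono
    intro z hz
    by_contra hcon
    apply hz
    intro i
    apply hInd Y (P i) ω (exR z) (w i) ε M M' A hMM'
    intro r hr hr' K hK
    by_contra hL
    exact hcon ⟨⟨r, hr'⟩, hr, i, K, hK, hL⟩
  refine h1.trans ((Prg.frac_exists_le _).trans ?_)
  have h2 : ∀ r : Fin M', frac (fun z : (r : Fin M') → Bool → Row r → Val r => M ≤ (r : ℕ) ∧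
        ∃ (i : ι) (K : Exc), (∀ j, M ≤ j → j < r → (K j).card ≤ 4 ^ j) ∧
        ¬ Lv Y (P i) ω (exR z) (w i) ε r (M' - (r + 1))
          (run Y (P i) ω (exR z) K M (r - M) A) (exR z r)) ≤ 1 / 4 * (1 / 2) ^ ((r : ℕ) + 1) := by
    intro r
    rcases Nat.lt_or_ge (r : ℕ) M with hr | hr
    · refine (Prg.frac_mono (E' := fun _ => False) fun z h => ?_).trans ?_
      · exact absurd h.1 (by omega)
      · have : frac (fun _ : (r : Fin M') → Bool → Row r → Val r => False) = 0 := by simp [frac]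
        rw [this]
        positivity
    · refine (Prg.frac_mono fun z h => h.2).trans ?_
      refine (hLvB ι Y P ω w ε t M M' r A hε hw ht hM hr r.2).trans ?_
      refine (pow_bound r M hM hr _ _ hq0 (by positivity) hι hte).trans ?_
      have h3 : 2 * (r : ℕ) + 1 = 2 + (r - 2 + (r + 1)) := by omega
      rw [h3, pow_add, pow_add]
      have h4 : (1 / 2 : ℝ) ^ ((r : ℕ) - 2) ≤ 1 := pow_le_one₀ (by norm_num) (by norm_num)
      have h5 : (0 : ℝ) ≤ (1 / 2) ^ ((r : ℕ) + 1) := by positivity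
      have h6 : (1 / 2 : ℝ) ^ ((r : ℕ) - 2) * (1 / 2) ^ ((r : ℕ) + 1) ≤
          (1 / 2) ^ ((r : ℕ) + 1) := mul_le_of_le_one_left h5 h4
      norm_num at h6 ⊢
      linarith
  refine (Finset.sum_le_sum fun r _ => h2 r).trans ?_
  rw [← Finset.mul_sum, Fin.sum_univ_eq_sum_range (fun r => (1 / 2 : ℝ) ^ (r + 1)) M', sum_half]
  have h3 : (0 : ℝ) ≤ (1 / 2) ^ M' := by positivity
  linarith

end Pool.Agent.Lib.MP_ff3ed7_lc.Prg2
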