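import Pool.Agent.Lib.MP_ff3ed7_lc.Prg2.Spec

/-!
One stage of the construction (`S_Sta`).
-/

set_option autoImplicit false

namespace Pool.Agent.Lib.MP_ff3ed7_lc.Prg2

open Finset
open Pool.Agent.Lib.MP_ff3ed7_lc.Prg (frac qf path gr cut)

namespace Sta

theorem agr_symm {M : ℕ} {A A' : Orc} (h : Agr M A A') : Agr M A' A :=
  fun u hu => (h u hu).symm

theorem getD_ofFn {n : ℕ} (x : Fin n → Bool) :
    (fun i : Fin n => (List.ofFn x).getD i false) = x := by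
  funext i
  simp [List.getD_eq_getElem?_getD]

theorem pat_self (k n : ℕ) (f : (Fin n → Bool) → Bool) (x : Fin n → Bool) :
    pat k n f k (List.ofFn x) = f x := by
  unfold pat
  rw [if_pos ⟨rfl, List.length_ofFn ..⟩, getD_ofFn]

theorem bd (W : Machine) (h : List Bool) {n : ℕ} (x : Fin n → Bool) :
    (W.run h (List.ofFn x)).Bounded (W.t n) := by
  have := W.bounded h (List.ofFn x)
  rwa [List.length_ofFn] at this

end Sta

open Sta in
theorem tSta (hPar : S_Par) (hAdv : Prg.S_Adv) (hFil : S_Fil) (hPik : S_Pik) (hWgB : S_WgB)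
    (hCer : S_Cer) (hFCh : S_FCh) (hSum : S_Sum) (hGen : S_Gen) (hTes : S_Tes) (hVld : S_Vld)
    (hBdF : S_BdF) (hInU : S_InU) (hClU : S_ClU) (hLoP : S_LoP) (ct : CT) : S_Sta := by
  intro Y W hW A M hM hV k B
  obtain ⟨n, hnB, hR0, hR6, T, hT0, hT1, hT2, hT3, hT4, hT5⟩ := hPar Y.g W.t hW k (M + 1) B
  obtain ⟨A₁, hA1, hV1⟩ := hFil ct Y A M (rk k n) hM (by omega) hV
  obtain ⟨hmem, hcard⟩ := hAdv (n ^ k + k)
  have hcardR : ((Prg.advs (n ^ k + k)).card : ℝ) ≤ 2 ^ (n ^ k + k + 1) := by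
    exact_mod_cast hcard.le
  let X : Tst := { Y := Y, ct := ct, W := W, k := k, n := n, M := rk k n
                   M' := rk k n + W.t n + 1, Adv := Prg.advs (n ^ k + k) }
  have hMM : X.M ≤ X.M' := by
    show rk k n ≤ rk k n + W.t n + 1
    omega
  have hM1 : 1 ≤ X.M := by
    show 1 ≤ rk k n
    omega
  have hc2 : 12 * (X.W.t X.n : ℝ) * (X.Adv.card * 2 ^ X.n) ≤ T := by
    refine le_trans ?_ hT2
    refine mul_le_mul_of_nonneg_left ?_ (by positivity)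
    exact mul_le_mul_of_nonneg_right hcardR (by positivity)
  have hc3 : T * X.M' ≤ 2 ^ (2 * X.M - 1) := hT3
  have hc4 : 2 ^ X.n + X.Adv.card * (2 ^ X.n * (1 + 1152 * (X.W.t X.n + 1) * X.W.t X.n)) ≤
      4 ^ X.M := by
    refine le_trans ?_ hT4
    exact Nat.add_le_add_left (Nat.mul_le_mul_right _ hcard.le) _
  obtain ⟨ω, z, hz1, hz2⟩ := hPik X T A₁ hR6 hMM hT0 hT1 hc2 hc3 hc4
  have hcer : ∀ (a : ↥X.Adv) (x : Fin X.n → Bool), ∃ c : Ct (X.W.t X.n),
      Holds (X.W.run a (List.ofFn x)) (full A₁ X.M X.M' ω z) c := fun a x =>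
    hCer _ _ _ (bd W a x)
  choose τ hτ using hcer
  obtain ⟨f, hf⟩ := hFCh n X.Adv (fun a x => (τ a x).1) (by
    refine lt_of_le_of_lt ?_ hT5
    exact mul_le_mul_of_nonneg_right hcardR (by positivity))
  obtain ⟨K, hK⟩ := hz2 f τ
  obtain ⟨hw0, hwt⟩ := hWgB X τ T hT0 hT1 hc2
  obtain ⟨D, hD1, hD2⟩ := hSum X.Y (pat X.k X.n f) ω z K (X.w τ) (1 / X.M') X.M X.M' A₁ hM1 hMM
    hw0 hK
  have hD3 : ∑ u ∈ D, X.w τ (run X.Y (pat X.k X.n f) ω z K X.M (X.M' - X.M) A₁) u ≤ 1 := by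
    refine le_trans hD2 ?_
    have h1 : (0 : ℝ) < X.M' := by
      have : 0 < X.M' := by omega
      exact_mod_cast this
    rw [mul_one_div, div_le_one h1]
    exact_mod_cast Nat.sub_le _ _
  obtain ⟨ht1, ht2⟩ := hTes X τ (run X.Y (pat X.k X.n f) ω z K X.M (X.M' - X.M) A₁)
    (full A₁ X.M X.M' ω z) D hM1 (fun N h1 h2 i => by
      obtain ⟨g1, g2⟩ := hGen X.Y (pat X.k X.n f) ω z K X.M X.M' N A₁ h1 h2 i
      rw [g1, g2]) hD1 hD3 hz1
  obtain ⟨hv1, hv2⟩ := hVld ct X.Y (pat X.k X.n f) ω z K X.M X.M' A₁ hM1 hMM (fun r h1 h2 =>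
    (hClU X.Y (pat X.k X.n f) ω z (X.w τ) (1 / X.M') K X.M (X.M' - X.M) A₁ hK r h1
      (by omega)).1)
  have hVR : Valid Y (run X.Y (pat X.k X.n f) ω z K X.M (X.M' - X.M) A₁) (rk k n) :=
    (hLoP ct Y (rk k n) A₁ _ hM1 hv1).2.2.2.2 hV1
  have hM'1 : 1 ≤ X.M' := hM1.trans hMM
  refine ⟨X.M', run X.Y (pat X.k X.n f) ω z K X.M (X.M' - X.M) A₁, ?_, ?_, ⟨?_, ?_⟩, ?_⟩
  · show M < rk k n + W.t n + 1
    omega
  · intro u hu
    rw [hA1 u hu]
    exact hv1 u (by show lev u < rk k n; omega)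
  · intro N h6 hN
    rcases lt_or_ge N (rk k n) with h | h
    · exact hVR.1 N h6 h
    · exact (hBdF Y.g _ N (by omega)).1 (ht1 N h hN)
  · intro k' x hx
    rcases lt_or_ge (rk k' x.length) (rk k n) with h | h
    · exact hVR.2 k' x h
    · exact ⟨hv2 true k' x h hx, _, hv2 false k' x h hx⟩
  · intro A'' hag
    refine ⟨n, hnB, fun h hh => ?_⟩
    have haA : h ∈ X.Adv := (hmem h).mpr hh
    refine le_trans ?_ (hf ⟨h, haA⟩)
    have key : ∀ x : Fin n → Bool, (∃ b, Inst A'' false k (List.ofFn x) b ∧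
        (W.run h (List.ofFn x)).Decides A'' b) → f x = (τ ⟨h, haA⟩ x).1 := by
      rintro x ⟨b, hb1, hb2⟩
      obtain ⟨l1, -, l3, -, -⟩ := hLoP ct Y X.M' A'' _ hM'1 (agr_symm hag)
      have hlen : (List.ofFn x).length = n := List.length_ofFn ..
      have hi1 := l3 false k (List.ofFn x) b (by
        rw [hlen]
        show rk k n < rk k n + W.t n + 1
        omega) hb1
      have hd1 := l1 (W.run h (List.ofFn x)) (W.t n) b (by
        show W.t n ≤ rk k n + W.t n + 1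
        omega) (bd W h x) hb2
      have hi2 := hv2 false k (List.ofFn x) (by rw [hlen]) (by
        rw [hlen]
        show rk k n < rk k n + W.t n + 1
        omega)
      have hb : b = f x := by
        rw [hInU _ _ _ _ _ _ hi1 hi2]
        exact pat_self k n f x
      have hne : b ≠ !(τ ⟨h, haA⟩ x).1 := by
        intro hc
        exact ht2 ⟨h, haA⟩ x (hτ ⟨h, haA⟩ x) (hc ▸ hd1)
      rw [← hb]
      cases b <;> cases h3 : (τ ⟨h, haA⟩ x).1 <;> simp_all
    have hle : Nat.card {x : Fin n → Bool // ∃ b, Inst A'' false k (List.ofFn x) b ∧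
        (W.run h (List.ofFn x)).Decides A'' b} ≤
        Nat.card {x : Fin n → Bool // f x = (τ ⟨h, haA⟩ x).1} :=
      Nat.card_le_card_of_injective (fun x => ⟨x.1, key x.1 x.2⟩) (by
        rintro ⟨x, hx⟩ ⟨y, hy⟩ hxy
        simpa using hxy)
    exact_mod_cast hle

end Pool.Agent.Lib.MP_ff3ed7_lc.Prg2
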