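import Pool.Agent.Lib.MP_ff3ed7_lc.Prg2.Spec

/-!
MP_ff3ed7_lc, project T**, module Str: strings and levels.
-/

namespace Pool.Agent.Lib.MP_ff3ed7_lc.Prg2

open Finset
open Pool.Agent.Lib.MP_ff3ed7_lc.Prg (frac qf path gr cut)

namespace Str

theorem blk : ∀ (a a' : ℕ) (s s' : List Bool),
    List.replicate a false ++ true :: s = List.replicate a' false ++ true :: s' →
    a = a' ∧ s = s' := by
  intro a
  induction a with
  | zero =>
    intro a' s s' h
    cases a' with
    | zero => simpa using h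
    | succ n => simp [List.replicate_succ] at h
  | succ m ih =>
    intro a' s s' h
    cases a' with
    | zero => simp [List.replicate_succ] at h
    | succ n =>
      simp only [List.replicate_succ, List.cons_append, List.cons.injEq, true_and] at h
      obtain ⟨h1, h2⟩ := ih n s s' h
      exact ⟨by rw [h1], h2⟩

theorem samp_inj {N i b N' i' b' : ℕ} (h : samp N i b = samp N' i' b') :
    N = N' ∧ i = i' ∧ b = b' := by
  unfold samp at h
  rw [List.cons.injEq] at h
  obtain ⟨h1, h2⟩ := blk _ _ _ _ h.2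
  obtain ⟨h3, h4⟩ := blk _ _ _ _ h2
  refine ⟨h1, h3, ?_⟩
  simpa using congrArg List.length h4

theorem samp_len (N i b : ℕ) : (samp N i b).length = N + i + b + 3 := by
  simp only [samp, List.length_cons, List.length_append, List.length_replicate]
  omega

theorem cell_inj {c c' : Cel} (hc : c.Ok) (hc' : c'.Ok) (h : c.str = c'.str) : c = c' := by
  obtain ⟨e, s, k, x, v, y⟩ := c
  obtain ⟨e', s', k', x', v', y'⟩ := c'
  simp only [Cel.Ok] at hc hc'
  simp only [Cel.str, cell, List.cons.injEq, true_and] at h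
  obtain ⟨h1, h2, h3⟩ := h
  obtain ⟨h4, h5⟩ := blk _ _ _ _ h3
  obtain ⟨h6, h7⟩ := blk _ _ _ _ h5
  obtain ⟨h8, h9⟩ := List.append_inj h7 h6
  subst h1 h2 h4 h8
  obtain ⟨h10, h11⟩ := List.append_inj h9 (by rw [hc.1, hc'.1])
  subst h10 h11
  rfl

theorem samp_ne (N i b : ℕ) (c : Cel) : samp N i b ≠ c.str := by
  intro h
  simp [samp, Cel.str, cell] at h

theorem cell_len (c : Cel) (hc : c.Ok) : rk c.k c.x.length < c.str.length := by
  obtain ⟨e, s, k, x, v, y⟩ := c
  simp only [Cel.Ok] at hc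
  obtain ⟨h1, h2⟩ := hc
  simp only [Cel.str, cell, List.length_cons, List.length_append, List.length_replicate, h1, h2]
  omega

theorem dec_samp (N i b : ℕ) : dec (samp N i b) = some (.inl (N, i, b)) := by
  have h : ∃ p : ℕ × ℕ × ℕ, samp p.1 p.2.1 p.2.2 = samp N i b := ⟨(N, i, b), rfl⟩
  unfold dec
  rw [dif_pos h]
  have h1 := samp_inj h.choose_spec
  have h2 : h.choose = (N, i, b) := Prod.ext h1.1 (Prod.ext h1.2.1 h1.2.2)
  rw [h2]

theorem dec_cell (c : Cel) (hc : c.Ok) : dec c.str = some (.inr c) := by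
  have h0 : ¬ ∃ p : ℕ × ℕ × ℕ, samp p.1 p.2.1 p.2.2 = c.str := by
    rintro ⟨p, hp⟩
    exact samp_ne _ _ _ c hp
  have h : ∃ c' : Cel, c'.Ok ∧ c'.str = c.str := ⟨c, hc, rfl⟩
  unfold dec
  rw [dif_neg h0, dif_pos h]
  rw [cell_inj h.choose_spec.1 hc h.choose_spec.2]

theorem dec_inl (u : List Bool) (p : ℕ × ℕ × ℕ) (h : dec u = some (.inl p)) :
    samp p.1 p.2.1 p.2.2 = u := by
  by_cases h1 : ∃ p : ℕ × ℕ × ℕ, samp p.1 p.2.1 p.2.2 = u
  · obtain ⟨q, rfl⟩ := h1
    rw [dec_samp] at h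
    simp only [Option.some.injEq, Sum.inl.injEq] at h
    rw [← h]
  · exfalso
    unfold dec at h
    rw [dif_neg h1] at h
    split_ifs at h with h2
    simp at h

theorem dec_inr (u : List Bool) (c : Cel) (h : dec u = some (.inr c)) :
    c.Ok ∧ c.str = u := by
  by_cases h1 : ∃ p : ℕ × ℕ × ℕ, samp p.1 p.2.1 p.2.2 = u
  · exfalso
    obtain ⟨q, rfl⟩ := h1
    rw [dec_samp] at h
    simp at h
  · by_cases h2 : ∃ c : Cel, c.Ok ∧ c.str = u
    · obtain ⟨c', hc', rfl⟩ := h2
      rw [dec_cell c' hc'] at h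
      simp only [Option.some.injEq, Sum.inr.injEq] at h
      rw [← h]
      exact ⟨hc', rfl⟩
    · exfalso
      unfold dec at h
      rw [dif_neg h1, dif_neg h2] at h
      simp at h

theorem lev_lt (u : List Bool) (M : ℕ) (hM : 1 ≤ M) (hu : u.length ≤ M) : lev u < M := by
  unfold lev
  rcases hd : dec u with _ | p | c
  · exact hM
  · have h1 := dec_inl u p hd
    have h2 := congrArg List.length h1
    rw [samp_len] at h2
    change p.1 < M
    omega
  · obtain ⟨h1, h2⟩ := dec_inr u c hd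
    have h3 := cell_len c h1
    rw [h2] at h3
    change rk c.k c.x.length < M
    omega

end Str

/-- STRINGS -/
theorem tStr : S_Str :=
  ⟨Str.dec_samp, Str.dec_cell, Str.dec_inl, Str.dec_inr, Str.lev_lt⟩

end Pool.Agent.Lib.MP_ff3ed7_lc.Prg2
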