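import Pool.Agent.Lib.MP_ff3ed7_lc.Prg2.Spec

/-!
MP_ff3ed7_lc, world `T**`: the test works (`S_Tes`).
-/

namespace Pool.Agent.Lib.MP_ff3ed7_lc.Prg2

open Finset
open Pool.Agent.Lib.MP_ff3ed7_lc.Prg (frac qf path gr cut)

namespace Tes

theorem wM_nonneg {b : ℕ} (V : S2) (A : Orc) (c : Ct b) (u : List Bool) : 0 ≤ wM V A c u := by
  unfold wM
  apply mul_nonneg (by positivity)
  apply sum_nonneg
  intro i _
  split_ifs <;> exact Prg.qf_nonneg _ _ _

/-- The advantage of a circuit on two oracles which agree off `D`. -/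
theorem adv_le (ct : CT) {A A' : List Bool → Bool} {D : Finset (List Bool)}
    (h : ∀ u, u ∉ D → A u = A' u) (N G : ℕ) (C : Circ N G × (Fin G → Bool))
    (hg : ∀ i : Fin (16 * N ^ 6), gen A N i = gen A' N i) :
    |frac (fun ρ : Fin N → Bool => evalQ A C.1 C.2 ρ = true) -
        frac (fun i : Fin (16 * N ^ 6) => evalQ A C.1 C.2 (gen A N i) = true)| ≤
      |frac (fun ρ : Fin N → Bool => evalQ A' C.1 C.2 ρ = true) -
        frac (fun i : Fin (16 * N ^ 6) => evalQ A' C.1 C.2 (gen A' N i) = true)| +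
      (∑ u ∈ D, qf A (fun i : Fin (16 * N ^ 6) => ct.T N G C.1 C.2 (gen A N i)) u +
        ∑ u ∈ D, qf A (fun ρ : Fin N → Bool => ct.T N G C.1 C.2 ρ) u) := by
  have h1 := Prg.abs_frac_sub_le A A'
    (fun i : Fin (16 * N ^ 6) => ct.T N G C.1 C.2 (gen A N i)) D h
  have h2 := Prg.abs_frac_sub_le A A' (fun ρ : Fin N → Bool => ct.T N G C.1 C.2 ρ) D h
  simp only [ct.eval] at h1 h2
  have h0 : (fun i : Fin (16 * N ^ 6) => evalQ A' C.1 C.2 (gen A' N i) = true) =
      fun i : Fin (16 * N ^ 6) => evalQ A' C.1 C.2 (gen A N i) = true := by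
    funext i
    rw [hg i]
  rw [h0]
  obtain ⟨h3, h4⟩ := abs_le.1 h1
  obtain ⟨h5, h6⟩ := abs_le.1 h2
  refine abs_le.2 ⟨?_, ?_⟩
  · linarith [neg_abs_le (frac (fun ρ : Fin N → Bool => evalQ A' C.1 C.2 ρ = true) -
        frac (fun i : Fin (16 * N ^ 6) => evalQ A' C.1 C.2 (gen A N i) = true))]
  · linarith [le_abs_self (frac (fun ρ : Fin N → Bool => evalQ A' C.1 C.2 ρ = true) -
        frac (fun i : Fin (16 * N ^ 6) => evalQ A' C.1 C.2 (gen A N i) = true))]

end Tes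

open Tes in
/-- The test works. -/
theorem tTes (hOut : S_Out) : S_Tes := by
  intro X τ A J D hM hgen hAJ hsum hJ
  classical
  by_cases h : ∃ N, X.M ≤ N ∧ N < X.M' ∧ Bad X.Y.g A N (1 / N)
  · exfalso
    obtain ⟨N, C, h1, h2, hadv, e⟩ : ∃ (N : ℕ) (C : Circ N (X.Y.g N) × (Fin (X.Y.g N) → Bool)),
        X.M ≤ N ∧ N < X.M' ∧
        1 / (N : ℝ) < |frac (fun ρ : Fin N → Bool => evalQ A C.1 C.2 ρ = true) -
          frac (fun i : Fin (16 * N ^ 6) => evalQ A C.1 C.2 (gen A N i) = true)| ∧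
        ∀ u, X.w τ A u = wC X.ct A N (X.Y.g N) C u := by
      refine ⟨h.choose, h.choose_spec.2.2.choose, h.choose_spec.1, h.choose_spec.2.1,
        h.choose_spec.2.2.choose_spec, fun u => ?_⟩
      unfold Tst.w
      rw [dif_pos h]
    have hN : (0 : ℝ) < N := by
      have h3 : 0 < N := by omega
      exact_mod_cast h3
    have h3 := adv_le X.ct hAJ N _ C (hgen N h1 h2)
    simp only [e, wC, ← mul_sum, sum_add_distrib] at hsum
    have h4 : ∑ u ∈ D, qf A (fun i : Fin (16 * N ^ 6) => X.ct.T N _ C.1 C.2 (gen A N i)) u +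
        ∑ u ∈ D, qf A (fun ρ : Fin N → Bool => X.ct.T N _ C.1 C.2 ρ) u ≤ 1 / (2 * N) := by
      rw [le_div_iff₀ (by positivity)]
      linarith
    have h5 : 1 / (N : ℝ) = 1 / (2 * N) + 1 / (2 * N) := by
      field_simp
      norm_num
    exact hJ N h1 h2 ⟨C, by linarith⟩
  · refine ⟨fun N hN hN' hbad => h ⟨N, hN, hN', hbad⟩, ?_⟩
    intro a x hH
    refine hOut _ _ A J (τ a x) D hH hAJ (le_trans ?_ hsum)
    apply sum_le_sum
    intro u _
    have e : X.w τ A u =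
        ∑ a : ↥X.Adv, ∑ x : Fin X.n → Bool, wM (X.W.run a (List.ofFn x)) A (τ a x) u := by
      unfold Tst.w
      rw [dif_neg h]
    rw [e]
    calc wM (X.W.run a (List.ofFn x)) A (τ a x) u
        ≤ ∑ x : Fin X.n → Bool, wM (X.W.run a (List.ofFn x)) A (τ a x) u :=
          single_le_sum (f := fun x : Fin X.n → Bool =>
            wM (X.W.run a (List.ofFn x)) A (τ a x) u)
            (fun x _ => wM_nonneg _ _ _ _) (mem_univ x)
      _ ≤ _ := single_le_sum (f := fun a : ↥X.Adv => ∑ x : Fin X.n → Bool,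
            wM (X.W.run a (List.ofFn x)) A (τ a x) u)
            (fun a _ => sum_nonneg fun x _ => wM_nonneg _ _ _ _) (mem_univ a)

end Pool.Agent.Lib.MP_ff3ed7_lc.Prg2
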