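import Pool.Agent.Lib.MP_ff3ed7_lc.Prg2.Spec

/-!
The tables of a run are in order.
-/

namespace Pool.Agent.Lib.MP_ff3ed7_lc.Prg2

open Finset
open Pool.Agent.Lib.MP_ff3ed7_lc.Prg (frac qf path gr cut)

/-- The oracle after the levels less than `r` have been filled agrees with the final oracle on these
levels. -/
private theorem Vld.agr (hRun : S_Run) (Y : World) (P : ℕ → List Bool → Bool) (ω : Smp) (z : Rep)
    (K : Exc) (M M' r : ℕ) (A : Orc) (h1 : M ≤ r) (h2 : r ≤ M') :
    Agr r (run Y P ω z K M (r - M) A) (run Y P ω z K M (M' - M) A) := by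
  intro u hu
  obtain ⟨ha, hb, -⟩ := hRun Y P ω z K
  have h3 : M' - M = (r - M) + (M' - r) := by omega
  have h4 : M + (r - M) = r := by omega
  rw [h3, hb, h4, ha r _ _ u (Or.inl hu)]

/-- The contents of the cells of the table `(e, k, x)`. -/
private theorem Vld.acc (hPut : S_Put) (hRun : S_Run) (Y : World) (P : ℕ → List Bool → Bool)
    (ω : Smp) (z : Rep) (K : Exc) (M M' r : ℕ) (A : Orc) (h1 : M ≤ r) (h2 : r < M') (s : Bool)
    (c : Row r) (y : Val r) : run Y P ω z K M (M' - M) A (cstr s c y) = true ↔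
      z r s c = y ∧ (s = truth Y P (run Y P ω z K M (r - M) A) c.1.1 ∨ c ∈ K r) := by
  obtain ⟨-, -, hc⟩ := hRun Y P ω z K
  have hl : lev (cstr s c y) = r := hPut.2.1 r s c y
  have h3 := hc M (M' - M) A (cstr s c y) (by rw [hl]; exact h1) (by rw [hl]; omega)
  rw [hl] at h3
  rw [h3, step, hPut.2.2.2.2.2.1, Bool.and_eq_true, Bool.or_eq_true, decide_eq_true_iff,
    decide_eq_true_iff, decide_eq_true_iff]

theorem tVld (hPut : S_Put) (hRun : S_Run) (hLoP : S_LoP) (_hStr : S_Str) : S_Vld := by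
  intro ct Y P ω z K M M' A hM hMM' hK
  refine ⟨fun u hu => ((hRun Y P ω z K).1 M (M' - M) A u (Or.inl hu)).symm, ?_⟩
  intro e k x h1 h2
  generalize hr : rk k x.length = r at h1 h2
  have hagr : Agr r (run Y P ω z K M (r - M) A) (run Y P ω z K M (M' - M) A) :=
    Vld.agr hRun Y P ω z K M M' r A h1 h2.le
  have htr : truth Y P (run Y P ω z K M (r - M) A) (e, k, x) =
      truth Y P (run Y P ω z K M (M' - M) A) (e, k, x) := by
    unfold truth
    rw [(hLoP ct Y r _ _ (hM.trans h1) hagr).2.2.2.1 k x hr.le]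
  subst hr
  have hacc : ∀ (s : Bool) (v y : Fin (4 * rk k x.length) → Bool),
      Acc (run Y P ω z K M (M' - M) A) e s k x v y ↔
        z (rk k x.length) s (⟨(e, k, x), rfl⟩, v) = y ∧
          (s = truth Y P (run Y P ω z K M (M' - M) A) (e, k, x) ∨
            ((⟨(e, k, x), rfl⟩, v) : Row (rk k x.length)) ∈ K (rk k x.length)) := by
    intro s v y
    rw [← htr]
    exact Vld.acc hPut hRun Y P ω z K M M' (rk k x.length) A h1 h2 s (⟨(e, k, x), rfl⟩, v) y
  constructor
  · intro v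
    refine ⟨z (rk k x.length) _ (⟨(e, k, x), rfl⟩, v), (hacc _ v _).2 ⟨rfl, Or.inl rfl⟩, ?_⟩
    intro y hy
    exact ((hacc _ v y).1 hy).1.symm
  · refine le_trans ?_ (hK _ h1 h2)
    have hin : ∀ v : {v // ∃ y, Acc (run Y P ω z K M (M' - M) A) e
        (!truth Y P (run Y P ω z K M (M' - M) A) (e, k, x)) k x v y},
        ((⟨(e, k, x), rfl⟩, v.1) : Row (rk k x.length)) ∈ K (rk k x.length) := by
      rintro ⟨v, y, hy⟩
      rcases ((hacc _ v y).1 hy).2 with h | h
      · exact absurd h (by simp)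
      · exact h
    rw [← Fintype.card_coe, ← Nat.card_eq_fintype_card]
    refine Nat.card_le_card_of_injective (fun v => ⟨_, hin v⟩) ?_
    intro v v' h
    have h3 := congrArg (fun c : ↥(K (rk k x.length)) => c.1.2) h
    exact Subtype.ext h3

end Pool.Agent.Lib.MP_ff3ed7_lc.Prg2
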