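import Pool.Agent.Lib.MP_ff3ed7_lc.Prg2.Spec

/-!
Weights of the test.
-/

namespace Pool.Agent.Lib.MP_ff3ed7_lc.Prg2

open Finset
open Pool.Agent.Lib.MP_ff3ed7_lc.Prg (frac qf path gr cut)

namespace WgB

theorem wC_nonneg (ct : CT) (A : Orc) (N G : ℕ) (C : Circ N G × (Fin G → Bool))
    (u : List Bool) : 0 ≤ wC ct A N G C u := by
  unfold wC
  have h1 := Prg.qf_nonneg A (fun i : Fin (16 * N ^ 6) => ct.T N G C.1 C.2 (gen A N i)) u
  have h2 := Prg.qf_nonneg A (fun ρ : Fin N → Bool => ct.T N G C.1 C.2 ρ) u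
  positivity

theorem sum_wC_le (ct : CT) (A : Orc) (N G : ℕ) (C : Circ N G × (Fin G → Bool))
    (D : Finset (List Bool)) : ∑ u ∈ D, wC ct A N G C u ≤ 4 * (N : ℝ) ^ 2 * 2 ^ G := by
  unfold wC
  rw [← mul_sum, sum_add_distrib]
  have h1 := Prg.sum_qf_le A (fun i : Fin (16 * N ^ 6) => ct.T N G C.1 C.2 (gen A N i))
    (N * 2 ^ G) (fun i => ct.depth N G C.1 C.2 (gen A N i)) D
  have h2 := Prg.sum_qf_le A (fun ρ : Fin N → Bool => ct.T N G C.1 C.2 ρ)
    (N * 2 ^ G) (fun ρ => ct.depth N G C.1 C.2 ρ) D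
  push_cast at h1 h2
  have hN : (0 : ℝ) ≤ 2 * (N : ℝ) := by positivity
  calc 2 * (N : ℝ) *
        (∑ u ∈ D, qf A (fun i : Fin (16 * N ^ 6) => ct.T N G C.1 C.2 (gen A N i)) u +
          ∑ u ∈ D, qf A (fun ρ : Fin N → Bool => ct.T N G C.1 C.2 ρ) u)
      ≤ 2 * (N : ℝ) * ((N : ℝ) * 2 ^ G + (N : ℝ) * 2 ^ G) :=
        mul_le_mul_of_nonneg_left (add_le_add h1 h2) hN
    _ = 4 * (N : ℝ) ^ 2 * 2 ^ G := by ring

theorem wM_nonneg {b : ℕ} (V : S2) (A : Orc) (c : Ct b) (u : List Bool) : 0 ≤ wM V A c u := by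
  unfold wM
  apply mul_nonneg (by positivity)
  apply sum_nonneg
  intro i _
  split_ifs
  · exact Prg.qf_nonneg _ _ _
  · exact Prg.qf_nonneg _ _ _

theorem sum_wM_le {b : ℕ} (V : S2) (hV : V.Bounded b) (A : Orc) (c : Ct b)
    (D : Finset (List Bool)) : ∑ u ∈ D, wM V A c u ≤ 12 * (b : ℝ) := by
  unfold wM
  rw [← mul_sum, sum_comm]
  have h1 : ∀ i : Fin (1152 * (b + 1)), ∑ u ∈ D,
      (if c.1 = true then qf A (V.T (cut (c.2 i) V.p) (bz V A)) u
        else qf A (V.T (by' V A) (cut (c.2 i) V.q)) u) ≤ (b : ℝ) := by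
    intro i
    split_ifs
    · exact Prg.sum_qf_le A _ b (fun ρ => (hV.2.2 _ _ ρ).1) D
    · exact Prg.sum_qf_le A _ b (fun ρ => (hV.2.2 _ _ ρ).1) D
  have h2 : ∑ i : Fin (1152 * (b + 1)), ∑ u ∈ D,
      (if c.1 = true then qf A (V.T (cut (c.2 i) V.p) (bz V A)) u
        else qf A (V.T (by' V A) (cut (c.2 i) V.q)) u) ≤ (1152 * ((b : ℝ) + 1)) * b := by
    calc _ ≤ ∑ _i : Fin (1152 * (b + 1)), (b : ℝ) := sum_le_sum fun i _ => h1 i
      _ = (1152 * ((b : ℝ) + 1)) * b := by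
        rw [sum_const, card_univ, Fintype.card_fin, nsmul_eq_mul]
        push_cast
        ring
  have hb : (0 : ℝ) < 1152 * ((b : ℝ) + 1) := by positivity
  calc 12 / (1152 * ((b : ℝ) + 1)) * ∑ i : Fin (1152 * (b + 1)), ∑ u ∈ D,
        (if c.1 = true then qf A (V.T (cut (c.2 i) V.p) (bz V A)) u
          else qf A (V.T (by' V A) (cut (c.2 i) V.q)) u)
      ≤ 12 / (1152 * ((b : ℝ) + 1)) * ((1152 * ((b : ℝ) + 1)) * b) :=
        mul_le_mul_of_nonneg_left h2 (by positivity)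
    _ = 12 * (b : ℝ) := by
        field_simp

theorem bounded' (X : Tst) (a : List Bool) (x : Fin X.n → Bool) :
    (X.W.run a (List.ofFn x)).Bounded (X.W.t X.n) := by
  have h := X.W.bounded a (List.ofFn x)
  rwa [List.length_ofFn] at h

end WgB

open WgB

theorem tWgB : S_WgB := by
  intro X τ t ht0 hC hM
  constructor
  · intro A u
    unfold Tst.w
    split_ifs with h
    · exact wC_nonneg _ _ _ _ _ _
    · exact sum_nonneg fun a _ => sum_nonneg fun x _ => wM_nonneg _ _ _ _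
  · intro A D
    unfold Tst.w
    split_ifs with h
    · exact (sum_wC_le _ _ _ _ _ _).trans (hC _ h.choose_spec.2.1)
    · rw [sum_comm]
      calc ∑ a : ↥X.Adv, ∑ u ∈ D, ∑ x : Fin X.n → Bool,
            wM (X.W.run a (List.ofFn x)) A (τ a x) u
          ≤ ∑ _a : ↥X.Adv, (2 ^ X.n * (12 * (X.W.t X.n : ℝ))) := by
            apply sum_le_sum
            intro a _
            rw [sum_comm]
            calc ∑ x : Fin X.n → Bool, ∑ u ∈ D, wM (X.W.run a (List.ofFn x)) A (τ a x) u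
                ≤ ∑ _x : Fin X.n → Bool, 12 * (X.W.t X.n : ℝ) :=
                  sum_le_sum fun x _ => sum_wM_le _ (bounded' X a x) A (τ a x) D
              _ = 2 ^ X.n * (12 * (X.W.t X.n : ℝ)) := by
                  rw [sum_const, card_univ, nsmul_eq_mul]
                  simp
        _ = 12 * (X.W.t X.n : ℝ) * (X.Adv.card * 2 ^ X.n) := by
            rw [sum_const, card_univ, Fintype.card_coe, nsmul_eq_mul]
            ring
        _ ≤ t := hM

end Pool.Agent.Lib.MP_ff3ed7_lc.Prg2
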