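import Pool.Agent.Lib.MP_ff3ed7_lc.Prg.Clo
import Pool.Agent.Lib.MP_ff3ed7_lc.Prg.Hoe
import Pool.Agent.Lib.MP_ff3ed7_lc.Prg.Num
import Pool.Agent.Lib.MP_ff3ed7_lc.Prg.Tri
import Pool.Agent.Lib.MP_ff3ed7_lc.Prg.Sma
import Pool.Agent.Lib.MP_ff3ed7_lc.Prg.Par
import Pool.Agent.Lib.MP_ff3ed7_lc.Prg2.BdF
import Pool.Agent.Lib.MP_ff3ed7_lc.Prg2.BdL
import Pool.Agent.Lib.MP_ff3ed7_lc.Prg2.Cer
import Pool.Agent.Lib.MP_ff3ed7_lc.Prg2.CirN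
import Pool.Agent.Lib.MP_ff3ed7_lc.Prg2.CirT
import Pool.Agent.Lib.MP_ff3ed7_lc.Prg2.ClU
import Pool.Agent.Lib.MP_ff3ed7_lc.Prg2.CtI
import Pool.Agent.Lib.MP_ff3ed7_lc.Prg2.CtK
import Pool.Agent.Lib.MP_ff3ed7_lc.Prg2.Dep
import Pool.Agent.Lib.MP_ff3ed7_lc.Prg2.Dif
import Pool.Agent.Lib.MP_ff3ed7_lc.Prg2.FCh
import Pool.Agent.Lib.MP_ff3ed7_lc.Prg2.Fil
import Pool.Agent.Lib.MP_ff3ed7_lc.Prg2.FlA
import Pool.Agent.Lib.MP_ff3ed7_lc.Prg2.Fnl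
import Pool.Agent.Lib.MP_ff3ed7_lc.Prg2.Gen
import Pool.Agent.Lib.MP_ff3ed7_lc.Prg2.InU
import Pool.Agent.Lib.MP_ff3ed7_lc.Prg2.Ind
import Pool.Agent.Lib.MP_ff3ed7_lc.Prg2.Lim
import Pool.Agent.Lib.MP_ff3ed7_lc.Prg2.LoP
import Pool.Agent.Lib.MP_ff3ed7_lc.Prg2.Loc
import Pool.Agent.Lib.MP_ff3ed7_lc.Prg2.LvA
import Pool.Agent.Lib.MP_ff3ed7_lc.Prg2.LvB
import Pool.Agent.Lib.MP_ff3ed7_lc.Prg2.Mmx
import Pool.Agent.Lib.MP_ff3ed7_lc.Prg2.Out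
import Pool.Agent.Lib.MP_ff3ed7_lc.Prg2.PMA
import Pool.Agent.Lib.MP_ff3ed7_lc.Prg2.Par
import Pool.Agent.Lib.MP_ff3ed7_lc.Prg2.Pik
import Pool.Agent.Lib.MP_ff3ed7_lc.Prg2.Put
import Pool.Agent.Lib.MP_ff3ed7_lc.Prg2.Row
import Pool.Agent.Lib.MP_ff3ed7_lc.Prg2.Run
import Pool.Agent.Lib.MP_ff3ed7_lc.Prg2.Sel
import Pool.Agent.Lib.MP_ff3ed7_lc.Prg2.Sta
import Pool.Agent.Lib.MP_ff3ed7_lc.Prg2.Str
import Pool.Agent.Lib.MP_ff3ed7_lc.Prg2.Sum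
import Pool.Agent.Lib.MP_ff3ed7_lc.Prg2.Tes
import Pool.Agent.Lib.MP_ff3ed7_lc.Prg2.Vld
import Pool.Agent.Lib.MP_ff3ed7_lc.Prg2.WgB

/-! Assembly. -/

set_option autoImplicit false

namespace Pool.Agent.Lib.MP_ff3ed7_lc.Prg2

theorem lim : S_Lim := by
  obtain ⟨ct⟩ := tCirT
  have hStr : S_Str := tStr
  have hPut : S_Put := tPut hStr
  have hRun : S_Run := tRun hPut
  have hClU : S_ClU := tClU hRun
  have hDif : S_Dif := tDif hPut hRun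
  have hSum : S_Sum := tSum hDif hClU
  have hGen : S_Gen := tGen hPut hRun
  have hLoP : S_LoP := tLoP hStr
  have hBdL : S_BdL := tBdL hStr
  have hVld : S_Vld := tVld hPut hRun hLoP hStr
  have hLoc : S_Loc := tLoc (Prg.tTri Prg.tHoe Prg.tNum) tCirN hStr hPut hGen
  have hFlA : S_FlA := tFlA hLoc hVld hBdL tBdF hGen hLoP hRun
  have hCtK : S_CtK := tCtK tRow Prg.tSma
  have hLvA : S_LvA := tLvA Prg.tClo hPut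
  have hLvB : S_LvB := tLvB hLvA tDep hCtK
  have hInd : S_Ind := tInd hRun tDep
  have hSel : S_Sel := tSel hLvB hInd
  have hTes : S_Tes := tTes tOut
  have hPik : S_Pik := tPik hLoc hSel tWgB tCtI
  have hSta : S_Sta := tSta tPar Prg.tAdv (tFil hFlA) hPik tWgB (tCer tMmx) (tFCh Prg.tHoe) hSum
    hGen hTes hVld tBdF tInU hClU hLoP ct
  exact tLim hSta hLoP ct

end Pool.Agent.Lib.MP_ff3ed7_lc.Prg2
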