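import Pool.Agent.Lib.MP_ff3ed7_lc.Oracle

/-!
Definitions for the world in which there are pseudorandom generators against oracle circuits with
alternating guess bits and in which `AM = coAM = PSPACE`, but `AM ∩ coAM` is hard on average for
`S₂` machines of subexponential size with advice.
-/

namespace Pool.Agent.Lib.MP_ff3ed7_lc.Prg2

/-! ### Oracle circuits with guess bits -/

/-- A gate of an oracle circuit with `N` inputs, `N` gates and `G` guess bits.  There are
`2 * N + 2 + G` wires: the wires `0, …, N - 1` are the inputs, the wires `N` and `N + 1` are the
constants false and true, the wire `N + 2 + t` is the value of gate `t`, and the wire `2 * N + 2 + j`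
is the guess bit `j`.  A gate is either the NAND of two wires, or it asks the oracle whether the
string formed by at most `N` wires belongs to it. -/
abbrev Gate (N G : ℕ) : Type :=
  (Fin (2 * N + 2 + G) × Fin (2 * N + 2 + G)) ⊕
    (Σ l : Fin (N + 1), (Fin l → Fin (2 * N + 2 + G)))

/-- An oracle circuit with `N` inputs and `G` guess bits: `N` gates and the output wire. -/
abbrev Circ (N G : ℕ) : Type := (Fin N → Gate N G) × Fin (2 * N + 2 + G)

/-- The value of a gate if the wires have the values `v` and the oracle is `A`. -/
def gateVal (A : List Bool → Bool) {N G : ℕ} (v : Fin (2 * N + 2 + G) → Bool) : Gate N G → Bool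
  | .inl p => !(v p.1 && v p.2)
  | .inr q => A (List.ofFn fun i => v (q.2 i))

/-- The values of the wires of the circuit `C` with oracle `A` on input `ρ` and guess bits `w` after
`t` gates have been evaluated (gates which are not yet evaluated have the value false). -/
def wires (A : List Bool → Bool) {N G : ℕ} (C : Circ N G) (ρ : Fin N → Bool) (w : Fin G → Bool) :
    ℕ → Fin (2 * N + 2 + G) → Bool
  | 0 => fun j => if h : (j : ℕ) < N then ρ ⟨j, h⟩
      else if h' : 2 * N + 2 ≤ (j : ℕ) then w ⟨j - (2 * N + 2), by omega⟩
      else decide ((j : ℕ) = N + 1)
  | t + 1 => fun j =>
      if h : t < N then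
        (if (j : ℕ) = N + 2 + t then gateVal A (wires A C ρ w t) (C.1 ⟨t, h⟩)
          else wires A C ρ w t j)
      else wires A C ρ w t j

/-- The output of the circuit `C` with oracle `A` on input `ρ` and guess bits `w`. -/
def evalC (A : List Bool → Bool) {N G : ℕ} (C : Circ N G) (ρ : Fin N → Bool) (w : Fin G → Bool) :
    Bool := wires A C ρ w N C.2

/-- The value of `Q 0 w 0, Q 1 w 1, …, p w`, where `Q j = true` means that there is a value of the bit
`w j`, and `Q j = false` means for both values of the bit `w j`. -/
def qval : (G : ℕ) → (Fin G → Bool) → ((Fin G → Bool) → Bool) → Bool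
  | 0, _, p => p Fin.elim0
  | G + 1, Q, p =>
      if Q 0 then
        (qval G (fun j => Q j.succ) (fun w => p (Fin.cons false w)) ||
          qval G (fun j => Q j.succ) (fun w => p (Fin.cons true w)))
      else
        (qval G (fun j => Q j.succ) (fun w => p (Fin.cons false w)) &&
          qval G (fun j => Q j.succ) (fun w => p (Fin.cons true w)))

/-- The output of the alternating circuit `C` with the quantifiers `Q` for the guess bits. -/
def evalQ (A : List Bool → Bool) {N G : ℕ} (C : Circ N G) (Q : Fin G → Bool) (ρ : Fin N → Bool) :
    Bool := qval G Q fun w => evalC A C ρ w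

/-! ### The generator -/

/-- The string at which bit `b` of the `i`-th output of the generator for circuits of size `N` is
stored.  It is longer than `N`. -/
def samp (N i b : ℕ) : List Bool :=
  true :: (List.replicate N false ++ true :: (List.replicate i false ++
    true :: List.replicate b false))

/-- The `i`-th output of the generator, `N` bits which are read from the oracle. -/
def gen (A : List Bool → Bool) (N i : ℕ) : Fin N → Bool := fun b => A (samp N i b)

/-- The generator `gen A N`, with the `16 * N ^ 6` seeds `i < 16 * N ^ 6`, is pseudorandom with
error `1 / N` for all oracle circuits with `N` inputs, `N` gates and `g N` guess bits, for all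
sequences of quantifiers for the guess bits. -/
def FoolsAt (g : ℕ → ℕ) (A : List Bool → Bool) (N : ℕ) : Prop :=
  ∀ (C : Circ N (g N)) (Q : Fin (g N) → Bool), |prob N (fun ρ => evalQ A C Q ρ = true) -
    (Nat.card {i : Fin (16 * N ^ 6) // evalQ A C Q (gen A N i) = true} : ℝ) / (16 * N ^ 6 : ℕ)|
      ≤ 1 / N

/-! ### The Arthur-Merlin protocols -/

/-- A quarter of the number of random bits of the protocols with index `k` on inputs of length
`n`. -/
def rk (k n : ℕ) : ℕ := n ^ k + k + n

/-- The string which is queried by the protocol of kind `e` with index `k` on input `x`, for the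
random bits `v` and the reply `y`, on the side `s` (`s = true`: protocol for the language,
`s = false`: protocol for the complement). -/
def cell (e s : Bool) (k : ℕ) (x v y : List Bool) : List Bool :=
  false :: e :: s :: (List.replicate k false ++ true :: (List.replicate x.length false ++
    true :: (x ++ (v ++ y))))

/-- The verifier with one query and as many random bits as reply bits. -/
def TAM (e s : Bool) (k : ℕ) (x : List Bool) (y v : Fin (4 * rk k x.length) → Bool) :
    DTree (List Bool) Bool :=
  .node (cell e s k x (List.ofFn v) (List.ofFn y)) .leaf

/-- For the random bits `v` the reply `y` is accepted on the side `s`. -/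
def Acc (A : List Bool → Bool) (e s : Bool) (k : ℕ) (x : List Bool)
    (v y : Fin (4 * rk k x.length) → Bool) : Prop :=
  A (cell e s k x (List.ofFn v) (List.ofFn y)) = true

/-- The promise of the two protocols: on the side `b` for all random bits exactly one reply is
accepted; on the other side at most `4 ^ rk k n` of the `16 ^ rk k n` strings of random bits have an
accepted reply. -/
def Inst (A : List Bool → Bool) (e : Bool) (k : ℕ) (x : List Bool) (b : Bool) : Prop :=
  (∀ v, ∃! y, Acc A e b k x v y) ∧
  Nat.card {v // ∃ y, Acc A e (!b) k x v y} ≤ 4 ^ rk k x.length

/-! ### `S₂` machines with advice -/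

/-- An `S₂` computation: the message `y` of `p` bits comes from the player who claims that the answer
is yes, the message `z` of `q` bits from the player who claims that the answer is no; the verifier has
`r` random bits `ρ` and runs the decision tree `T y z ρ` which queries the oracle. -/
structure S2 where
  /-- length of the first message -/
  p : ℕ
  /-- length of the second message -/
  q : ℕ
  /-- number of random bits -/
  r : ℕ
  /-- the decision trees -/
  T : (Fin p → Bool) → (Fin q → Bool) → (Fin r → Bool) → DTree (List Bool) Bool

/-- The acceptance probability for the messages `y` and `z`. -/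
noncomputable def S2.pr (V : S2) (A : List Bool → Bool) (y : Fin V.p → Bool) (z : Fin V.q → Bool) :
    ℝ := prob V.r fun ρ => (V.T y z ρ).eval A = true

/-- The computation decides yes if some `y` is accepted with probability at least `2 / 3` against all
`z`; it decides no if for some `z` all `y` are accepted with probability at most `1 / 3`. -/
def S2.Decides (V : S2) (A : List Bool → Bool) : Bool → Prop
  | true => ∃ y, ∀ z, 2 / 3 ≤ V.pr A y z
  | false => ∃ z, ∀ y, V.pr A y z ≤ 1 / 3

/-- The lengths of the messages, the number of oracle queries and the lengths of the queried strings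
are at most `t`. -/
def S2.Bounded (t : ℕ) (V : S2) : Prop :=
  V.p ≤ t ∧ V.q ≤ t ∧ ∀ y z ρ, (V.T y z ρ).DepthLE t ∧ (V.T y z ρ).AllQ fun s => s.length ≤ t

/-- An `S₂` oracle machine with advice `h` and the size bound `t`; there is no restriction on its
computing power apart from the bounds on the messages and the queries. -/
structure Machine where
  /-- the computation for the advice `h` and the input `x` -/
  run : (h x : List Bool) → S2
  /-- the size bound -/
  t : ℕ → ℕ
  bounded : ∀ h x, (run h x).Bounded (t x.length)

/-- With the advice `h` the machine is right on the input `x`: it decides yes and `x ∈ L`, or it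
decides no and `x ∉ L`. -/
def Machine.Right (W : Machine) (h : List Bool) (A : List Bool → Bool) (L : Set (List Bool))
    (x : List Bool) : Prop :=
  (x ∈ L ∧ (W.run h x).Decides A true) ∨ (x ∉ L ∧ (W.run h x).Decides A false)

end Pool.Agent.Lib.MP_ff3ed7_lc.Prg2
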