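import Pool.Agent.Lib.MP_ff3ed7_lc.Prg.Base
import Pool.Agent.Lib.MP_ff3ed7_lc.Prg2.Defs

/-!
Working definitions for the world `T**` (no statement of the final theorem uses them).
-/

namespace Pool.Agent.Lib.MP_ff3ed7_lc.Prg2

open Finset
open Pool.Agent.Lib.MP_ff3ed7_lc.Prg (frac qf path gr cut)

/-- An oracle. -/
abbrev Orc : Type := List Bool → Bool

/-- The global data: the numbers of guess bits and the functionals. -/
structure World where
  /-- numbers of guess bits -/
  g : ℕ → ℕ
  hg : ∀ N, g N ≤ N
  /-- functionals of polynomial locality -/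
  F : ℕ → List Bool → Orc → Bool
  hF : ∀ k x A A', (∀ u : List Bool, u.length ≤ x.length ^ k + k → A u = A' u) →
    F k x A = F k x A'

/-! ### Strings, codes and levels -/

/-- A cell of a table: the kind `e`, the side `s`, the index `k`, the input `x`, the random bits `v`
and the reply `y`. -/
structure Cel where
  /-- kind -/
  e : Bool
  /-- side -/
  s : Bool
  /-- index -/
  k : ℕ
  /-- input -/
  x : List Bool
  /-- random bits -/
  v : List Bool
  /-- reply -/
  y : List Bool

/-- The string of a cell. -/
def Cel.str (c : Cel) : List Bool := cell c.e c.s c.k c.x c.v c.y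

/-- The lengths are right. -/
def Cel.Ok (c : Cel) : Prop :=
  c.v.length = 4 * rk c.k c.x.length ∧ c.y.length = 4 * rk c.k c.x.length

/-- The decoder of strings: a sample, a cell or garbage. -/
noncomputable def dec (u : List Bool) : Option ((ℕ × ℕ × ℕ) ⊕ Cel) :=
  open Classical in
  if h : ∃ p : ℕ × ℕ × ℕ, samp p.1 p.2.1 p.2.2 = u then some (.inl h.choose)
  else if h : ∃ c : Cel, c.Ok ∧ c.str = u then some (.inr h.choose)
  else none

/-- The level of a string: the samples for size `N` have level `N`, the cells of the tables with index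
`k` and inputs of length `n` have level `rk k n`. -/
noncomputable def lev (u : List Bool) : ℕ :=
  match dec u with
  | some (.inl p) => p.1
  | some (.inr c) => rk c.k c.x.length
  | none => 0

/-- The oracles agree on all strings of level less than `M`. -/
def Agr (M : ℕ) (A A' : Orc) : Prop := ∀ u, lev u < M → A u = A' u

/-! ### Tables and rows of one level -/

/-- The tables `(e, k, x)` of level `r`. -/
abbrev Tab (r : ℕ) : Type := {q : Bool × ℕ × List Bool // rk q.2.1 q.2.2.length = r}

instance (r : ℕ) : Finite (Tab r) := by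
  have h1 : ({x : List Bool | x.length ≤ r}).Finite := List.finite_length_le Bool r
  have h2 : Finite {x : List Bool // x.length ≤ r} := h1
  let φ : Tab r → Bool × Fin (r + 1) × {x : List Bool // x.length ≤ r} := fun q =>
    (q.1.1, ⟨q.1.2.1, by have := q.2; unfold rk at this; omega⟩,
      ⟨q.1.2.2, by have := q.2; unfold rk at this; omega⟩)
  refine Finite.of_injective φ ?_
  rintro ⟨⟨e, k, x⟩, h⟩ ⟨⟨e', k', x'⟩, h'⟩ heq
  simp only [φ, Prod.mk.injEq, Fin.mk.injEq, Subtype.mk.injEq] at heq
  obtain ⟨rfl, rfl, rfl⟩ := heq
  rfl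

noncomputable instance (r : ℕ) : Fintype (Tab r) := Fintype.ofFinite _

/-- Strings of `4 * r` bits. -/
abbrev Val (r : ℕ) : Type := Fin (4 * r) → Bool

/-- A row of a table of level `r`: the table and the random bits. -/
abbrev Row (r : ℕ) : Type := Tab r × Val r

noncomputable instance (r : ℕ) : Fintype (Row r → Val r) := Pi.instFintype

noncomputable instance (r : ℕ) : Fintype (Bool → Row r → Val r) := Pi.instFintype

/-- The string of the cell in the row `c`, on the side `s`, with the reply `y`. -/
def cstr {r : ℕ} (s : Bool) (c : Row r) (y : Val r) : List Bool :=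
  cell c.1.1.1 s c.1.1.2.1 c.1.1.2.2 (List.ofFn c.2) (List.ofFn y)

/-- The oracle `A` after the strings of level `r` have got new contents: the samples `ω` and the cells
`B`. -/
noncomputable def put (r : ℕ) (A : Orc) (ω : Fin (16 * r ^ 6) → Fin r → Bool)
    (B : Bool → Row r → Val r → Bool) : Orc := fun u =>
  if lev u = r then
    match dec u with
    | some (.inl p) =>
        if h : p.2.1 < 16 * r ^ 6 ∧ p.2.2 < r then ω ⟨p.2.1, h.1⟩ ⟨p.2.2, h.2⟩ else false
    | some (.inr c) =>
        if h : rk c.k c.x.length = r then
          B c.s (⟨(c.e, c.k, c.x), h⟩, fun i => c.v.getD i false) (fun i => c.y.getD i false)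
        else false
    | none => A u
  else A u

/-- Samples for all sizes. -/
abbrev Smp : Type := (N : ℕ) → Fin (16 * N ^ 6) → Fin N → Bool

/-- A potential reply for every row of every table, on both sides. -/
abbrev Rep : Type := (r : ℕ) → Bool → Row r → Val r

/-- Exceptional rows. -/
abbrev Exc : Type := (r : ℕ) → Finset (Row r)

/-- The truth of the table `(e, k, x)` relative to the oracle `A`: the value of the functional for
`e = true`, the pattern `P` for `e = false`. -/
def truth (Y : World) (P : ℕ → List Bool → Bool) (A : Orc) (q : Bool × ℕ × List Bool) : Bool :=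
  if q.1 then Y.F q.2.1 q.2.2 A else P q.2.1 q.2.2

/-- Fill the level `r`: on the right side of every table all rows have their reply, on the wrong side
only the rows in `K`. -/
noncomputable def step (Y : World) (P : ℕ → List Bool → Bool) (r : ℕ) (A : Orc)
    (ω : Fin (16 * r ^ 6) → Fin r → Bool) (z : Bool → Row r → Val r) (K : Finset (Row r)) : Orc :=
  put r A ω fun s c y =>
    decide (z s c = y) && (decide (s = truth Y P A c.1.1) || decide (c ∈ K))

/-- Fill the levels `r, …, r + j - 1`. -/
noncomputable def run (Y : World) (P : ℕ → List Bool → Bool) (ω : Smp) (z : Rep) (K : Exc) :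
    ℕ → ℕ → Orc → Orc
  | _, 0, A => A
  | r, j + 1, A => run Y P ω z K (r + 1) j (step Y P r A (ω r) (z r) (K r))

/-- The oracle in which on the levels in `[M, M')` all rows have their replies on both sides. -/
noncomputable def full (A : Orc) (M M' : ℕ) (ω : Smp) (z : Rep) : Orc := fun u =>
  if M ≤ lev u ∧ lev u < M' then
    put (lev u) A (ω (lev u)) (fun s c y => decide (z (lev u) s c = y)) u
  else A u

/-- The string of the potential cell of the row `c` on the wrong side. -/
def wstr (Y : World) (P : ℕ → List Bool → Bool) (A : Orc) {r : ℕ} (z : Bool → Row r → Val r)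
    (c : Row r) : List Bool :=
  cstr (!truth Y P A c.1.1) c (z (!truth Y P A c.1.1) c)

/-! ### Closing sets -/

/-- The exceptional rows `K` are closing for the levels `r, …, r + j - 1`, for the oracle `A` of the
lower levels: at most `4 ^ i` rows on the level `i`, and the potential cells on the wrong side outside
of `K` have together weight at most `ε` on every level, for the weights `w` of the final oracle. -/
def Cl (Y : World) (P : ℕ → List Bool → Bool) (ω : Smp) (z : Rep) (w : Orc → List Bool → ℝ) (ε : ℝ)
    (K : Exc) : ℕ → ℕ → Orc → Prop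
  | _, 0, _ => True
  | r, j + 1, A => (K r).card ≤ 4 ^ r ∧
      ∑ c ∈ univ \ K r, w (run Y P ω z K r (j + 1) A) (wstr Y P A (z r) c) ≤ ε ∧
      Cl Y P ω z w ε K (r + 1) j (step Y P r A (ω r) (z r) (K r))

/-- A choice of exceptional rows with the property `p`. -/
noncomputable def pick (p : Exc → Prop) : Exc :=
  open Classical in if h : ∃ K, p K then h.choose else fun _ => ∅

/-- The final oracle if the levels less than `r` are given by `A` and a canonical closing set is used
for the levels `r, …, r + j - 1`. -/
noncomputable def fin (Y : World) (P : ℕ → List Bool → Bool) (ω : Smp) (z : Rep)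
    (w : Orc → List Bool → ℝ) (ε : ℝ) (r j : ℕ) (A : Orc) : Orc :=
  run Y P ω z (pick fun K => Cl Y P ω z w ε K r j A) r j A

/-- There are at most `4 ^ r` rows of level `r` such that the other rows have weight at most `ε` (with
a canonical closing set for the `j` levels above `r`). -/
def Lv (Y : World) (P : ℕ → List Bool → Bool) (ω : Smp) (z : Rep) (w : Orc → List Bool → ℝ) (ε : ℝ)
    (r j : ℕ) (A : Orc) (zr : Bool → Row r → Val r) : Prop :=
  ∃ K : Finset (Row r), K.card ≤ 4 ^ r ∧
    ∑ c ∈ univ \ K, w (fin Y P ω z w ε (r + 1) j (step Y P r A (ω r) zr K))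
      (wstr Y P A zr c) ≤ ε

/-- Finite families of samples, extended. -/
def exS {M' : ℕ} (ω : (N : Fin M') → Fin (16 * (N : ℕ) ^ 6) → Fin N → Bool) : Smp := fun N =>
  if h : N < M' then ω ⟨N, h⟩ else fun _ _ => false

/-- Finite families of replies, extended. -/
def exR {M' : ℕ} (z : (r : Fin M') → Bool → Row r → Val r) : Rep := fun r =>
  if h : r < M' then z ⟨r, h⟩ else fun _ _ _ => false

/-! ### Circuits -/

/-- Decision trees for the alternating oracle circuits. -/
structure CT where
  /-- the tree of the circuit `C` with quantifiers `Q` on input `ρ` -/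
  T : (N G : ℕ) → Circ N G → (Fin G → Bool) → (Fin N → Bool) → DTree (List Bool) Bool
  depth : ∀ N G C Q ρ, (T N G C Q ρ).DepthLE (N * 2 ^ G)
  allQ : ∀ N G C Q ρ, (T N G C Q ρ).AllQ fun s => s.length ≤ N
  eval : ∀ N G C Q ρ A, (T N G C Q ρ).eval A = evalQ A C Q ρ

/-- Some alternating circuit of size `N` distinguishes the samples from random bits with advantage
larger than `l`. -/
def Bad (g : ℕ → ℕ) (A : Orc) (N : ℕ) (l : ℝ) : Prop :=
  ∃ C : Circ N (g N) × (Fin (g N) → Bool),
    l < |frac (fun ρ : Fin N → Bool => evalQ A C.1 C.2 ρ = true) -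
      frac (fun i : Fin (16 * N ^ 6) => evalQ A C.1 C.2 (gen A N i) = true)|

/-- The weight for the test of the circuit `C`. -/
noncomputable def wC (ct : CT) (A : Orc) (N G : ℕ) (C : Circ N G × (Fin G → Bool))
    (u : List Bool) : ℝ :=
  2 * N * (qf A (fun i : Fin (16 * N ^ 6) => ct.T N G C.1 C.2 (gen A N i)) u +
    qf A (fun ρ : Fin N → Bool => ct.T N G C.1 C.2 ρ) u)

/-! ### `S₂` machines -/

/-- A certificate for the value of an `S₂` computation on the full oracle: the side and `1152 (b + 1)`
messages. -/
abbrev Ct (b : ℕ) : Type := Bool × (Fin (1152 * (b + 1)) → Fin b → Bool)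

/-- The messages of the certificate have on the average acceptance probability at least `11 / 24`
against all `z` (side `true`), or at most `13 / 24` against all `y` (side `false`). -/
def Holds {b : ℕ} (V : S2) (A : Orc) (c : Ct b) : Prop :=
  (c.1 = true → ∀ z, 11 / 24 * (1152 * (b + 1) : ℝ) ≤ ∑ i, V.pr A (cut (c.2 i) V.p) z) ∧
  (c.1 = false → ∀ y, ∑ i, V.pr A y (cut (c.2 i) V.q) ≤ 13 / 24 * (1152 * (b + 1) : ℝ))

theorem exists_bz (V : S2) (A : Orc) :
    ∃ z₀ : Fin V.q → Bool, (∃ z, ∀ y, V.pr A y z ≤ 1 / 3) → ∀ y, V.pr A y z₀ ≤ 1 / 3 := by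
  by_cases h : ∃ z, ∀ y, V.pr A y z ≤ 1 / 3
  · exact ⟨h.choose, fun _ => h.choose_spec⟩
  · exact ⟨fun _ => false, fun h' => absurd h' h⟩

/-- A winning message of the player who claims no, if there is one. -/
noncomputable def bz (V : S2) (A : Orc) : Fin V.q → Bool := (exists_bz V A).choose

theorem exists_by (V : S2) (A : Orc) :
    ∃ y₀ : Fin V.p → Bool, (∃ y, ∀ z, 2 / 3 ≤ V.pr A y z) → ∀ z, 2 / 3 ≤ V.pr A y₀ z := by
  by_cases h : ∃ y, ∀ z, 2 / 3 ≤ V.pr A y z
  · exact ⟨h.choose, fun _ => h.choose_spec⟩
  · exact ⟨fun _ => false, fun h' => absurd h' h⟩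

/-- A winning message of the player who claims yes, if there is one. -/
noncomputable def by' (V : S2) (A : Orc) : Fin V.p → Bool := (exists_by V A).choose

/-- The weight for the test of the `S₂` computation with the certificate `c`. -/
noncomputable def wM {b : ℕ} (V : S2) (A : Orc) (c : Ct b) (u : List Bool) : ℝ :=
  12 / (1152 * (b + 1)) * ∑ i,
    if c.1 = true then qf A (V.T (cut (c.2 i) V.p) (bz V A)) u
    else qf A (V.T (by' V A) (cut (c.2 i) V.q)) u

/-- The data of the test in one stage. -/
structure Tst where
  /-- the world -/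
  Y : World
  /-- decision trees of circuits -/
  ct : CT
  /-- the machine -/
  W : Machine
  /-- the exponent of the advice -/
  k : ℕ
  /-- the length of the inputs -/
  n : ℕ
  /-- the first level -/
  M : ℕ
  /-- the last level plus one -/
  M' : ℕ
  /-- the advice strings -/
  Adv : Finset (List Bool)

/-- Certificates for all advice strings and inputs. -/
abbrev Tst.Cer (X : Tst) : Type := ↥X.Adv → (Fin X.n → Bool) → Ct (X.W.t X.n)

open Classical in
/-- The weight of the string `u` for the oracle `A` and the certificates `τ`: if some circuit of a size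
in `[M, M')` has advantage larger than `1 / N`, the weight for such a circuit, otherwise the weight
for all `S₂` computations. -/
noncomputable def Tst.w (X : Tst) (τ : X.Cer) (A : Orc) (u : List Bool) : ℝ :=
  if h : ∃ N, X.M ≤ N ∧ N < X.M' ∧ Bad X.Y.g A N (1 / N) then
    wC X.ct A h.choose (X.Y.g h.choose) h.choose_spec.2.2.choose u
  else ∑ a : ↥X.Adv, ∑ x : Fin X.n → Bool, wM (X.W.run a (List.ofFn x)) A (τ a x) u

/-- The pattern for the words of length `n` and the index `k`. -/
def pat (k n : ℕ) (f : (Fin n → Bool) → Bool) : ℕ → List Bool → Bool := fun k' x =>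
  if k' = k ∧ x.length = n then f fun i => x.getD i false else false

/-! ### Validity -/

/-- Everything is in order on the levels less than `M`. -/
def Valid (Y : World) (A : Orc) (M : ℕ) : Prop :=
  (∀ N, 6 ≤ N → N < M → FoolsAt Y.g A N) ∧
  ∀ k x, rk k x.length < M → Inst A true k x (Y.F k x A) ∧ ∃ b, Inst A false k x b

/-- For some length `n ≥ B` the machine is refuted for the language `k`, on the average and for all
advice strings. -/
def Refuted (W : Machine) (k B : ℕ) (A : Orc) : Prop :=
  ∃ n ≥ B, ∀ h : List Bool, h.length ≤ n ^ k + k →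
    (Nat.card {x : Fin n → Bool // ∃ b, Inst A false k (List.ofFn x) b ∧
      (W.run h (List.ofFn x)).Decides A b} : ℝ) ≤ (1 / 2 + (2 : ℝ) ^ (-(n : ℝ) / 4)) * 2 ^ n

end Pool.Agent.Lib.MP_ff3ed7_lc.Prg2
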