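import Pool.Agent.Lib.MP_ff3ed7_lc.Prg2.Spec

/-!
The number of alternating oracle circuits.
-/

namespace Pool.Agent.Lib.MP_ff3ed7_lc.Prg2

open Finset
open Pool.Agent.Lib.MP_ff3ed7_lc.Prg (frac qf path gr cut)

namespace CirN

theorem base_le (N : ℕ) (hN : 6 ≤ N) : 3 * N + 2 ≤ 2 ^ (N - 1) := by
  obtain ⟨m, rfl⟩ := Nat.exists_eq_add_of_le hN
  rw [show 6 + m - 1 = m + 5 by omega]
  induction m with
  | zero => norm_num
  | succ m ih =>
    have := ih (by omega)
    rw [show m + 1 + 5 = m + 5 + 1 by omega, pow_succ]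
    omega

theorem geom_le (v n : ℕ) (hv : 20 ≤ v) : 19 * ∑ l ∈ range (n + 1), v ^ l ≤ 20 * v ^ n := by
  induction n with
  | zero => simp
  | succ n ih =>
    rw [sum_range_succ, pow_succ]
    have : 20 * v ^ n ≤ v ^ n * v := by
      rw [Nat.mul_comm]
      exact Nat.mul_le_mul_left _ hv
    omega

theorem card_circ (N G : ℕ) : Fintype.card (Circ N G × (Fin G → Bool)) =
    ((2 * N + 2 + G) * (2 * N + 2 + G) + ∑ l ∈ range (N + 1), (2 * N + 2 + G) ^ l) ^ N *
      (2 * N + 2 + G) * 2 ^ G := by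
  rw [← Fin.sum_univ_eq_sum_range (fun l => (2 * N + 2 + G) ^ l)]
  unfold Circ Gate
  rw [Fintype.card_prod, Fintype.card_prod, Fintype.card_fun, Fintype.card_fun, Fintype.card_sum,
    Fintype.card_prod, Fintype.card_sigma, Fintype.card_fin, Fintype.card_fin, Fintype.card_fin,
    Fintype.card_bool]
  congr 4
  refine sum_congr rfl fun l _ => ?_
  rw [Fintype.card_fun, Fintype.card_fin, Fintype.card_fin]

end CirN

open CirN in
theorem tCirN : S_CirN := by
  intro N hN G hG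
  rw [card_circ]
  set B : ℕ := 2 * N + 2 + G with hBd
  set v : ℕ := 3 * N + 2 with hvd
  have hBv : B ≤ v := by omega
  have hv : v ≤ 2 ^ (N - 1) := base_le N hN
  have h2 : 20 ≤ v := by omega
  have h3 : 4 * (B * B) ≤ v ^ N := by
    have h4 : v ^ 3 ≤ v ^ N := Nat.pow_le_pow_right (by omega) (by omega)
    have h5 : B * B ≤ v * v := Nat.mul_le_mul hBv hBv
    have h6 : 4 * (v * v) ≤ v ^ 3 := by
      rw [show v ^ 3 = v * (v * v) by ring]
      exact Nat.mul_le_mul_right _ (by omega)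
    omega
  have h4 : 19 * ∑ l ∈ range (N + 1), B ^ l ≤ 20 * v ^ N := by
    refine le_trans (Nat.mul_le_mul_left _ (sum_le_sum fun l _ => Nat.pow_le_pow_left hBv l)) ?_
    exact geom_le v N h2
  have h5 : B * B + ∑ l ∈ range (N + 1), B ^ l ≤ 2 * v ^ N := by omega
  calc (B * B + ∑ l ∈ range (N + 1), B ^ l) ^ N * B * 2 ^ G
      ≤ (2 * v ^ N) ^ N * v * 2 ^ N :=
        Nat.mul_le_mul (Nat.mul_le_mul (Nat.pow_le_pow_left h5 _) hBv)
          (Nat.pow_le_pow_right (by norm_num) hG)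
    _ = 2 ^ (2 * N) * v ^ (N * N + 1) := by
        rw [mul_pow, ← pow_mul, pow_succ v (N * N), two_mul, pow_add]
        ring
    _ ≤ 2 ^ (2 * N) * (2 ^ (N - 1)) ^ (N * N + 1) :=
        Nat.mul_le_mul_left _ (Nat.pow_le_pow_left hv _)
    _ = 2 ^ (2 * N + (N - 1) * (N * N + 1)) := by
        rw [← pow_mul, ← pow_add]
    _ ≤ 2 ^ (N ^ 3) := by
        refine Nat.pow_le_pow_right (by norm_num) ?_
        obtain ⟨m, rfl⟩ := Nat.exists_eq_add_of_le hN
        rw [show 6 + m - 1 = m + 5 by omega]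
        nlinarith [Nat.zero_le m, Nat.zero_le (m * m), Nat.zero_le (m * m * m)]

end Pool.Agent.Lib.MP_ff3ed7_lc.Prg2
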