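import Pool.Agent.Lib.MP_ff3ed7_lc.Prg2.Defs

/-! The Arthur-Merlin verifiers. -/

namespace Pool.Agent.Lib.MP_ff3ed7_lc.Prg2

theorem cell_len (e s : Bool) (k : ℕ) (x v y : List Bool) :
    (cell e s k x v y).length = 5 + k + 2 * x.length + v.length + y.length := by
  simp only [cell, List.length_cons, List.length_append, List.length_replicate]
  omega

theorem rk_pos (k n : ℕ) : 1 ≤ rk k n := by
  unfold rk
  rcases Nat.eq_zero_or_pos k with rfl | hk
  · simp
  · omega

theorem poly_bound (k n : ℕ) :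
    5 + 9 * k + 10 * n + 8 * n ^ k ≤ n ^ (9 * k + 30) + (9 * k + 30) := by
  rcases Nat.lt_or_ge n 2 with h | h
  · interval_cases n
    · rcases Nat.eq_zero_or_pos k with rfl | hk
      · norm_num
      · rw [zero_pow (by omega), zero_pow (by omega)]; omega
    · simp only [one_pow]; omega
  · have h1 : n ≤ n ^ (k + 1) := by
      calc n = n ^ 1 := (pow_one n).symm
        _ ≤ n ^ (k + 1) := Nat.pow_le_pow_right (by omega) (by omega)
    have h2 : n ^ k ≤ n ^ (k + 1) := Nat.pow_le_pow_right (by omega) (by omega)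
    have h3 : 2 ^ 5 ≤ n ^ 5 := Nat.pow_le_pow_left h 5
    have h4 : n ^ (k + 1) * n ^ 5 ≤ n ^ (9 * k + 30) := by
      rw [← pow_add]
      exact Nat.pow_le_pow_right (by omega) (by omega)
    have h5 : n ^ (k + 1) * 2 ^ 5 ≤ n ^ (k + 1) * n ^ 5 := Nat.mul_le_mul_left _ h3
    omega

/-- The verifier of kind `e` with index `k` for the language (`s = true`) and for its complement
(`s = false`): `4 * (|x| ^ k + k + |x|)` random bits, a reply of the same length, one oracle query. -/
def VAM (e s : Bool) (k : ℕ) : Verifier where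
  msg n := 4 * rk k n
  coins n := 4 * rk k n
  tree := TAM e s k
  c := 9 * k + 30
  msg_le n := by
    have := poly_bound k n
    unfold rk
    omega
  coins_le n := by
    have := poly_bound k n
    unfold rk
    omega
  depth_le x y v := by
    simp only [TAM, DTree.DepthLE]
    exact ⟨by omega, fun _ => trivial⟩
  length_le x y v := by
    simp only [TAM, DTree.AllQ]
    refine ⟨?_, fun _ => trivial⟩
    rw [cell_len, List.length_ofFn, List.length_ofFn]
    have := poly_bound k x.length
    unfold rk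
    omega

theorem card_all (m : ℕ) (P : (Fin m → Bool) → Prop) (h : ∀ v, P v) :
    Nat.card {v // P v} = 2 ^ m := by
  rw [Nat.card_congr (Equiv.subtypeUnivEquiv h)]
  simp

theorem amProb_yes {A : List Bool → Bool} {e : Bool} {k : ℕ} {x : List Bool} {b : Bool}
    (h : Inst A e k x b) : 2 / 3 ≤ (VAM e b k).amProb A x := by
  have h1 : (VAM e b k).amProb A x = 1 := by
    unfold Verifier.amProb prob
    rw [card_all _ _ fun v => ?_]
    · push_cast
      exact div_self (by positivity)
    · obtain ⟨y, hy, _⟩ := h.1 v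
      exact ⟨y, by simpa [VAM, TAM, DTree.eval, Acc] using hy⟩
  rw [h1]; norm_num

theorem amProb_no {A : List Bool → Bool} {e : Bool} {k : ℕ} {x : List Bool} {b : Bool}
    (h : Inst A e k x (!b)) : (VAM e b k).amProb A x ≤ 1 / 3 := by
  have h2 := h.2
  rw [Bool.not_not] at h2
  have h1 : (VAM e b k).amProb A x =
      (Nat.card {v // ∃ y, Acc A e b k x v y} : ℝ) / 2 ^ (4 * rk k x.length) := by
    unfold Verifier.amProb prob
    simp [VAM, TAM, DTree.eval, Acc]
  rw [h1, div_le_iff₀ (by positivity)]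
  have h3 : (Nat.card {v // ∃ y, Acc A e b k x v y} : ℝ) ≤ 4 ^ rk k x.length := by
    exact_mod_cast h2
  refine h3.trans ?_
  have h4 : (1 : ℝ) ≤ 4 ^ (rk k x.length - 1) := one_le_pow₀ (by norm_num)
  have h5 : (4 : ℝ) ^ rk k x.length = 4 * 4 ^ (rk k x.length - 1) := by
    rw [← pow_succ']
    congr 1
    have := rk_pos k x.length
    omega
  have h6 : (2 : ℝ) ^ (4 * rk k x.length) = 4 ^ rk k x.length * 4 ^ rk k x.length := by
    rw [← mul_pow, pow_mul]
    norm_num
  rw [h6]
  have h7 : (0 : ℝ) < 4 ^ rk k x.length := by positivity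
  have h8 : (3 : ℝ) ≤ 4 ^ rk k x.length := by rw [h5]; linarith
  nlinarith

theorem acceptsAM {A : List Bool → Bool} {e : Bool} {k : ℕ} {L : Set (List Bool)}
    (h : ∀ x, (x ∈ L → Inst A e k x true) ∧ (x ∉ L → Inst A e k x false)) :
    (VAM e true k).AcceptsAM A L ∧ (VAM e false k).AcceptsAM A Lᶜ := by
  refine ⟨fun x => ⟨fun hx => amProb_yes ((h x).1 hx), fun hx => amProb_no (b := true) ((h x).2 hx)⟩,
    fun x => ⟨fun hx => amProb_yes ((h x).2 hx), fun hx => ?_⟩⟩
  rw [Set.notMem_compl_iff] at hx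
  exact amProb_no (b := false) ((h x).1 hx)

end Pool.Agent.Lib.MP_ff3ed7_lc.Prg2
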