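import Pool.Agent.Lib.MP_ff3ed7_lc.Prg2.Spec

/-!
The machine test works (`S_Out`).
-/

namespace Pool.Agent.Lib.MP_ff3ed7_lc.Prg2

open Finset
open Pool.Agent.Lib.MP_ff3ed7_lc.Prg (frac qf path gr cut)

namespace Out

/-- Two oracles which differ only on `D` have close acceptance probabilities. -/
private theorem pr_sub (V : S2) (A J : Orc) (D : Finset (List Bool))
    (h : ∀ u, u ∉ D → A u = J u) (y : Fin V.p → Bool) (z : Fin V.q → Bool) :
    |V.pr J y z - V.pr A y z| ≤ ∑ u ∈ D, qf A (V.T y z) u := by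
  unfold S2.pr
  rw [Prg.prob_eq_frac, Prg.prob_eq_frac]
  exact Prg.abs_frac_sub_le A J (V.T y z) D h

/-- The total weight. -/
private theorem sum_w (b : ℕ) (D : Finset (List Bool))
    (f : Fin (1152 * (b + 1)) → List Bool → ℝ)
    (h : ∑ u ∈ D, 12 / (1152 * ((b : ℝ) + 1)) * ∑ i, f i u ≤ 1) :
    ∑ i, ∑ u ∈ D, f i u ≤ 1152 * ((b : ℝ) + 1) / 12 := by
  have hT : (0 : ℝ) < 1152 * ((b : ℝ) + 1) := by positivity
  rw [← Finset.mul_sum, Finset.sum_comm, div_mul_eq_mul_div, div_le_one hT] at h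
  linarith

end Out

theorem tOut : S_Out := by
  intro V b A J c D hH hAJ hw hdec
  have hT : (0 : ℝ) < 1152 * ((b : ℝ) + 1) := by positivity
  have hcard : ∀ r : ℝ, ∑ _i : Fin (1152 * (b + 1)), r = 1152 * ((b : ℝ) + 1) * r := by
    intro r
    rw [Finset.sum_const, Finset.card_univ, Fintype.card_fin, nsmul_eq_mul]
    push_cast
    ring
  cases hc : c.1 with
  | true =>
    rw [hc] at hdec
    have h1 : ∃ z, ∀ y, V.pr A y z ≤ 1 / 3 := hdec
    have h2 : ∀ y, V.pr A y (bz V A) ≤ 1 / 3 := (exists_bz V A).choose_spec h1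
    have h3 := hH.1 hc (bz V A)
    have h4 : ∑ i, ∑ u ∈ D, qf A (V.T (cut (c.2 i) V.p) (bz V A)) u ≤
        1152 * ((b : ℝ) + 1) / 12 := by
      refine Out.sum_w b D _ (le_trans (le_of_eq ?_) hw)
      refine Finset.sum_congr rfl fun u _ => ?_
      unfold wM
      simp only [hc, if_true]
    have h5 : ∑ i, V.pr J (cut (c.2 i) V.p) (bz V A) ≤
        ∑ i, ((1 : ℝ) / 3 + ∑ u ∈ D, qf A (V.T (cut (c.2 i) V.p) (bz V A)) u) := by
      refine Finset.sum_le_sum fun i _ => ?_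
      have h6 := abs_le.1 (Out.pr_sub V A J D hAJ (cut (c.2 i) V.p) (bz V A))
      have h7 := h2 (cut (c.2 i) V.p)
      linarith [h6.2]
    rw [Finset.sum_add_distrib, hcard] at h5
    linarith
  | false =>
    rw [hc] at hdec
    have h1 : ∃ y, ∀ z, 2 / 3 ≤ V.pr A y z := hdec
    have h2 : ∀ z, 2 / 3 ≤ V.pr A (by' V A) z := (exists_by V A).choose_spec h1
    have h3 := hH.2 hc (by' V A)
    have h4 : ∑ i, ∑ u ∈ D, qf A (V.T (by' V A) (cut (c.2 i) V.q)) u ≤
        1152 * ((b : ℝ) + 1) / 12 := by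
      refine Out.sum_w b D _ (le_trans (le_of_eq ?_) hw)
      refine Finset.sum_congr rfl fun u _ => ?_
      unfold wM
      simp only [hc, Bool.false_eq_true, if_false]
    have h5 : ∑ i : Fin (1152 * (b + 1)),
        ((2 : ℝ) / 3 - ∑ u ∈ D, qf A (V.T (by' V A) (cut (c.2 i) V.q)) u) ≤
          ∑ i, V.pr J (by' V A) (cut (c.2 i) V.q) := by
      refine Finset.sum_le_sum fun i _ => ?_
      have h6 := abs_le.1 (Out.pr_sub V A J D hAJ (by' V A) (cut (c.2 i) V.q))
      have h7 := h2 (cut (c.2 i) V.q)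
      linarith [h6.1]
    rw [Finset.sum_sub_distrib, hcard] at h5
    linarith

end Pool.Agent.Lib.MP_ff3ed7_lc.Prg2
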