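import Pool.Agent.Lib.MP_ff3ed7_lc.Prg.Spec
import Pool.Agent.Lib.MP_ff3ed7_lc.Prg2.Base

/-!
SPEC for theorem `T**` (MP_ff3ed7_lc, notes 3928 and 3933).  Every `S_X` is a statement, to be proved
as `theorem tX … : S_X` in the file `Prg2/X.lean` (hypotheses `hY : S_Y` for the statements which are
used, in the order of the docstring).  The definitions are in `Prg2/Defs.lean` and
`Prg2/Base.lean`; the general lemmas on `frac`, `path`, `qf` are in `Prg/Base.lean`, the general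
statements `Prg.S_Clo, Prg.S_Hoe, Prg.S_Tri, Prg.S_Adv, Prg.S_Sma` are in `Prg/Spec.lean` (already
proved: `Prg/Clo.lean`, …).

THE IDEA.  One stage: the levels less than `M` of the oracle `A` are fixed, the levels in `[M, M')`
are open.  `ω` are random samples, `z` random potential replies (one for every row and side).  For a
pattern `f` and exceptional rows `K`, `run` fills the levels one after the other: right sides (truth
by the pattern or by the functional on the lower levels) full, wrong sides only the rows in `K`.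
`full` has both sides full.  If `K` is closing (`Cl`), the tests do not see the difference between
`run` and `full`.
-/

namespace Pool.Agent.Lib.MP_ff3ed7_lc.Prg2

open Finset
open Pool.Agent.Lib.MP_ff3ed7_lc.Prg (frac qf path gr cut)

/-! ### A.  Strings, levels, `put`, `run` -/

/-- STRINGS (uses nothing; the old file `Prg/Bld.lean` has almost the same proofs).  PROOF.  `samp` is
injective and its length is `N + i + b + 3 > N`; `Cel.str` is injective on the cells with `Ok`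
(cancel the blocks `false^a true`, then `List.append_inj` with the lengths), its length is larger
than `rk k x.length` (it contains `v` and `y`, and `rk ≥ 0`, plus at least five more letters); a
sample starts with `true`, a cell with `false`. -/
def S_Str : Prop :=
  (∀ N i b, dec (samp N i b) = some (.inl (N, i, b))) ∧
  (∀ c : Cel, c.Ok → dec c.str = some (.inr c)) ∧
  (∀ u p, dec u = some (.inl p) → samp p.1 p.2.1 p.2.2 = u) ∧
  (∀ u c, dec u = some (.inr c) → c.Ok ∧ c.str = u) ∧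
  (∀ (u : List Bool) (M : ℕ), 1 ≤ M → u.length ≤ M → lev u < M)

/-- PUT (uses `S_Str`).  PROOF.  The string `cstr s c y` is the string of the cell
`⟨c.1.1.1, s, c.1.1.2.1, c.1.1.2.2, ofFn c.2, ofFn y⟩`, which is `Ok` because
`c.1.2 : rk _ _ = r`.  The two functions `fun i => (List.ofFn v).getD i false` and `v` are equal.  In
the last part `dec u` is not `none` (level `0`), it is not a sample (the same `ω`), so it is a cell,
and `u = cstr s c y` for the row and the reply used by `put`. -/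
def S_Put : Prop :=
  (∀ N i b, lev (samp N i b) = N) ∧
  (∀ (r : ℕ) (s : Bool) (c : Row r) (y : Val r), lev (cstr s c y) = r) ∧
  (∀ (r : ℕ) (s s' : Bool) (c c' : Row r) (y y' : Val r), cstr s c y = cstr s' c' y' →
    s = s' ∧ c = c' ∧ y = y') ∧
  (∀ r A ω B u, lev u ≠ r → put r A ω B u = A u) ∧
  (∀ (r : ℕ) A ω B (i : Fin (16 * r ^ 6)) (b : Fin r), put r A ω B (samp r i b) = ω i b) ∧
  (∀ (r : ℕ) A ω B (s : Bool) (c : Row r) (y : Val r), put r A ω B (cstr s c y) = B s c y) ∧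
  (∀ (r : ℕ) A A' ω B B' u, 1 ≤ r → lev u = r → put r A ω B u ≠ put r A' ω B' u →
    ∃ (s : Bool) (c : Row r) (y : Val r), u = cstr s c y ∧ B s c y ≠ B' s c y)

/-- RUN (uses `S_Put`, only the fourth part).  PROOF.  All three by induction on the number of steps
(generalizing `r` and `A`). -/
def S_Run : Prop := ∀ (Y : World) (P : ℕ → List Bool → Bool) (ω : Smp) (z : Rep) (K : Exc),
  (∀ r j A u, lev u < r ∨ r + j ≤ lev u → run Y P ω z K r j A u = A u) ∧
  (∀ r i j A, run Y P ω z K r (i + j) A = run Y P ω z K (r + i) j (run Y P ω z K r i A)) ∧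
  (∀ r j A u, r ≤ lev u → lev u < r + j → run Y P ω z K r j A u =
    step Y P (lev u) (run Y P ω z K r (lev u - r) A) (ω (lev u)) (z (lev u)) (K (lev u)) u)

/-- DEPENDENCE (uses nothing).  PROOF.  Induction on `j` (generalizing `r`, `A`): `run` and `Cl` for
the levels `r, …, r + j - 1` use only the values of `ω`, `z`, `K` at these levels. -/
def S_Dep : Prop := ∀ (Y : World) (P : ℕ → List Bool → Bool) (ω ω' : Smp) (z z' : Rep)
  (K K' : Exc) (w : Orc → List Bool → ℝ) (ε : ℝ) (r j : ℕ) (A : Orc),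
  (∀ i, r ≤ i → i < r + j → ω i = ω' i ∧ z i = z' i ∧ K i = K' i) →
  run Y P ω z K r j A = run Y P ω' z' K' r j A ∧
  (Cl Y P ω z w ε K r j A ↔ Cl Y P ω' z' w ε K' r j A)

/-- UNFOLDING OF `Cl` (uses `S_Run`, only the second part, or nothing).  PROOF.  Induction on `j`. -/
def S_ClU : Prop := ∀ (Y : World) (P : ℕ → List Bool → Bool) (ω : Smp) (z : Rep)
  (w : Orc → List Bool → ℝ) (ε : ℝ) (K : Exc) (r₀ j : ℕ) (A : Orc), Cl Y P ω z w ε K r₀ j A →
  ∀ r, r₀ ≤ r → r < r₀ + j → (K r).card ≤ 4 ^ r ∧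
    ∑ c ∈ univ \ K r, w (run Y P ω z K r₀ j A)
      (wstr Y P (run Y P ω z K r₀ (r - r₀) A) (z r) c) ≤ ε

/-- DIFFERENCE BETWEEN `run` AND `full` (uses `S_Put`, `S_Run`).  PROOF.  If `lev u < M` or
`M' ≤ lev u`, both are `A u`.  Otherwise let `r = lev u`: `run … u = step … u` by the third part of
`S_Run`, and `full … u = put r A …  u`; by the last part of `S_Put`, `u = cstr s c y` and the contents
differ: `decide (z r s c = y) && (…) ≠ decide (z r s c = y)`.  So `y = z r s c`, `s` is not the truth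
of the table (relative to `run … M (r - M) A`) and `c ∉ K r`. -/
def S_Dif : Prop := ∀ (Y : World) (P : ℕ → List Bool → Bool) (ω : Smp) (z : Rep) (K : Exc)
  (M M' : ℕ) (A : Orc) (u : List Bool), 1 ≤ M → M ≤ M' →
  run Y P ω z K M (M' - M) A u ≠ full A M M' ω z u →
  ∃ r, M ≤ r ∧ r < M' ∧ ∃ c : Row r, c ∉ K r ∧
    u = wstr Y P (run Y P ω z K M (r - M) A) (z r) c

/-- CLOSING SETS HIDE THE DIFFERENCE (uses `S_Dif`, `S_ClU`).  PROOF.  `D` is the union over
`r ∈ [M, M')` of the images of `univ \ K r` under `wstr`; the sum over a union or an image is at most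
the sum of the sums (nonnegative weights). -/
def S_Sum : Prop := ∀ (Y : World) (P : ℕ → List Bool → Bool) (ω : Smp) (z : Rep) (K : Exc)
  (w : Orc → List Bool → ℝ) (ε : ℝ) (M M' : ℕ) (A : Orc), 1 ≤ M → M ≤ M' → (∀ O u, 0 ≤ w O u) →
  Cl Y P ω z w ε K M (M' - M) A →
  ∃ D : Finset (List Bool),
    (∀ u, u ∉ D → run Y P ω z K M (M' - M) A u = full A M M' ω z u) ∧
    ∑ u ∈ D, w (run Y P ω z K M (M' - M) A) u ≤ (M' - M : ℕ) * ε

/-- SAMPLES (uses `S_Put`, `S_Run`).  PROOF.  `samp N i b` has level `N`; `put` at a sample. -/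
def S_Gen : Prop := ∀ (Y : World) (P : ℕ → List Bool → Bool) (ω : Smp) (z : Rep) (K : Exc)
  (M M' N : ℕ) (A : Orc), M ≤ N → N < M' → ∀ i : Fin (16 * N ^ 6),
  gen (run Y P ω z K M (M' - M) A) N i = ω N i ∧ gen (full A M M' ω z) N i = ω N i

/-! ### B.  Locality and validity -/

/-- LOCALITY (uses `S_Str`).  PROOF.  (1) Strings of length at most `t ≤ M` have level less than `M`
(last part of `S_Str`); `path_allQ`, `eval_congr` for trees.  (2) The samples of level `N < M` agree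
(level of `samp N i b` is `N`, from `dec`), the trees `ct.T` ask only strings of length at most `N`,
of level less than `N` (for `N ≥ 1`; for `N = 0` there are no gates and no query: the depth of the
tree is `0`, or: exclude it by `1 ≤ N`).  (3) `Acc A e s k x v y` asks a string of level
`rk k x.length`.  (4) `Y.F k x` reads strings of length at most `x.length ^ k + k ≤ rk k x.length`,
of level less than `rk k x.length` (which is at least `1`). -/
def S_LoP : Prop := ∀ (_ct : CT) (Y : World) (M : ℕ) (A A' : Orc), 1 ≤ M → Agr M A A' →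
  (∀ (V : S2) (t : ℕ) (o : Bool), t ≤ M → V.Bounded t → V.Decides A o → V.Decides A' o) ∧
  (∀ N, 1 ≤ N → N < M → FoolsAt Y.g A N → FoolsAt Y.g A' N) ∧
  (∀ e k x b, rk k x.length < M → Inst A e k x b → Inst A' e k x b) ∧
  (∀ k x, rk k x.length ≤ M → Y.F k x A = Y.F k x A') ∧
  (Valid Y A M → Valid Y A' M)

/-- `Bad` IS LOCAL (uses `S_Str`).  PROOF.  The trees `ct.T N` ask only strings of length at most `N`,
of level less than `N`. -/
def S_BdL : Prop := ∀ (_ct : CT) (g : ℕ → ℕ) (A A' : Orc) (N : ℕ) (l : ℝ), 1 ≤ N → Agr N A A' →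
  (∀ i : Fin (16 * N ^ 6), gen A N i = gen A' N i) → Bad g A N l → Bad g A' N l

/-- `Bad` AND `FoolsAt` (uses nothing).  PROOF.  `Prg.prob_eq_frac`, definition of `frac`
(`Fintype.card (Fin n) = n`), `1 / (2 N) ≤ 1 / N`. -/
def S_BdF : Prop := ∀ (g : ℕ → ℕ) (A : Orc) (N : ℕ), 1 ≤ N →
  (¬ Bad g A N (1 / N) → FoolsAt g A N) ∧ (¬ Bad g A N (1 / (2 * N)) → FoolsAt g A N)

/-- AN INSTANCE HAS ONE ANSWER (uses nothing).  PROOF.  Otherwise on one side all `16 ^ rk` strings of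
random bits have an accepted reply, and at most `4 ^ rk` of them; `rk k n ≥ 1`. -/
def S_InU : Prop := ∀ (A : Orc) (e : Bool) (k : ℕ) (x : List Bool) (b b' : Bool),
  Inst A e k x b → Inst A e k x b' → b = b'

/-- THE TABLES OF A RUN (uses `S_Put`, `S_Run`, `S_LoP`, `S_Str`).  PROOF.  Let `r = rk k x.length`,
`q = ⟨(e, k, x), rfl⟩ : Tab r`, `A₁` the final oracle.  `Acc A₁ e s k x v y` is
`A₁ (cstr s (q, v) y) = true` (by definition), and by `S_Run`, `S_Put` this is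
`z r s (q, v) = y ∧ (s = truth Y P (run … M (r - M) A) (e, k, x) ∨ (q, v) ∈ K r)`; the truth relative
to `run … M (r - M) A` is the truth relative to `A₁` (both agree on the levels less than `r`, fourth
part of `S_LoP`).  On the side `truth` every row has exactly the reply `z r s (q, v)`, on the other
side only the rows with `(q, v) ∈ K r`, at most `(K r).card ≤ 4 ^ r`. -/
def S_Vld : Prop := ∀ (_ct : CT) (Y : World) (P : ℕ → List Bool → Bool) (ω : Smp) (z : Rep) (K : Exc)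
  (M M' : ℕ) (A : Orc), 1 ≤ M → M ≤ M' → (∀ r, M ≤ r → r < M' → (K r).card ≤ 4 ^ r) →
  Agr M A (run Y P ω z K M (M' - M) A) ∧
  ∀ e k x, M ≤ rk k x.length → rk k x.length < M' →
    Inst (run Y P ω z K M (M' - M) A) e k x (truth Y P (run Y P ω z K M (M' - M) A) (e, k, x))

/-! ### C.  Circuits -/

/-- CIRCUITS ARE DECISION TREES (uses nothing).  PROOF.  For fixed guess bits `w` as in the old file
`Prg/CirT.lean`: recursion on the remaining gates, the state is the vector of the wire values; depth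
at most `N`, strings of length at most `N`.  Then `evalQ`: recursion on `G` with the tree
`T₁ ∧ T₂` or `T₁ ∨ T₂` (run `T₁`, at its leaves continue with `T₂`, or: define the composition
`DTree.bind`), depth `d₁ + d₂ ≤ N * 2 ^ G + N * 2 ^ G = N * 2 ^ (G + 1)`. -/
def S_CirT : Prop := Nonempty CT

/-- NUMBER OF CIRCUITS (uses nothing; old file `Prg/CirN.lean`).  PROOF.  `G ≤ N`, with
`v = 3 N + 2 ≥ 2 N + 2 + G`: `|Gate N G| ≤ v ^ 2 + ∑ l ≤ N, v ^ l ≤ 2 * v ^ N` for `N ≥ 6` (as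
`v ≥ 20`: `v ^ 2 ≤ v ^ N / 4`, `∑ l ≤ N, v ^ l ≤ v ^ N * 20 / 19`), so
`|Circ N G| * 2 ^ G ≤ 2 ^ N * v ^ (N ^ 2) * v * 2 ^ N`, and `v ≤ 2 ^ (N - 1)` for `N ≥ 6`
(`20 ≤ 32`): the exponent is `2 N + (N ^ 2 + 1) (N - 1) = N ^ 3 - N ^ 2 + 3 N - 1 ≤ N ^ 3`. -/
def S_CirN : Prop := ∀ N ≥ 6, ∀ G ≤ N,
  Fintype.card (Circ N G × (Fin G → Bool)) ≤ 2 ^ (N ^ 3)

/-- RANDOM SAMPLES ARE GOOD FOR THE FULL ORACLE (uses `Prg.S_Tri`, `S_CirN`, `S_Str`, `S_Put`,
`S_Gen`).  PROOF.  `Prg.S_Tri` with `M'` for `M`, `a = M`, `𝒞 N = Circ N (g N) × (Fin (g N) → Bool)`,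
`h ω N C ρ = (evalQ (full A M M' (exS ω) z) C.1 C.2 ρ = true)`: by the trees `ct.T N` (strings of
length at most `N`, `path_allQ`, `eval_congr`) it depends only on the oracle on the levels less than
`N`, so (last part of `S_Put` with `B = B'`, definition of `full`) only on the `ω N'` with `N' < N`;
`gen (full …) N i = ω N i` for `M ≤ N < M'` by `S_Gen`.  `(1/2)^(M^3) / 8 ≤ 1/8`. -/
def S_Loc : Prop := ∀ (_ct : CT) (g : ℕ → ℕ) (M M' : ℕ) (A : Orc) (z : Rep), (∀ N, g N ≤ N) →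
  6 ≤ M → frac (fun ω : (N : Fin M') → Fin (16 * (N : ℕ) ^ 6) → Fin N → Bool =>
    ∃ N, M ≤ N ∧ N < M' ∧ Bad g (full A M M' (exS ω) z) N (1 / (2 * N))) ≤ 1 / 8

/-- FILLING ONE LEVEL (uses `S_Loc`, `S_Vld`, `S_BdL`, `S_BdF`, `S_Gen`, `S_LoP`, `S_Run`).  PROOF.
Take `P = false`, `z` arbitrary, `K = ∅`, `A' = run Y P ω z K M 1 A` (`M' = M + 1`).  If `M < 6`, `ω` is
arbitrary.  If `M ≥ 6`, by `S_Loc` (fraction at most `1/8 < 1`, `Prg.exists_not_of_frac_lt_one`) some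
`ω` has no bad circuit of size `M` on `full A M (M+1) (exS ω) z`; `A'` and this oracle agree on the
levels less than `M` and have the same samples of size `M`, so there is no bad circuit on `A'`
(`S_BdL`, `S_BdF`).  The tables of level `M` are in order by `S_Vld` (`truth` is `Y.F` for `e = true`),
the lower levels by `S_LoP`. -/
def S_FlA : Prop := ∀ (_ct : CT) (Y : World) (A : Orc) (M : ℕ), 1 ≤ M → Valid Y A M →
  ∃ A', Agr M A A' ∧ Valid Y A' (M + 1)

/-- FILLING (uses `S_FlA`).  PROOF.  Induction on `M'`. -/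
def S_Fil : Prop := ∀ (_ct : CT) (Y : World) (A : Orc) (M M' : ℕ), 1 ≤ M → M ≤ M' → Valid Y A M →
  ∃ A', Agr M A A' ∧ Valid Y A' M'

/-! ### D.  The nested closure -/

/-- NUMBER OF ROWS (uses nothing).  PROOF.  `(e, k, x)` with `rk k x.length = r` has `k ≤ r` and
`x.length ≤ r`: at most `2 * (r + 1) * (2 ^ (r+1) - 1)` tables (inject into
`Bool × Fin (r+1) × (words of length at most r)`; the words of length at most `r` inject into
`Σ l : Fin (r+1), (Fin l → Bool)` of cardinality `∑ l ≤ r, 2 ^ l = 2 ^ (r+1) - 1`, see also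
`Prg.S_Adv`), and `|Row r| = |Tab r| * 2 ^ (4 r)`.  So `|Row r| + 1 ≤ 4 (r+1) 2 ^ (5 r) ≤ 2 ^ (6 r)` as
`4 (r + 1) ≤ 2 ^ r` for `r ≥ 5`. -/
def S_Row : Prop := ∀ r, 5 ≤ r → Fintype.card (Row r) + 1 ≤ 2 ^ (6 * r)

/-- NUMBER OF EXCEPTION SETS (uses `S_Row`, `Prg.S_Sma`).  PROOF.  `Fintype.card_pi`; the factor of
`j < M` is `1` (only the empty set), the factor of `j ≥ M` is at most
`(|Row j| + 1) ^ (4 ^ j) ≤ 2 ^ (6 j 4 ^ j) ≤ 2 ^ (6 r 4 ^ j)`, and
`∑ j ∈ [M, r), 6 r 4 ^ j = 2 r (4 ^ r - 4 ^ M)`. -/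
def S_CtK : Prop := ∀ M r : ℕ, 6 ≤ M → M ≤ r →
  Nat.card ((j : Fin r) → {K : Finset (Row j) // K.card ≤ if (j : ℕ) < M then 0 else 4 ^ (j : ℕ)}) ≤
    2 ^ (2 * r * (4 ^ r - 4 ^ M))

/-- ONE LEVEL, EVERYTHING ELSE FIXED (uses `Prg.S_Clo`, `S_Put`).  PROOF.  Let
`tr c = truth Y P A c.1.1`.  The map `zr ↦ (fix, var)`, `fix c = zr (tr c) c`,
`var c = zr (!tr c) c` is a bijection onto `(Row r → Val r) × (Row r → Val r)` (`Prg.frac_equiv`), and it
suffices (`Prg.frac_prod_le`) to bound the fraction of the `var` for every fixed `fix`.  For a finite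
set `S` of pairs (row, reply) let `O S = fin Y P ω z w ε (r + 1) j (put r A (ω r) B_S)` with
`B_S s c y = if s = tr c then decide (fix c = y) else decide ((c, y) ∈ S)`.  Apply `Prg.S_Clo` with
`ι = Row r`, `σ = Val r` (`|σ| = 2 ^ (4 r)`), `k = 4 ^ r`, the weights
`(1 / ε) * w (O S) (cstr (!tr c) c y)` of the pair `(c, y)`; their sum is at most `t / ε`, because
`(c, y) ↦ cstr (!tr c) c y` is injective (third part of `S_Put`; sum over the image).  If `S ⊆ gr var`,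
`S.card ≤ 4 ^ r` and `∑ over gr var \ S ≤ 1`, then `K = S.image Prod.fst` works: `K.card ≤ 4 ^ r`,
`step Y P r A (ω r) zr K = put r A (ω r) B_S` (for `s = tr c` both are `decide (fix c = y)`; for
`s = !tr c` both say `var c = y` and `c ∈ K`, as `S ⊆ gr var`), and `c ∉ K` iff
`(c, var c) ∈ gr var \ S`. -/
def S_LvA : Prop := ∀ (Y : World) (P : ℕ → List Bool → Bool) (ω : Smp) (z : Rep)
  (w : Orc → List Bool → ℝ) (ε t : ℝ) (r j : ℕ) (A : Orc), 0 < ε → (∀ O u, 0 ≤ w O u) →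
  (∀ O (D : Finset (List Bool)), ∑ u ∈ D, w O u ≤ t) →
  frac (fun zr : Bool → Row r → Val r => ¬ Lv Y P ω z w ε r j A zr) ≤
    (t / ε / 2 ^ (4 * r)) ^ (4 ^ r + 1)

/-- ONE LEVEL, UNION BOUND (uses `S_LvA`, `S_Dep`, `S_CtK`).  PROOF.  For fixed `i`, `K` the property
`Lv … (exR z r)` depends on `z` at the levels above `r` (through `fin … (r + 1) …`: by `S_Dep` the
predicates of `pick` are equal, hence the picked sets), at the levels in `[M, r)` (through
`run … M (r - M) A`, `S_Dep`) and on `exR z r = z r`; so for fixed other coordinates (split off the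
coordinate `r` with `Equiv.piSplitAt`, `Prg.frac_equiv`, `Prg.frac_prod_le`, see the old file
`Prg/Tri.lean`) the fraction is at most the bound of `S_LvA`.  By `S_Dep` only the values of `K` in
`[M, r)` matter, so it is a union over `ι` and over the type of `S_CtK` (`Prg.frac_exists_le`;
`Nat.card = Fintype.card`, extend the family by `∅`). -/
def S_LvB : Prop := ∀ (ι : Type) [Fintype ι] (Y : World) (P : ι → ℕ → List Bool → Bool) (ω : Smp)
  (w : ι → Orc → List Bool → ℝ) (ε t : ℝ) (M M' r : ℕ) (A : Orc), 0 < ε →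
  (∀ i O u, 0 ≤ w i O u) → (∀ i O (D : Finset (List Bool)), ∑ u ∈ D, w i O u ≤ t) →
  6 ≤ M → M ≤ r → r < M' →
  frac (fun z : (r : Fin M') → Bool → Row r → Val r => ∃ (i : ι) (K : Exc),
    (∀ j, M ≤ j → j < r → (K j).card ≤ 4 ^ j) ∧
    ¬ Lv Y (P i) ω (exR z) (w i) ε r (M' - (r + 1))
      (run Y (P i) ω (exR z) K M (r - M) A) (exR z r)) ≤
    Fintype.card ι * 2 ^ (2 * r * (4 ^ r - 4 ^ M)) * (t / ε / 2 ^ (4 * r)) ^ (4 ^ r + 1)

/-- DOWNWARD INDUCTION (uses `S_Run`, `S_Dep`).  PROOF.  Claim for `r` from `M'` down to `M`: for all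
`K` with `(K j).card ≤ 4 ^ j` for `M ≤ j < r` there is `K'` with
`Cl … K' r (M' - r) (run … K M (r - M) A)`.  `r = M'` is trivial.  Step from `r + 1` to `r`: `Lv` gives
`K_r`; let `K₁` be `K` with the value `K_r` at `r` (`Function.update`); then
`run … K₁ M (r + 1 - M) A = step Y P r (run … K M (r - M) A) (ω r) (z r) K_r =: A₁` (`S_Run`, `S_Dep`).  By
the claim for `r + 1` the predicate in `fin … (r + 1) (M' - (r + 1)) A₁` is satisfied by some set, so by
`K₂ = pick …`; `K'` = `K₂` with the value `K_r` at `r` (`S_Dep` for `Cl` and `run` on the levels above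
`r`), and the sum in `Cl` is the sum in `Lv`.  At `r = M` take `K = ∅`. -/
def S_Ind : Prop := ∀ (Y : World) (P : ℕ → List Bool → Bool) (ω : Smp) (z : Rep)
  (w : Orc → List Bool → ℝ) (ε : ℝ) (M M' : ℕ) (A : Orc), M ≤ M' →
  (∀ r, M ≤ r → r < M' → ∀ K : Exc, (∀ j, M ≤ j → j < r → (K j).card ≤ 4 ^ j) →
    Lv Y P ω z w ε r (M' - (r + 1)) (run Y P ω z K M (r - M) A) (z r)) →
  ∃ K, Cl Y P ω z w ε K M (M' - M) A

/-- CLOSING SETS EXIST (uses `S_LvB`, `S_Ind`).  PROOF.  By `S_Ind` the event is contained in the union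
over `r ∈ [M, M')` of the events of `S_LvB`.  With `t / ε ≤ 2 ^ (2 M - 1)` and `|ι| ≤ 2 ^ (4 ^ M)` the
bound for `r` is at most `2 ^ e`, where
`e = 4^M + 2 r (4^r - 4^M) - (2 r + 1) (4^r + 1) ≤ - 2 r - 1` (note `2M - 1 - 4r ≤ - 2r - 1`, and
`4^M ≤ 2 r 4^M`, `t / ε ≥ 0` because the empty sum is at most `t`); the sum over `r ≥ 6` of
`2 ^ (- 2 r - 1)` is less than `1/4`. -/
def S_Sel : Prop := ∀ (ι : Type) [Fintype ι] (Y : World) (P : ι → ℕ → List Bool → Bool) (ω : Smp)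
  (w : ι → Orc → List Bool → ℝ) (ε t : ℝ) (M M' : ℕ) (A : Orc), 0 < ε →
  (∀ i O u, 0 ≤ w i O u) → (∀ i O (D : Finset (List Bool)), ∑ u ∈ D, w i O u ≤ t) →
  6 ≤ M → M ≤ M' → (Fintype.card ι : ℝ) ≤ 2 ^ (4 ^ M) → t / ε ≤ 2 ^ (2 * M - 1) →
  frac (fun z : (r : Fin M') → Bool → Row r → Val r =>
    ¬ ∀ i : ι, ∃ K, Cl Y (P i) ω (exR z) (w i) ε K M (M' - M) A) ≤ 1 / 4

/-! ### E.  `S₂` machines and the test -/

/-- SPARSE MINIMAX (uses nothing).  PROOF.  `T = 1152 (b + 1)`.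
CASE 1: for every `D : Z → ℝ`, `D ≥ 0`, `∑ D = 1`, some `y` has `∑ z, D z * M y z ≥ 1/2`.  Multiplicative
weights: `W_0 z = 1`, `y_i` = such a message for `D = W_i / ∑ W_i`,
`W_(i+1) z = W_i z * exp (- (1/24) * M (y_i) z)`.  As `exp (- x) ≤ 1 - x + x^2 / 2` for `x ≥ 0`,
`∑ W_(i+1) ≤ (∑ W_i) (1 - (1/24)(1/2) + (1/24)^2 / 2) ≤ (∑ W_i) exp (- 1/48 + 1/1152)`.  Hence for
every `z`: `exp (- (1/24) ∑ i, M (y_i) z) ≤ 2 ^ b * exp (T (- 1/48 + 1/1152))`, so
`∑ i, M (y_i) z ≥ T/2 - T/48 - 24 b ≥ (11/24) T` because `24 b ≤ T / 48` (`2 ^ b ≤ exp b`).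
CASE 2: some `D` has `∑ z, D z * M y z ≤ 1/2` for all `y`.  Choose `z_i` one after the other such that
`Φ_i = ∑ y, exp ((1/12) ∑ j < i, (M y (z_j) - 1/2))` satisfies `Φ_(i+1) ≤ exp (1/576) Φ_i`: the
`D`-average of `exp ((1/12)(M y z - 1/2))` is at most `1 + 0 + 1/576` (`exp x ≤ 1 + x + x^2` for
`|x| ≤ 1`, `|x| ≤ 1/24`).  Hence `exp ((1/12)(∑ i, M y (z_i) - T/2)) ≤ 2 ^ b exp (T / 576)` and
`∑ i, M y (z_i) ≤ T/2 + T/48 + 12 b ≤ (13/24) T`. -/
def S_Mmx : Prop := ∀ (Y Z : Type) [Fintype Y] [Nonempty Y] [Fintype Z] [Nonempty Z]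
  (M : Y → Z → ℝ) (b : ℕ), (∀ y z, 0 ≤ M y z ∧ M y z ≤ 1) → Fintype.card Y ≤ 2 ^ b →
  Fintype.card Z ≤ 2 ^ b →
  (∃ ys : Fin (1152 * (b + 1)) → Y, ∀ z, 11 / 24 * (1152 * (b + 1) : ℝ) ≤ ∑ i, M (ys i) z) ∨
  (∃ zs : Fin (1152 * (b + 1)) → Z, ∀ y, ∑ i, M y (zs i) ≤ 13 / 24 * (1152 * (b + 1) : ℝ))

/-- CERTIFICATES EXIST (uses `S_Mmx`).  PROOF.  `S_Mmx` for `M y z = V.pr A y z`; extend the messages
of `p ≤ b` (or `q ≤ b`) bits to `b` bits, `cut` gives them back. -/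
def S_Cer : Prop := ∀ (V : S2) (A : Orc) (b : ℕ), V.Bounded b → ∃ c : Ct b, Holds V A c

/-- WEIGHTS OF THE TEST (uses nothing).  PROOF.  `wM`: every `qf` sums to at most `b` over `D`
(`Prg.sum_qf_le`, depth at most `b = X.W.t X.n`; `X.W.bounded` and `List.length_ofFn`), so the sum is at
most `12 b`, and the double sum has `X.Adv.card * 2 ^ X.n` terms.  `wC`: `2 N (N 2^G + N 2^G)` with
`N = h.choose < X.M'` (`ct.depth`). -/
def S_WgB : Prop := ∀ (X : Tst) (τ : X.Cer) (t : ℝ), 0 ≤ t →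
  (∀ N < X.M', 4 * (N : ℝ) ^ 2 * 2 ^ X.Y.g N ≤ t) →
  12 * (X.W.t X.n : ℝ) * (X.Adv.card * 2 ^ X.n) ≤ t →
  (∀ A u, 0 ≤ X.w τ A u) ∧ ∀ A (D : Finset (List Bool)), ∑ u ∈ D, X.w τ A u ≤ t

/-- THE MACHINE TEST WORKS (uses nothing).  PROOF.  `c.1 = true`: suppose `V.Decides A false`; then
`z₀ = bz V A` has `V.pr A y z₀ ≤ 1/3` for all `y`.  With `y_i = cut (c.2 i) V.p`:
`∑ i, V.pr J (y_i) z₀ ≤ ∑ i, V.pr A (y_i) z₀ + ∑ i, ∑ u ∈ D, qf A (V.T (y_i) z₀) u ≤ T/3 + T/12`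
(`Prg.abs_frac_sub_le`, `Prg.prob_eq_frac`), less than `(11/24) T`: contradiction to `Holds`.
`c.1 = false`: suppose `V.Decides A true`, `y₀ = by' V A`:
`∑ i, V.pr J y₀ (z_i) ≥ 2T/3 - T/12 = 14 T / 24 > 13 T / 24`. -/
def S_Out : Prop := ∀ (V : S2) (b : ℕ) (A J : Orc) (c : Ct b) (D : Finset (List Bool)),
  Holds V J c → (∀ u, u ∉ D → A u = J u) → ∑ u ∈ D, wM V A c u ≤ 1 → ¬ V.Decides A (!c.1)

/-- THE TEST WORKS (uses `S_Out`).  PROOF.  First case of `X.w`: a circuit `C` of size `N` in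
`[M, M')` has advantage larger than `1/N` on `A`; the samples of size `N` are the same on `J`;
`Prg.abs_frac_sub_le` for the trees `ct.T N` on the samples and on all `ρ` gives that the advantage on
`J` is larger than `1/N - ∑ u ∈ D, (both qf) ≥ 1/N - 1/(2N)`: contradiction.  So the second case
holds, there is no bad circuit, and every summand of the double sum has sum over `D` at most `1`
(all terms are nonnegative, `Prg.qf_nonneg`): `S_Out`. -/
def S_Tes : Prop := ∀ (X : Tst) (τ : X.Cer) (A J : Orc) (D : Finset (List Bool)), 1 ≤ X.M →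
  (∀ N, X.M ≤ N → N < X.M' → ∀ i : Fin (16 * N ^ 6), gen A N i = gen J N i) →
  (∀ u, u ∉ D → A u = J u) → ∑ u ∈ D, X.w τ A u ≤ 1 →
  (∀ N, X.M ≤ N → N < X.M' → ¬ Bad X.Y.g J N (1 / (2 * N))) →
  (∀ N, X.M ≤ N → N < X.M' → ¬ Bad X.Y.g A N (1 / N)) ∧
  ∀ (a : ↥X.Adv) (x : Fin X.n → Bool), Holds (X.W.run a (List.ofFn x)) J (τ a x) →
    ¬ (X.W.run a (List.ofFn x)).Decides A (!(τ a x).1)

/-- NUMBER OF PATTERNS AND CERTIFICATES (uses nothing).  PROOF.  `Fintype.card_fun` etc.: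
`2 ^ (2 ^ n) * ((2 * (2 ^ b) ^ (1152 (b+1))) ^ (2 ^ n)) ^ |Adv|`. -/
def S_CtI : Prop := ∀ X : Tst, (Fintype.card (((Fin X.n → Bool) → Bool) × X.Cer) : ℝ) ≤
  2 ^ (2 ^ X.n + X.Adv.card * (2 ^ X.n * (1 + 1152 * (X.W.t X.n + 1) * X.W.t X.n)))

/-- THE CHOICE OF SAMPLES AND REPLIES (uses `S_Loc`, `S_Sel`, `S_WgB`, `S_CtI`).  PROOF.  `S_Sel` with
`ι = ((Fin n → Bool) → Bool) × X.Cer`, `P i = pat k n i.1`, `w i = X.w i.2`, `ε = 1 / M'` (so
`t / ε = t M'`).  For every `ω` the fraction of the bad `z` is at most `1/4`, for every `z` the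
fraction of the bad `ω` at most `1/8`; so some pair `(ω, z)` is good (`Prg.frac_prod_le` in both
orders, `Prg.frac_or_le`, `Prg.exists_not_of_frac_lt_one`); take `exS ω`, `exR z`. -/
def S_Pik : Prop := ∀ (X : Tst) (t : ℝ) (A : Orc), 6 ≤ X.M → X.M ≤ X.M' → 0 ≤ t →
  (∀ N < X.M', 4 * (N : ℝ) ^ 2 * 2 ^ X.Y.g N ≤ t) →
  12 * (X.W.t X.n : ℝ) * (X.Adv.card * 2 ^ X.n) ≤ t → t * X.M' ≤ 2 ^ (2 * X.M - 1) →
  2 ^ X.n + X.Adv.card * (2 ^ X.n * (1 + 1152 * (X.W.t X.n + 1) * X.W.t X.n)) ≤ 4 ^ X.M →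
  ∃ (ω : Smp) (z : Rep),
    (∀ N, X.M ≤ N → N < X.M' → ¬ Bad X.Y.g (full A X.M X.M' ω z) N (1 / (2 * N))) ∧
    ∀ (f : (Fin X.n → Bool) → Bool) (τ : X.Cer), ∃ K,
      Cl X.Y (pat X.k X.n f) ω z (X.w τ) (1 / X.M') K X.M (X.M' - X.M) A

/-- CHOICE OF THE PATTERN (uses `Prg.S_Hoe`).  PROOF.  For fixed `a` the map
`f ↦ fun x => decide (f x = o a x)` is a bijection; `Prg.S_Hoe` with `Ω = Bool`, `E = (· = true)`
(`frac E = 1/2`), `K = 2 ^ n` (`Fin (2 ^ n) ≃ (Fin n → Bool)`), `l = 2 ^ (- n / 4) ≤ 1`: the fraction of the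
`f` which agree with `o a` on more than `(1/2 + l) 2 ^ n` words is at most `2 exp (- l^2 2^n / 4)`;
union bound over `a`. -/
def S_FCh : Prop := ∀ (n : ℕ) (Adv : Finset (List Bool)) (o : ↥Adv → (Fin n → Bool) → Bool),
  Adv.card * (2 * Real.exp (-(((2 : ℝ) ^ (-(n : ℝ) / 4)) ^ 2 * 2 ^ n / 4))) < 1 →
  ∃ f : (Fin n → Bool) → Bool, ∀ a : ↥Adv,
    (Nat.card {x // f x = o a x} : ℝ) ≤ (1 / 2 + (2 : ℝ) ^ (-(n : ℝ) / 4)) * 2 ^ n

/-! ### F.  Parameters, stage, limit -/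

/-- PARAMETERS (uses nothing).  PROOF.  Take `c = k + 2` and `n` as in the hypothesis, larger than a bound
`n₀(k, M₀, B)`.  Let `b = W.t n` (`b ^ 16 ≤ 2 ^ n`), `R = rk k n = n^k + k + n`, `M' = R + b + 1`; then
`N < M'` implies `N ≤ b + n ^ (k+2)` for `n ≥ k + 3`, so `16 * g N ≤ n`.  With `β = 2 ^ (n/16)` (real):
`b ≤ β`, `2 ^ g N ≤ β`, and `R ≤ β` for large `n`, so `M' ≤ 3 β`; the number of advice strings is less
than `2 ^ (n^k + k + 1)`, so `|Adv| * 2 ^ n ≤ 2 ^ (R + 1)`.  (1) `2^n + 2^(R+1) (1 + 1152 (b+1) b) ≤ 4^R`: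
`1152 (b+1) b + 1 ≤ 2^12 β^2 ≤ 2 ^ (n/8 + 12)` and `R ≥ n`.
(2) `t = max` of the two: take `t = 2 ^ (R + n/2)` as a natural power `2 ^ (R + n / 2)`:
`4 N^2 2^(g N) ≤ 36 β^3 ≤ t` and `12 b 2^(R+1) ≤ 24 β 2^R ≤ t` and
`t M' ≤ 3 β 2^(R + n/2) ≤ 2 ^ (2R - 1)` for large `n`.
(3) `l^2 2^n = 2^(n/2)`, and `2^(R+2) exp (- 2^(n/2) / 4) < 1` for large `n`. -/
def S_Par : Prop := ∀ (g t : ℕ → ℕ), (∀ c n₀, ∃ n ≥ n₀, t n ^ 16 ≤ 2 ^ n ∧
    ∀ N ≤ t n + n ^ c, 16 * g N ≤ n) → ∀ k M₀ B : ℕ, ∃ n ≥ B, M₀ ≤ rk k n ∧ 6 ≤ rk k n ∧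
    ∃ T : ℝ, 0 ≤ T ∧
    (∀ N < rk k n + t n + 1, 4 * (N : ℝ) ^ 2 * 2 ^ g N ≤ T) ∧
    12 * (t n : ℝ) * (2 ^ (n ^ k + k + 1) * 2 ^ n) ≤ T ∧
    T * (rk k n + t n + 1 : ℕ) ≤ 2 ^ (2 * rk k n - 1) ∧
    2 ^ n + 2 ^ (n ^ k + k + 1) * (2 ^ n * (1 + 1152 * (t n + 1) * t n)) ≤ 4 ^ rk k n ∧
    (2 : ℝ) ^ (n ^ k + k + 1) *
      (2 * Real.exp (-(((2 : ℝ) ^ (-(n : ℝ) / 4)) ^ 2 * 2 ^ n / 4))) < 1

/-- ONE STAGE (uses `S_Par`, `Prg.S_Adv`, `S_Fil`, `S_Pik`, `S_WgB`, `S_Cer`, `S_FCh`, `S_Sum`, `S_Gen`,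
`S_Tes`, `S_Vld`, `S_BdF`, `S_InU`, `S_ClU`, `S_LoP`, and a `ct : CT`).  PROOF.  `n` from `S_Par` with `M₀ = M + 1`;
`R = rk k n`; fill up to `R` (`S_Fil`): `A₁`.  `X : Tst` with `M = R`, `M' = R + W.t n + 1`,
`Adv = Prg.advs (n ^ k + k)` (fewer than `2 ^ (n^k+k+1)` strings).  `ω, z` from `S_Pik` for `A₁`;
`J = full A₁ …`; certificates `τ a x` on `J` from `S_Cer`; `f` from `S_FCh` for `o a x = (τ a x).1`; `K` from
`S_Pik`; `A' = run X.Y (pat k n f) ω z K R (M' - R) A₁`.  `S_Sum` (weights nonnegative by `S_WgB`,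
`(M' - R) * (1 / M') ≤ 1`), `S_Gen` and `S_Tes` give: no bad circuits of sizes in `[R, M')` on `A'`, and no
machine decides `!o a x`.  `Valid Y A' M'`: below `R` by `S_LoP`, for `[R, M')` by `S_BdF` and `S_Vld`
(`S_ClU` gives the cardinalities).  Let `A''` agree with `A'` below `M'`.  For `|h| ≤ n^k + k`, i.e.
`h ∈ Adv`: if `Inst A'' false k x b` and `(W.run h x).Decides A'' b`, `x = ofFn x₀`, then (`S_LoP`; queries
of length at most `t n < M'`, `rk k n < M'`) the same holds for `A'`, so `b = f x₀` (`S_InU`, `S_Vld`,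
definition of `pat`) and `b ≠ !o h x₀`, so `f x₀ = o h x₀`: at most `(1/2 + 2^(-n/4)) 2^n` words. -/
def S_Sta : Prop := ∀ (Y : World) (W : Machine), (∀ c n₀, ∃ n ≥ n₀, W.t n ^ 16 ≤ 2 ^ n ∧
    ∀ N ≤ W.t n + n ^ c, 16 * Y.g N ≤ n) → ∀ (A : Orc) (M : ℕ), 1 ≤ M → Valid Y A M → ∀ k B : ℕ,
  ∃ (M' : ℕ) (A' : Orc), M < M' ∧ Agr M A A' ∧ Valid Y A' M' ∧
    ∀ A'', Agr M' A' A'' → Refuted W k B A''

/-- THE LIMIT (uses `S_Sta`, `S_LoP`, and a `ct : CT`).  PROOF.  Enumerate the triples `(i, k, B)` (`Nat.unpair` twice),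
start with `M = 1`, `A = false` (`Valid` is trivial: `rk ≥ 1`) and iterate `S_Sta`; the bounds `M_j` are
strictly increasing, so `j < M_j` and `A u = A_(lev u) u` (`lev u < M_(lev u)`) agrees with every `A_j`
below `M_j`; `S_LoP`. -/
def S_Lim : Prop := ∀ (Y : World) (W : ℕ → Machine), (∀ i c n₀, ∃ n ≥ n₀, (W i).t n ^ 16 ≤ 2 ^ n ∧
    ∀ N ≤ (W i).t n + n ^ c, 16 * Y.g N ≤ n) →
  ∃ A : Orc, (∀ N ≥ 6, FoolsAt Y.g A N) ∧ (∀ k x, Inst A true k x (Y.F k x A)) ∧
    (∀ k x, ∃ b, Inst A false k x b) ∧ ∀ i k B, Refuted (W i) k B A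

/-! ### G.  `P^MA` machines are `S₂` machines -/

/-- `P^MA` MACHINES (uses nothing).  PROOF.  Let `m = n ^ c + c` bound everything.  Each player writes
for each of the `m` levels an answer bit and a message of `m` bits: `p = q = m (m + 1)` bits; `m` random
bits.  The verifier goes down the tree as long as the two answers agree (no query).  At a leaf it
accepts iff the leaf is `true`.  At the first disagreement one player says yes, with a message `y`; it runs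
the Merlin-Arthur tree `T y ρ` of this node (at most `m` queries); if this accepts, the player who said yes
is right, otherwise the other one; the verifier accepts iff the first player is right.  Let the old
machine decide `b`, i.e. there is a promised path to the leaf `b`.  The player who claims `b` writes the
true answers of this path, with messages of acceptance probability at least `2/3` for the answers yes.
At the first disagreement: if the true answer is yes, his message is tested and accepted with probability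
at least `2/3`; if the true answer is no, the message of the other player is tested and accepted with
probability at most `1/3`.  (Random bits: a probability over the first `r ≤ m` of `m` random bits is
the probability over `r` random bits.)  Recommended: recursion on the tree with the two functions
`ℕ → Bool` (answers) and `ℕ → Fin m → Bool` (messages) of each player, shifted by one at each node. -/
def S_PMA : Prop := ∀ V : Prg.Machine, ∃ W : Machine,
  (∀ n, W.t n ≤ (n ^ V.c + V.c) * (n ^ V.c + V.c + 1)) ∧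
  ∀ (A : Orc) (h x : List Bool) (b : Bool), (V.tree h x).Decides A b → (W.run h x).Decides A b

end Pool.Agent.Lib.MP_ff3ed7_lc.Prg2
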