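import Pool.Agent.Lib.MP_ff3ed7_lc.Prg2.Spec

/-!
Closing sets hide the difference between `run` and `full`.
-/

namespace Pool.Agent.Lib.MP_ff3ed7_lc.Prg2

open Finset
open Pool.Agent.Lib.MP_ff3ed7_lc.Prg (frac qf path gr cut)

private theorem Sum_biUnion (s : Finset ℕ) (t : ℕ → Finset (List Bool)) (f : List Bool → ℝ)
    (hf : ∀ u, 0 ≤ f u) : ∑ u ∈ s.biUnion t, f u ≤ ∑ r ∈ s, ∑ u ∈ t r, f u := by
  classical
  induction s using Finset.induction_on with
  | empty => simp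
  | insert a s ha ih =>
    rw [biUnion_insert, sum_insert ha]
    have h1 := sum_union_inter (s₁ := t a) (s₂ := s.biUnion t) (f := f)
    have h2 : 0 ≤ ∑ u ∈ t a ∩ s.biUnion t, f u := sum_nonneg fun u _ => hf u
    linarith

theorem tSum (hDif : S_Dif) (hClU : S_ClU) : S_Sum := by
  classical
  intro Y P ω z K w ε M M' A hM hMM' hw hCl
  have hU := hClU Y P ω z w ε K M (M' - M) A hCl
  let Dr : ℕ → Finset (List Bool) := fun r =>
    (univ \ K r).image (wstr Y P (run Y P ω z K M (r - M) A) (z r))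
  refine ⟨(Finset.Ico M M').biUnion Dr, ?_, ?_⟩
  · intro u hu
    by_contra hne
    obtain ⟨r, h1, h2, c, hc, rfl⟩ := hDif Y P ω z K M M' A u hM hMM' hne
    apply hu
    rw [mem_biUnion]
    refine ⟨r, mem_Ico.mpr ⟨h1, h2⟩, ?_⟩
    exact mem_image.mpr ⟨c, mem_sdiff.mpr ⟨mem_univ _, hc⟩, rfl⟩
  · have hb : ∀ r ∈ Finset.Ico M M', ∑ u ∈ Dr r, w (run Y P ω z K M (M' - M) A) u ≤ ε := by
      intro r hr
      obtain ⟨h1, h2⟩ := mem_Ico.mp hr
      refine le_trans ?_ (hU r h1 (by omega)).2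
      exact sum_image_le_of_nonneg fun u _ => hw _ _
    calc ∑ u ∈ (Finset.Ico M M').biUnion Dr, w (run Y P ω z K M (M' - M) A) u
        ≤ ∑ r ∈ Finset.Ico M M', ∑ u ∈ Dr r, w (run Y P ω z K M (M' - M) A) u :=
          Sum_biUnion _ _ _ fun u => hw _ _
      _ ≤ ∑ _r ∈ Finset.Ico M M', ε := sum_le_sum hb
      _ = (M' - M : ℕ) * ε := by
          rw [sum_const, Nat.card_Ico, nsmul_eq_mul]

end Pool.Agent.Lib.MP_ff3ed7_lc.Prg2
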